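import Pool.Agent.W_MP_3ab0ed_h44.Iterate
import Pool.Agent.W_MP_3ab0ed_h82.Cls
import Pool.Agent.W_MP_3ab0ed_burn.Init

/-!
MP_3ab0ed_al.  The class `Cls` of row 77 is invariant under isomorphisms of groups, and contains
the action of a free group on itself.
-/

namespace Burn

theorem isoInv_cls (n : ℕ) (δ B q : ℤ) :
    IsoInv (fun G V _ _ M => Cls n δ B q G (V := V) M) := by
  intro G G' V _ _ _ M e H
  let _ : MulAction G' V := MulAction.compHom V e.toMonoidHom
  have hs : ∀ (g : G') (x : V), g • x = e g • x := fun _ _ => rfl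
  refine ⟨?_, H.hyp, ?_, ?_, ?_⟩
  · intro g x y
    exact H.inv (e g) x y
  · intro g
    rcases H.dich (e g) with h1 | h
    · left
      exact e.injective (by rw [map_pow, h1, map_one])
    · right
      intro x j
      rw [hs, map_pow]
      exact h x j
  · intro g h hg hgn hc
    have hg' : e g ≠ 1 := fun h => hg (e.injective (h.trans (map_one e).symm))
    have h1 := H.tor (e g) (e h) hg' (by rw [← map_pow, hgn, map_one]) (by
      show e g * e h = e h * e g
      rw [← map_mul, ← map_mul, hc.eq])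
    exact e.injective (by rw [map_pow, h1, map_one])
  · intro g h x y h1 h2 h3 h4 h5
    obtain ⟨z, hz1, hz2⟩ := H.acy (e g) (e h) x y h1 h2 h3 h4 h5
    obtain ⟨i, hi⟩ := Subgroup.mem_zpowers_iff.1 hz1
    obtain ⟨j, hj⟩ := Subgroup.mem_zpowers_iff.1 hz2
    refine ⟨e.symm z, Subgroup.mem_zpowers_iff.2 ⟨i, e.injective ?_⟩,
      Subgroup.mem_zpowers_iff.2 ⟨j, e.injective ?_⟩⟩
    · rw [map_zpow, e.apply_symm_apply, hi]
    · rw [map_zpow, e.apply_symm_apply, hj]

theorem initOut_cls (n : ℕ) (δ B q : ℤ) (hn : n ≠ 0) (hδ : 1 ≤ δ) (hB : 20000 * δ + 20 ≤ B)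
    (hq : 1 ≤ q) (κ : Type) :
    InitOut (fun G V _ _ M => Cls n δ B q G (V := V) M) κ := by
  classical
  refine ⟨FreeGroup κ, inferInstance, Init.wordMet κ, 1, fun f => f.norm,
    (Init.init κ n hδ hB hq).toCls hn hδ hq, ?_⟩
  intro f
  rw [Init.wordMet_d, Init.wd, inv_one, one_mul, smul_eq_mul, mul_one]

end Burn
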