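import Pool.Agent.Burn.IMet
import Pool.Agent.W_MP_3ab0ed_burn.Basic

/-!
MP_3ab0ed_al.  Translation between the two frameworks: `IsGeod d` (values in `ℕ`) and `IMet`
(values in `ℤ`).
-/

namespace Burn

universe u

/-- the integer metric of a natural number valued geodesic metric -/
def IMet.ofGeod {X : Type u} {d : X → X → ℕ} (hd : IsGeod d) : IMet X where
  d x y := (d x y : ℤ)
  nonneg x y := by positivity
  eq_of_zero x y h := hd.eq x y (by exact_mod_cast h)
  self x := by rw [hd.self]; rfl
  symm x y := by rw [hd.symm]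
  tri x y z := by exact_mod_cast hd.tri x y z
  geo x y k h0 hk := by
    obtain ⟨z, h1, h2⟩ := hd.geod x y k.toNat (by omega)
    exact ⟨z, by omega, by omega⟩

@[simp] theorem IMet.ofGeod_d {X : Type u} {d : X → X → ℕ} (hd : IsGeod d) (x y : X) :
    (IMet.ofGeod hd).d x y = (d x y : ℤ) := rfl

theorem IMet.ofGeod_hyp {X : Type u} {d : X → X → ℕ} (hd : IsGeod d) {δ : ℕ} :
    (IMet.ofGeod hd).Hyp (δ : ℤ) ↔ Burn.Hyp d δ := by
  constructor
  · intro h x y z w
    have := h x y z w
    simp only [IMet.ofGeod_d] at this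
    rcases this with h1 | h1
    · have : d x z + d y w ≤ max (d x z + d y w) (d x w + d y z) := le_max_left _ _
      omega
    · have : d x w + d y z ≤ max (d x z + d y w) (d x w + d y z) := le_max_right _ _
      omega
  · intro h x y z w
    have h0 := h x y z w
    simp only [IMet.ofGeod_d]
    rcases le_total (d x z + d y w) (d x w + d y z) with h1 | h1
    · rw [max_eq_right h1] at h0
      right; omega
    · rw [max_eq_left h1] at h0
      left; omega

/-- the natural number valued metric of an `IMet` -/
def IMet.nd {X : Type u} (M : IMet X) (x y : X) : ℕ := (M.d x y).toNat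

theorem IMet.nd_cast {X : Type u} (M : IMet X) (x y : X) : (M.nd x y : ℤ) = M.d x y :=
  Int.toNat_of_nonneg (M.nonneg x y)

theorem IMet.isGeod {X : Type u} (M : IMet X) : IsGeod M.nd where
  self x := by
    have := M.nd_cast x x
    rw [M.self] at this
    omega
  eq x y h := M.eq_of_zero x y (by rw [← M.nd_cast, h]; rfl)
  symm x y := by unfold IMet.nd; rw [M.symm]
  tri x y z := by
    have h1 := M.nd_cast x y
    have h2 := M.nd_cast y z
    have h3 := M.nd_cast x z
    have := M.tri x y z
    omega
  geod x y k hk := by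
    have h1 := M.nd_cast x y
    obtain ⟨z, hz1, hz2⟩ := M.geo x y k (by positivity) (by omega)
    have h2 := M.nd_cast x z
    have h3 := M.nd_cast z y
    exact ⟨z, by omega, by omega⟩

theorem IMet.ofGeod_nd {X : Type u} (M : IMet X) : (IMet.ofGeod M.isGeod) = M := by
  cases M
  simp only [IMet.ofGeod, IMet.nd]
  congr
  funext x y
  rename_i hn _ _ _ _ _
  exact Int.toNat_of_nonneg (hn x y)

theorem IMet.hyp_nd {X : Type u} (M : IMet X) {δ : ℕ} :
    M.Hyp (δ : ℤ) ↔ Burn.Hyp M.nd δ := by
  rw [← IMet.ofGeod_hyp M.isGeod, IMet.ofGeod_nd]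

theorem IMet.inv_ofGeod {X : Type u} {d : X → X → ℕ} (hd : IsGeod d) {G : Type*} [Group G]
    [MulAction G X] : (IMet.ofGeod hd).Inv G ↔ ∀ (g : G) (x y : X), d (g • x) (g • y) = d x y := by
  constructor
  · intro h g x y
    have := h g x y
    simp only [IMet.ofGeod_d] at this
    exact_mod_cast this
  · intro h g x y
    simp only [IMet.ofGeod_d]
    exact_mod_cast h g x y

end Burn
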