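import Pool.Agent.W_MP_3ab0ed_h44.Kos

/-!
Homology part of MP_3ab0ed_al.  Exactness of the Koszul complex on `G →₀ Lam X`.
-/

namespace W3ab0ed

open Finsupp

set_option linter.unusedSectionVars false

variable {G X : Type} [Group G]

/-- Interval sums along a cyclic direction. -/
noncomputable def gsum (τ : G) (g0 : G) (b : Lam X) (m : ℤ) : KK G X :=
  (∑ j ∈ Finset.Ico (0 : ℤ) m, Finsupp.single (g0 * τ ^ j) b)
    - ∑ j ∈ Finset.Ico m (0 : ℤ), Finsupp.single (g0 * τ ^ j) b

theorem gsum_zero (τ g0 : G) (b : Lam X) : gsum τ g0 b 0 = 0 := by simp [gsum]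

theorem gsum_succ (τ g0 : G) (b : Lam X) (m : ℤ) :
    gsum τ g0 b (m + 1) = gsum τ g0 b m + Finsupp.single (g0 * τ ^ m) b := by
  unfold gsum
  rcases lt_or_ge m 0 with hm | hm
  · have h1 : Finset.Ico (0 : ℤ) (m + 1) = ∅ := Finset.Ico_eq_empty (by omega)
    have h2 : Finset.Ico (0 : ℤ) m = ∅ := Finset.Ico_eq_empty (by omega)
    have h3 : Finset.Ico m (0 : ℤ) = insert m (Finset.Ico (m + 1) 0) := by
      ext j; simp only [Finset.mem_Ico, Finset.mem_insert]; omega
    rw [h1, h2, h3, Finset.sum_insert (by simp)]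
    simp
  · have h1 : Finset.Ico (m + 1) (0 : ℤ) = ∅ := Finset.Ico_eq_empty (by omega)
    have h2 : Finset.Ico m (0 : ℤ) = ∅ := Finset.Ico_eq_empty (by omega)
    have h3 : Finset.Ico (0 : ℤ) (m + 1) = insert m (Finset.Ico 0 m) := by
      ext j; simp only [Finset.mem_Ico, Finset.mem_insert]; omega
    rw [h1, h2, h3, Finset.sum_insert (by simp)]
    simp [add_comm]

theorem gsum_T (τ g0 : G) (b : Lam X) (m : ℤ) :
    kT τ (gsum τ g0 b m) - gsum τ g0 b m =
      Finsupp.single (g0 * τ ^ m) b - Finsupp.single g0 b := by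
  induction m using Int.induction_on with
  | zero => simp [gsum_zero]
  | succ i ih =>
    rw [gsum_succ, map_add, kT_single]
    have e : g0 * τ ^ (i : ℤ) * τ = g0 * τ ^ ((i : ℤ) + 1) := by
      rw [mul_assoc, ← zpow_add_one]
    rw [e]
    have : kT τ (gsum τ g0 b (i : ℤ)) = gsum τ g0 b (i : ℤ) + (Finsupp.single (g0 * τ ^ (i : ℤ)) b
      - Finsupp.single g0 b) := by rw [← ih]; abel
    rw [this]
    abel
  | pred i ih =>
    have h1 := gsum_succ τ g0 b (-(i : ℤ) - 1)
    rw [sub_add_cancel] at h1
    have h2 : gsum τ g0 b (-(i : ℤ) - 1) = gsum τ g0 b (-(i : ℤ)) -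
        Finsupp.single (g0 * τ ^ (-(i : ℤ) - 1)) b := by rw [h1]; abel
    rw [h2, map_sub, kT_single]
    have e : g0 * τ ^ (-(i : ℤ) - 1) * τ = g0 * τ ^ (-(i : ℤ)) := by
      rw [mul_assoc, ← zpow_add_one, sub_add_cancel]
    rw [e]
    have : kT τ (gsum τ g0 b (-(i : ℤ))) = gsum τ g0 b (-(i : ℤ)) +
      (Finsupp.single (g0 * τ ^ (-(i : ℤ))) b - Finsupp.single g0 b) := by rw [← ih]; abel
    rw [this]
    abel

theorem gsum_add (τ g0 : G) (b b' : Lam X) (m : ℤ) :
    gsum τ g0 (b + b') m = gsum τ g0 b m + gsum τ g0 b' m := by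
  simp only [gsum, Finsupp.single_add, Finset.sum_add_distrib]
  abel

theorem gsum_smul (τ g0 : G) (n : ℤ) (b : Lam X) (m : ℤ) :
    gsum τ g0 (n • b) m = n • gsum τ g0 b m := by
  simp only [gsum, ← Finsupp.smul_single, ← Finset.smul_sum, smul_sub]

theorem gsum_map (τ g0 : G) (θ : Lam X →ₗ[ℤ] Lam X) (b : Lam X) (m : ℤ) :
    Finsupp.mapRange.linearMap θ (gsum τ g0 b m) = gsum τ g0 (θ b) m := by
  simp only [gsum, map_sub, map_sum, Finsupp.mapRange.linearMap_apply, Finsupp.mapRange_single]

variable (t : X → G) (c : G → (X →₀ ℤ))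

/-- The contraction in the direction of a basis element. -/
noncomputable def kS (x : X) : KK G X →ₗ[ℤ] KK G X :=
  Finsupp.lsum ℤ fun g =>
    { toFun := fun b => gsum (t x) (g * t x ^ (-(c g x))) (ew x b) (c g x)
      map_add' := fun b b' => by rw [map_add, gsum_add]
      map_smul' := fun n b => by rw [map_smul, gsum_smul]; rfl }

/-- The projection in the direction of a basis element. -/
noncomputable def kE (x : X) : KK G X →ₗ[ℤ] KK G X :=
  Finsupp.lsum ℤ fun g =>
    (Finsupp.lsingle (g * t x ^ (-(c g x)))) ∘ₗ (LinearMap.id - ew x ∘ₗ ic x)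

theorem kS_single (x : X) (g : G) (b : Lam X) :
    kS t c x (Finsupp.single g b) = gsum (t x) (g * t x ^ (-(c g x))) (ew x b) (c g x) := by
  unfold kS
  rw [Finsupp.lsum_single]
  rfl

theorem kE_single (x : X) (g : G) (b : Lam X) :
    kE t c x (Finsupp.single g b) =
      Finsupp.single (g * t x ^ (-(c g x))) (b - ew x (ic x b)) := by
  simp [kE]

variable {t c}

theorem kS_kh (x : X) (k : KK G X) : kS t c x (kh x k) = 0 := by
  induction k using Finsupp.induction_linear with
  | zero => simp
  | add a b ha hb => rw [map_add, map_add, ha, hb, add_zero]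
  | single g b => rw [kh_single, kS_single, ew_ew]; simp [gsum]

theorem kS_kh_ne (x y : X) (k : KK G X) :
    kS t c x (kh y k) = - kh y (kS t c x k) := by
  induction k using Finsupp.induction_linear with
  | zero => simp
  | add a b ha hb => simp only [map_add, ha, hb, neg_add]
  | single g b =>
    rw [kh_single, kS_single, kS_single, kh, gsum_map, ew_comm]
    rw [show (-(ew y) (ew x b)) = (-1 : ℤ) • (ew y (ew x b)) by simp, gsum_smul]
    simp

theorem kS_kT (ht : ∀ x y, t x * t y = t y * t x)
    (hc : ∀ g x, c (g * t x) = c g + Finsupp.single x 1) {x y : X} (hxy : x ≠ y) (k : KK G X) :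
    kS t c x (kT (t y) k) = kT (t y) (kS t c x k) := by
  classical
  induction k using Finsupp.induction_linear with
  | zero => simp
  | add a b ha hb => simp only [map_add, ha, hb]
  | single g b =>
    have hcm : Commute (t x) (t y) := ht x y
    have hz : ∀ (j : ℤ), t y * t x ^ j = t x ^ j * t y := fun j =>
      (hcm.zpow_left j).eq.symm
    have h1 : c (g * t y) x = c g x := by
      rw [hc]
      simp [Ne.symm hxy]
    rw [kT_single, kS_single, kS_single, h1]
    simp only [gsum, map_sub, map_sum, kT_single]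
    congr 1
    · refine Finset.sum_congr rfl fun j _ => ?_
      congr 1
      rw [mul_assoc g, hz, ← mul_assoc g, mul_assoc _ (t y), hz, ← mul_assoc]
    · refine Finset.sum_congr rfl fun j _ => ?_
      congr 1
      rw [mul_assoc g, hz, ← mul_assoc g, mul_assoc _ (t y), hz, ← mul_assoc]

theorem kS_T_self (hc : ∀ g x, c (g * t x) = c g + Finsupp.single x 1) (x : X) (k : KK G X) :
    kS t c x (kT (t x) k) = kS t c x k + kh x k := by
  classical
  induction k using Finsupp.induction_linear with
  | zero => simp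
  | add a b ha hb => simp only [map_add, ha, hb]; abel
  | single g b =>
    have h1 : c (g * t x) x = c g x + 1 := by rw [hc]; simp
    have h2 : g * t x * t x ^ (-(c g x + 1)) = g * t x ^ (-(c g x)) := by
      rw [mul_assoc, ← zpow_one_add]
      congr 2
      ring
    rw [kT_single, kS_single, kS_single, h1, h2, gsum_succ, kh_single]
    congr 2
    rw [mul_assoc, ← zpow_add, neg_add_cancel, zpow_zero, mul_one]

theorem kd_gsum (ht : ∀ x y, t x * t y = t y * t x) (x : X) (g0 : G) (b : Lam X) (m : ℤ) :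
    kd t (gsum (t x) g0 (ew x b) m) =
      Finsupp.single (g0 * t x ^ m) b - Finsupp.single g0 b
        - kh x (kd t (gsum (t x) g0 b m)) := by
  have h := kd_kh t x (gsum (t x) g0 b m)
  rw [gsum_T] at h
  have e : kh x (gsum (t x) g0 b m) = gsum (t x) g0 (ew x b) m := gsum_map _ _ _ _ _
  rw [e] at h
  rw [← h]
  abel

/-- The homotopy formula for the contraction. -/
theorem kd_kS (ht : ∀ x y, t x * t y = t y * t x)
    (hc : ∀ g x, c (g * t x) = c g + Finsupp.single x 1) (x : X) (k : KK G X) :
    kd t (kS t c x k) + kS t c x (kd t k) = k - kE t c x k := by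
  classical
  induction k using kk_ind with
  | h1 g =>
    rw [kd_single_one, map_zero, add_zero, kS_single, kd_gsum ht, kE_single]
    have h1 : kd t (gsum (t x) (g * t x ^ (-(c g x))) 1 (c g x)) = 0 := by
      simp only [gsum, map_sub, map_sum, kd_single_one, Finset.sum_const_zero, sub_zero]
    rw [h1, map_zero, sub_zero, ic_one, map_zero, sub_zero, mul_assoc, ← zpow_add,
      neg_add_cancel, zpow_zero, mul_one]
  | h0 => simp
  | hadd a b ha hb =>
    simp only [map_add]
    have : kd t (kS t c x a) + kd t (kS t c x b) + (kS t c x (kd t a) + kS t c x (kd t b)) =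
      (kd t (kS t c x a) + kS t c x (kd t a)) + (kd t (kS t c x b) + kS t c x (kd t b)) := by abel
    rw [this, ha, hb]
    abel
  | hneg a ha =>
    simp only [map_neg]
    rw [← neg_add, ha]
    abel
  | hew y g a ha =>
    rw [← kh_single]
    generalize hk : (Finsupp.single g a : KK G X) = k at *
    have h1 := kd_kh t y k
    have h2 : kd t (kh y k) = kT (t y) k - k - kh y (kd t k) := by rw [← h1]; abel
    have h4 : kd t (kh y (kS t c x k)) =
        kT (t y) (kS t c x k) - kS t c x k - kh y (kd t (kS t c x k)) := by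
      rw [← kd_kh t y (kS t c x k)]; abel
    by_cases hxy : x = y
    · subst hxy
      rw [kS_kh, map_zero, zero_add, h2, map_sub, map_sub, kS_kh, sub_zero, kS_T_self hc]
      have h5 : kE t c x (kh x k) = 0 := by
        rw [← hk, kh_single, kE_single, ic_ew, if_pos rfl, map_sub, ew_ew, sub_zero, sub_self,
          Finsupp.single_zero]
      rw [h5]
      abel
    · rw [kS_kh_ne, map_neg, h4, h2, map_sub, map_sub, kS_kh_ne, kS_kT ht hc hxy]
      have h5 : kE t c x (kh y k) = kh y (kE t c x k) := by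
        rw [← hk, kh_single, kE_single, kE_single, kh_single, ic_ew, if_neg hxy, map_sub]
        congr 1
        rw [map_zero, zero_sub, sub_neg_eq_add, map_sub, ew_comm x y]
        abel
      rw [h5]
      have h6 : kh y (kd t (kS t c x k)) = kh y (k - kE t c x k) - kh y (kS t c x (kd t k)) := by
        rw [← ha, map_add]; abel
      rw [h6, map_sub]
      abel

theorem kS_mem {n : ℤ} (x : X) {k : KK G X} (hk : k ∈ kgr G X n) :
    kS t c x k ∈ kgr G X (n + 1) := by
  rw [← Finsupp.sum_single k, Finsupp.sum, map_sum]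
  refine Submodule.sum_mem _ fun g _ => ?_
  rw [kS_single]
  unfold gsum
  exact Submodule.sub_mem _
    (Submodule.sum_mem _ fun j _ => single_mem_kgr _ (ew_mem_gr x (hk g)))
    (Submodule.sum_mem _ fun j _ => single_mem_kgr _ (ew_mem_gr x (hk g)))

theorem kE_mem {n : ℤ} (x : X) {k : KK G X} (hk : k ∈ kgr G X n) :
    kE t c x k ∈ kgr G X n := by
  rw [← Finsupp.sum_single k, Finsupp.sum, map_sum]
  refine Submodule.sum_mem _ fun g _ => ?_
  rw [kE_single]
  refine single_mem_kgr _ (Submodule.sub_mem _ (hk g) ?_)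
  have := ew_mem_gr x (ic_mem_gr x (hk g))
  rwa [sub_add_cancel] at this

theorem ki_gsum (τ g0 : G) (y : X) (b : Lam X) (m : ℤ) :
    ki y (gsum τ g0 b m) = gsum τ g0 (ic y b) m := gsum_map _ _ _ _ _

theorem kS_mem_kY {Y : Set X} {x : X} (hx : x ∈ Y) {k : KK G X} (hk : k ∈ kY G Y) :
    kS t c x k ∈ kY G Y := by
  classical
  rw [mem_kY]
  intro y hy
  have hne : y ≠ x := fun e => hy (e ▸ hx)
  rw [← Finsupp.sum_single k, Finsupp.sum, map_sum, map_sum]
  refine Finset.sum_eq_zero fun g _ => ?_
  rw [kS_single, ki_gsum, ic_ew, if_neg hne, hk y hy g]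
  simp [gsum]

theorem kE_mem_kY {Y : Set X} {x : X} {k : KK G X} (hk : k ∈ kY G Y) :
    kE t c x k ∈ kY G Y := by
  classical
  rw [mem_kY]
  intro y hy
  rw [← Finsupp.sum_single k, Finsupp.sum, map_sum, map_sum]
  refine Finset.sum_eq_zero fun g _ => ?_
  rw [kE_single, ki_single, map_sub, ic_ew, ic_comm y x, hk y hy g]
  by_cases h : y = x
  · subst h
    rw [if_pos rfl, hk y hy g]
    simp
  · rw [if_neg h]
    simp

theorem ki_kE_self (x : X) (k : KK G X) : ki x (kE t c x k) = 0 := by
  classical
  induction k using Finsupp.induction_linear with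
  | zero => simp
  | add a b ha hb => simp only [map_add, ha, hb, add_zero]
  | single g b =>
    rw [kE_single, ki_single, map_sub, ic_ew, if_pos rfl, ic_ic, map_zero, sub_zero, sub_self,
      Finsupp.single_zero]

theorem ki_kE_of (x y : X) (k : KK G X) (h : ki y k = 0) : ki y (kE t c x k) = 0 := by
  have hk : k ∈ kY G ({y}ᶜ : Set X) := by
    rw [mem_kY]
    intro z hz
    have : z = y := by simpa using hz
    rw [this, h]
  exact (mem_kY.1 (kE_mem_kY (t := t) (c := c) (x := x) hk)) y (by simp)

/-- Exactness of the Koszul complex in non-zero degrees. -/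
theorem kexact (ht : ∀ x y, t x * t y = t y * t x)
    (hc : ∀ g x, c (g * t x) = c g + Finsupp.single x 1) {Y : Set X} {n : ℤ} (hn : n ≠ 0)
    {k : KK G X} (hk : k ∈ kgr G X n) (hY : k ∈ kY G Y) (hd : kd t k = 0) :
    ∃ k' ∈ kgr G X (n + 1), k' ∈ kY G Y ∧ kd t k' = k := by
  classical
  have key : ∀ (s : Finset X) (k : KK G X), k ∈ kgr G X n → k ∈ kY G Y → kd t k = 0 →
      (∀ x, x ∉ s → ki x k = 0) → ∃ k' ∈ kgr G X (n + 1), k' ∈ kY G Y ∧ kd t k' = k := by
    intro s
    induction s using Finset.induction_on with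
    | empty =>
      intro k hk _ _ hs
      refine ⟨0, Submodule.zero_mem _, Submodule.zero_mem _, ?_⟩
      rw [map_zero]
      symm
      ext g : 1
      exact eq_zero_of_ic hn (hk g) fun x => by
        have := DFunLike.congr_fun (hs x (by simp)) g
        simpa [ki] using this
    | insert x s hx ih =>
      intro k hk hY hd hs
      by_cases hxY : x ∈ Y
      · have h1 := kd_kS ht hc x k
        rw [hd, map_zero, add_zero] at h1
        have hdE : kd t (kE t c x k) = 0 := by
          have : kE t c x k = k - kd t (kS t c x k) := by rw [h1]; abel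
          rw [this, map_sub, hd, kd_kd t ht, sub_zero]
        obtain ⟨k1, h1a, h1b, h1c⟩ := ih (kE t c x k) (kE_mem x hk) (kE_mem_kY hY) hdE (by
          intro y hy
          by_cases hyx : y = x
          · rw [hyx, ki_kE_self]
          · exact ki_kE_of x y k (hs y (by simp [hyx, hy])))
        refine ⟨k1 + kS t c x k, Submodule.add_mem _ h1a (kS_mem x hk),
          Submodule.add_mem _ h1b (kS_mem_kY hxY hY), ?_⟩
        rw [map_add, h1c, h1]
        abel
      · exact ih k hk hY hd (by
          intro y hy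
          by_cases hyx : y = x
          · rw [hyx]; exact (mem_kY.1 hY) x hxY
          · exact hs y (by simp [hyx, hy]))
  refine key (k.support.biUnion fun g => (finite_ic (k g)).toFinset) k hk hY hd ?_
  intro x hx
  ext g : 1
  simp only [ki, Finsupp.mapRange.linearMap_apply, Finsupp.mapRange_apply, Finsupp.zero_apply]
  by_contra hcon
  apply hx
  rw [Finset.mem_biUnion]
  refine ⟨g, ?_, ?_⟩
  · rw [Finsupp.mem_support_iff]
    intro h
    rw [h, map_zero] at hcon
    exact hcon rfl
  · simpa using hcon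

/-- Elements of degree zero are killed by the differential. -/
theorem kd_deg_zero {k : KK G X} (hk : k ∈ kgr G X 0) : kd t k = 0 := by
  have := kd_mem t hk
  ext g : 1
  have h := this g
  rw [gr_neg (by norm_num)] at h
  simpa using h

/-- Exactness in degree zero. -/
theorem kexact0 {Y : Set X} {k : KK G X} (hk : k ∈ kgr G X 0)
    (h0 : Finsupp.mapDomain (QuotientGroup.mk (s := Subgroup.closure (t '' Y))) k = 0) :
    ∃ k' ∈ kgr G X 1, k' ∈ kY G Y ∧ kd t k' = k := by
  classical
  -- differences along the subgroup are boundaries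
  have hone : ∀ (b : Lam X), b ∈ gr X 0 → ∀ h ∈ Subgroup.closure (t '' Y), ∀ g : G,
      ∃ k' ∈ kgr G X 1, k' ∈ kY G Y ∧
        kd t k' = Finsupp.single (g * h) b - Finsupp.single g b := by
    intro b hb h hh
    induction hh using Subgroup.closure_induction with
    | mem h hm =>
      intro g
      obtain ⟨y, hy, rfl⟩ := hm
      refine ⟨Finsupp.single g (ew y b), ?_, ?_, ?_⟩
      · exact single_mem_kgr g (by simpa using ew_mem_gr y hb)
      · rw [mem_kY]
        intro z hz
        have hne : z ≠ y := fun e => hz (e ▸ hy)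
        obtain ⟨m, rfl⟩ := mem_gr_zero.1 hb
        rw [ki_single, ic_ew, if_neg hne, map_smul, ic_one, smul_zero, map_zero, sub_zero,
          Finsupp.single_zero]
      · rw [kd_single_ew, kd_deg_zero (single_mem_kgr g hb), map_zero, sub_zero]
    | one =>
      intro g
      exact ⟨0, Submodule.zero_mem _, Submodule.zero_mem _, by simp⟩
    | mul h1 h2 _ _ ih1 ih2 =>
      intro g
      obtain ⟨k1, a1, b1, c1⟩ := ih1 g
      obtain ⟨k2, a2, b2, c2⟩ := ih2 (g * h1)
      refine ⟨k1 + k2, Submodule.add_mem _ a1 a2, Submodule.add_mem _ b1 b2, ?_⟩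
      rw [map_add, c1, c2, mul_assoc]
      abel
    | inv h1 _ ih1 =>
      intro g
      obtain ⟨k1, a1, b1, c1⟩ := ih1 (g * h1⁻¹)
      refine ⟨-k1, Submodule.neg_mem _ a1, Submodule.neg_mem _ b1, ?_⟩
      rw [map_neg, c1, inv_mul_cancel_right]
      abel
  -- replace every group element by the chosen representative of its coset
  let H := Subgroup.closure (t '' Y)
  have hrep : ∀ g : G, ∃ h ∈ H, (QuotientGroup.mk (s := H) g).out = g * h := by
    intro g
    obtain ⟨h, hh⟩ := QuotientGroup.mk_out_eq_mul H g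
    exact ⟨h, h.2, hh⟩
  choose h hh1 hh2 using hrep
  have hk1 : ∀ g, ∃ k' ∈ kgr G X 1, k' ∈ kY G Y ∧
      kd t k' = Finsupp.single ((QuotientGroup.mk (s := H) g).out) (k g) -
        Finsupp.single g (k g) := by
    intro g
    obtain ⟨k', a1, b1, c1⟩ := hone (k g) (hk g) (h g) (hh1 g) g
    exact ⟨k', a1, b1, by rw [c1, hh2 g]⟩
  choose k1 a1 b1 c1 using hk1
  refine ⟨-∑ g ∈ k.support, k1 g, Submodule.neg_mem _ (Submodule.sum_mem _ fun g _ => a1 g),
    Submodule.neg_mem _ (Submodule.sum_mem _ fun g _ => b1 g), ?_⟩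
  rw [map_neg, map_sum]
  simp only [c1]
  rw [Finset.sum_sub_distrib]
  have e1 : ∑ g ∈ k.support, Finsupp.single g (k g) = k := Finsupp.sum_single k
  have e2 : ∑ g ∈ k.support, Finsupp.single ((QuotientGroup.mk (s := H) g).out) (k g) =
      Finsupp.mapDomain (fun q : G ⧸ H => q.out)
        (Finsupp.mapDomain (QuotientGroup.mk (s := H)) k) := by
    rw [← Finsupp.mapDomain_comp]
    rfl
  have h0' : Finsupp.mapDomain (QuotientGroup.mk (s := H)) k = 0 := h0
  rw [e1, e2, h0', Finsupp.mapDomain_zero]
  abel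

/-- Boundaries vanish in the coset space. -/
theorem mapDomain_kd {Y : Set X} {k : KK G X} (hk : k ∈ kgr G X 1) (hY : k ∈ kY G Y) :
    Finsupp.mapDomain (QuotientGroup.mk (s := Subgroup.closure (t '' Y))) (kd t k) = 0 := by
  classical
  rw [← Finsupp.sum_single k, Finsupp.sum, map_sum]
  have hadd : ∀ (s : Finset G) (F : G → KK G X),
      Finsupp.mapDomain (QuotientGroup.mk (s := Subgroup.closure (t '' Y))) (∑ g ∈ s, F g) =
        ∑ g ∈ s, Finsupp.mapDomain (QuotientGroup.mk (s := Subgroup.closure (t '' Y))) (F g) :=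
    fun s F => map_sum (Finsupp.mapDomain.addMonoidHom _) F s
  rw [hadd]
  refine Finset.sum_eq_zero fun g _ => ?_
  rw [kd_single, Finsupp.sum]
  have hadd2 : ∀ (s : Finset X) (F : X → KK G X),
      Finsupp.mapDomain (QuotientGroup.mk (s := Subgroup.closure (t '' Y))) (∑ g ∈ s, F g) =
        ∑ g ∈ s, Finsupp.mapDomain (QuotientGroup.mk (s := Subgroup.closure (t '' Y))) (F g) :=
    fun s F => map_sum (Finsupp.mapDomain.addMonoidHom _) F s
  rw [hadd2]
  refine Finset.sum_eq_zero fun x _ => ?_
  have hsub : ∀ u v : KK G X,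
      Finsupp.mapDomain (QuotientGroup.mk (s := Subgroup.closure (t '' Y))) (u - v) =
      Finsupp.mapDomain (QuotientGroup.mk (s := Subgroup.closure (t '' Y))) u -
      Finsupp.mapDomain (QuotientGroup.mk (s := Subgroup.closure (t '' Y))) v :=
    fun u v => map_sub (Finsupp.mapDomain.addMonoidHom _) u v
  rw [hsub, Finsupp.mapDomain_single, Finsupp.mapDomain_single]
  by_cases hx : x ∈ Y
  · have : (QuotientGroup.mk (s := Subgroup.closure (t '' Y)) (g * t x)) =
        QuotientGroup.mk (s := Subgroup.closure (t '' Y)) g := by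
      rw [eq_comm, QuotientGroup.eq]
      have := Subgroup.subset_closure (k := t '' Y) ⟨x, hx, rfl⟩
      simpa using this
    rw [this, sub_self]
  · have h0 : Del (k g) x = 0 := hY x hx g
    rw [h0]
    simp

end W3ab0ed
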