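import Pool.Agent.W_MP_3ab0ed_h44.Tot
import Pool.Agent.W_MP_3ab0ed_h44.KExact

/-!
Homology part of MP_3ab0ed_al.  The data obtained from the geometric part and the relation
sequence, the operators, the total complex and the complex of its coinvariants.
-/

namespace W3ab0ed

open Finsupp

set_option linter.unusedSectionVars false

section Defs

variable {κ G Q X I : Type} [Group G] [Group Q] [MulAction (FreeGroup κ) X]

/-- Right multiplication on the group ring of `Q` by the image of an element of the free group. -/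
noncomputable def RQ (φ : FreeGroup κ →* G) (π : G →* Q) (f : FreeGroup κ) :
    (Q →₀ ℤ) →ₗ[ℤ] (Q →₀ ℤ) :=
  Finsupp.lmapDomain ℤ ℤ fun q => q * π (φ f)

/-- The relation map. -/
noncomputable def relM (φ : FreeGroup κ →* G) (π : G →* Q) (a : I → FreeGroup κ) (p : ℕ) :
    (I →₀ (Q →₀ ℤ)) →ₗ[ℤ] (κ →₀ (Q →₀ ℤ)) :=
  Finsupp.lsum ℤ fun i => PP (RQ φ π) (a i ^ p)

/-- The right action of the free group on the exterior algebra. -/
noncomputable def bR (f : FreeGroup κ) : Lam X →ₗ[ℤ] Lam X := actL fun x => f⁻¹ • x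

/-- The right action of the free group on the Koszul module. -/
noncomputable def kR (φ : FreeGroup κ →* G) (f : FreeGroup κ) : KK G X →ₗ[ℤ] KK G X :=
  Finsupp.lsum ℤ fun g => Finsupp.lsingle (g * φ f) ∘ₗ bR f

/-- The data used in the computation of the homology of `G`. -/
structure Good (φ : FreeGroup κ →* G) (π : G →* Q) (t : X → G) (c : G → (X →₀ ℤ))
    (a : I → FreeGroup κ) (x0 : I → X) (p : ℕ) : Prop where
  prime : p.Prime
  odd : p ≠ 2
  phi_surj : Function.Surjective φ
  pi_surj : Function.Surjective π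
  tcomm : ∀ x y, t x * t y = t y * t x
  tconj : ∀ f x, φ f * t x * (φ f)⁻¹ = t (f • x)
  pker : π.ker = Subgroup.closure (Set.range t)
  act_triv : ∀ f (x : X), π (φ f) = 1 → f • x = x
  apow : ∀ i, φ (a i) ^ p = t (x0 i)
  afix : ∀ i, a i • x0 i = x0 i
  coord : ∀ g x, c (g * t x) = c g + Finsupp.single x 1
  exp : ∀ q : Q, q ^ p = 1
  ane : ∀ i, π (φ (a i)) ≠ 1
  orb : ∀ x, ∃ i, ∃ f : FreeGroup κ, x = f • x0 i
  orb_inj : ∀ i j, ∀ f : FreeGroup κ, f • x0 i = x0 j → i = j
  fix_unique : ∀ (f : FreeGroup κ) (x y : X), f • x = x → f • y = y → x = y ∨ π (φ f) = 1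
  stab : ∀ i, ∀ f : FreeGroup κ, f • x0 i = x0 i → ∃ k : ℕ, π (φ f) = π (φ (a i)) ^ k
  exact1 : ∀ u : κ →₀ (Q →₀ ℤ), del (RQ φ π) u = 0 → ∃ z, relM φ π a p z = u
  exact2 : ∀ z : I →₀ (Q →₀ ℤ), relM φ π a p z = 0 → ∀ i, ∃ y, RQ φ π (a i) y - y = z i

/-- The total differential over the group ring. -/
noncomputable def gd (φ : FreeGroup κ →* G) (t : X → G) (a : I → FreeGroup κ) (x0 : I → X)
    (p : ℕ) : Tot κ I (KK G X) →ₗ[ℤ] Tot κ I (KK G X) :=
  totd (kd t) (kR φ) (fun i => kh (x0 i)) a p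

/-- The grading of the total complex over the group ring. -/
noncomputable def ggr (G κ : Type) (x0 : I → X) (n : ℤ) : Submodule ℤ (Tot κ I (KK G X)) :=
  tgr κ (kgr G X) (fun i => kY G {x0 i}ᶜ) n

/-- The differential of the complex of coinvariants. -/
noncomputable def bd (a : I → FreeGroup κ) (x0 : I → X) (p : ℕ) :
    Tot κ I (Lam X) →ₗ[ℤ] Tot κ I (Lam X) :=
  totd 0 bR (fun i => ew (x0 i)) a p

/-- The grading of the complex of coinvariants. -/
noncomputable def bgr (κ : Type) (x0 : I → X) (n : ℤ) : Submodule ℤ (Tot κ I (Lam X)) :=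
  tgr κ (gr X) (fun i => LinearMap.ker (ic (x0 i))) n

end Defs

section Ops

variable {κ G Q X I : Type} [Group G] [Group Q] [MulAction (FreeGroup κ) X]

theorem bR_one (b : Lam X) : bR (1 : FreeGroup κ) b = b := by
  have : (fun x : X => (1 : FreeGroup κ)⁻¹ • x) = fun x => x := by
    ext x; simp
  unfold bR
  rw [this, actL_id]

theorem bR_mul (f g : FreeGroup κ) (b : Lam X) : bR (f * g) b = bR g (bR f b) := by
  unfold bR
  rw [actL_comp]
  congr 2
  ext x
  rw [mul_inv_rev, mul_smul]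

@[simp] theorem bR_lam_one (f : FreeGroup κ) : bR f (1 : Lam X) = 1 := actL_one _

theorem bR_ew (f : FreeGroup κ) (x : X) (b : Lam X) :
    bR f (ew x b) = ew (f⁻¹ • x) (bR f b) := actL_ew _ _ _

theorem bR_ic (f : FreeGroup κ) (x : X) (b : Lam X) :
    bR f (ic x b) = ic (f⁻¹ • x) (bR f b) :=
  actL_ic _ (MulAction.injective f⁻¹) _ _

theorem bR_mem {n : ℤ} (f : FreeGroup κ) {b : Lam X} (hb : b ∈ gr X n) : bR f b ∈ gr X n :=
  actL_mem_gr _ hb

theorem bR_triv {f : FreeGroup κ} (h : ∀ x : X, f • x = x) (b : Lam X) : bR f b = b := by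
  have : (fun x : X => f⁻¹ • x) = fun x => x := by
    ext x
    rw [inv_smul_eq_iff, h]
  unfold bR
  rw [this, actL_id]

theorem kR_single (φ : FreeGroup κ →* G) (f : FreeGroup κ) (g : G) (b : Lam X) :
    kR φ f (Finsupp.single g b) = Finsupp.single (g * φ f) (bR f b) := by
  simp [kR]

theorem kR_one (φ : FreeGroup κ →* G) (k : KK G X) : kR φ 1 k = k := by
  induction k using Finsupp.induction_linear with
  | zero => simp
  | add a b ha hb => rw [map_add, ha, hb]
  | single g b => rw [kR_single, bR_one, map_one, mul_one]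

theorem kR_mul (φ : FreeGroup κ →* G) (f g : FreeGroup κ) (k : KK G X) :
    kR φ (f * g) k = kR φ g (kR φ f k) := by
  induction k using Finsupp.induction_linear with
  | zero => simp
  | add a b ha hb => rw [map_add, map_add, map_add, ha, hb]
  | single h b => rw [kR_single, kR_single, kR_single, bR_mul, map_mul, mul_assoc]

theorem kR_kh (φ : FreeGroup κ →* G) (f : FreeGroup κ) (x : X) (k : KK G X) :
    kR φ f (kh x k) = kh (f⁻¹ • x) (kR φ f k) := by
  induction k using Finsupp.induction_linear with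
  | zero => simp
  | add a b ha hb => simp only [map_add, ha, hb]
  | single g b => rw [kh_single, kR_single, kR_single, kh_single, bR_ew]

theorem kR_ki (φ : FreeGroup κ →* G) (f : FreeGroup κ) (x : X) (k : KK G X) :
    kR φ f (ki x k) = ki (f⁻¹ • x) (kR φ f k) := by
  induction k using Finsupp.induction_linear with
  | zero => simp
  | add a b ha hb => simp only [map_add, ha, hb]
  | single g b => rw [ki_single, kR_single, kR_single, ki_single, bR_ic]

theorem kR_mem (φ : FreeGroup κ →* G) {n : ℤ} (f : FreeGroup κ) {k : KK G X}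
    (hk : k ∈ kgr G X n) : kR φ f k ∈ kgr G X n := by
  rw [← Finsupp.sum_single k, Finsupp.sum, map_sum]
  refine Submodule.sum_mem _ fun g _ => ?_
  rw [kR_single]
  exact single_mem_kgr _ (bR_mem f (hk g))

theorem kR_kT (φ : FreeGroup κ →* G) (t : X → G)
    (tconj : ∀ f x, φ f * t x * (φ f)⁻¹ = t (f • x))
    (f : FreeGroup κ) (x : X) (k : KK G X) :
    kR φ f (kT (t x) k) = kT (t (f⁻¹ • x)) (kR φ f k) := by
  induction k using Finsupp.induction_linear with
  | zero => simp
  | add a b ha hb => simp only [map_add, ha, hb]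
  | single g b =>
    rw [kT_single, kR_single, kR_single, kT_single]
    congr 1
    rw [← tconj f⁻¹ x, map_inv]
    group

theorem kd_kR (φ : FreeGroup κ →* G) (t : X → G)
    (tconj : ∀ f x, φ f * t x * (φ f)⁻¹ = t (f • x))
    (f : FreeGroup κ) (k : KK G X) : kd t (kR φ f k) = kR φ f (kd t k) := by
  induction k using kk_ind with
  | h1 g => rw [kR_single, bR_lam_one, kd_single_one, kd_single_one, map_zero]
  | h0 => simp
  | hadd a b ha hb => simp only [map_add, ha, hb]
  | hneg a ha => simp only [map_neg, ha]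
  | hew x g a ha =>
    rw [← kh_single, kR_kh]
    generalize (Finsupp.single g a : KK G X) = k at *
    have h1 := kd_kh t (f⁻¹ • x) (kR φ f k)
    have h2 := kd_kh t x k
    have h3 : kd t (kh (f⁻¹ • x) (kR φ f k)) =
        kT (t (f⁻¹ • x)) (kR φ f k) - kR φ f k - kh (f⁻¹ • x) (kd t (kR φ f k)) := by
      rw [← h1]; abel
    have h4 : kd t (kh x k) = kT (t x) k - k - kh x (kd t k) := by rw [← h2]; abel
    rw [h3, h4, map_sub, map_sub, kR_kh, kR_kT φ t tconj, ha]

theorem kR_kT_of (φ : FreeGroup κ →* G) {f : FreeGroup κ} (h : ∀ x : X, f • x = x) (k : KK G X) :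
    kR φ f k = kT (φ f) k := by
  induction k using Finsupp.induction_linear with
  | zero => simp
  | add a b ha hb => simp only [map_add, ha, hb]
  | single g b => rw [kR_single, kT_single, bR_triv h]

theorem kR_kL (φ : FreeGroup κ →* G) (f : FreeGroup κ) (g0 : G) (k : KK G X) :
    kR φ f (kL g0 k) = kL g0 (kR φ f k) := by
  induction k using Finsupp.induction_linear with
  | zero => simp
  | add a b ha hb => simp only [map_add, ha, hb]
  | single g b => rw [kL_single, kR_single, kR_single, kL_single, mul_assoc]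

theorem kh_kL (x : X) (g0 : G) (k : KK G X) : kh x (kL g0 k) = kL g0 (kh x k) := by
  induction k using Finsupp.induction_linear with
  | zero => simp
  | add a b ha hb => simp only [map_add, ha, hb]
  | single g b => rw [kL_single, kh_single, kh_single, kL_single]

variable {φ : FreeGroup κ →* G} {π : G →* Q} {t : X → G} {c : G → (X →₀ ℤ)}
  {a : I → FreeGroup κ} {x0 : I → X} {p : ℕ}

theorem Good.pi_t (H : Good φ π t c a x0 p) (x : X) : π (t x) = 1 := by
  have : t x ∈ π.ker := by
    rw [H.pker]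
    exact Subgroup.subset_closure ⟨x, rfl⟩
  exact this

theorem Good.apow_smul (H : Good φ π t c a x0 p) (i : I) (x : X) : (a i ^ p) • x = x :=
  H.act_triv _ _ (by rw [map_pow, H.apow, H.pi_t])

theorem Good.ainv (H : Good φ π t c a x0 p) (i : I) : (a i)⁻¹ • x0 i = x0 i := by
  rw [inv_smul_eq_iff, H.afix]

theorem Good.totOK_g (H : Good φ π t c a x0 p) :
    TotOK (kd t) (kR φ) (fun i => kh (x0 i)) a p where
  dd := kd_kd t H.tcomm
  R1 := kR_one φ
  Rm := kR_mul φ
  dR := kd_kR φ t H.tconj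
  Rh i k := by rw [kR_kh, H.ainv]
  dh i k := by rw [kd_kh, kR_kT_of φ (H.apow_smul i), map_pow, H.apow]

theorem Good.totOK_b (H : Good φ π t c a x0 p) :
    TotOK (0 : Lam X →ₗ[ℤ] Lam X) bR (fun i => ew (x0 i)) a p where
  dd _ := rfl
  R1 := bR_one
  Rm := bR_mul
  dR f x := by simp
  Rh i k := by rw [bR_ew, H.ainv]
  dh i k := by
    rw [bR_triv (H.apow_smul i)]
    simp

theorem Good.gd_gd (H : Good φ π t c a x0 p) (v : Tot κ I (KK G X)) :
    gd φ t a x0 p (gd φ t a x0 p v) = 0 := H.totOK_g.totd_totd v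

theorem Good.bd_bd (H : Good φ π t c a x0 p) (v : Tot κ I (Lam X)) :
    bd a x0 p (bd a x0 p v) = 0 := H.totOK_b.totd_totd v

theorem Good.totGr_g (H : Good φ π t c a x0 p) :
    TotGr (kd t) (kR φ) (fun i => kh (x0 i)) a (kgr G X) (fun i => kY G {x0 i}ᶜ) where
  dg n k hk := kd_mem t hk
  Rg n f k hk := kR_mem φ f hk
  hg n i k hk := kh_mem _ hk
  dfr i k hk := kd_mem_kY t hk
  Rfr i k hk := by
    rw [mem_kY] at hk ⊢
    intro y hy
    have hy' : y = x0 i := by simpa using hy
    rw [hy']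
    have := kR_ki φ (a i) (x0 i) k
    rw [hk (x0 i) (by simp), map_zero, H.ainv] at this
    exact this.symm

theorem Good.totGr_b (H : Good φ π t c a x0 p) :
    TotGr (0 : Lam X →ₗ[ℤ] Lam X) bR (fun i => ew (x0 i)) a (gr X)
      (fun i => LinearMap.ker (ic (x0 i))) where
  dg n b _ := Submodule.zero_mem _
  Rg n f b hb := bR_mem f hb
  hg n i b hb := ew_mem_gr _ hb
  dfr i b hb := Submodule.zero_mem _
  Rfr i b hb := by
    rw [LinearMap.mem_ker] at hb ⊢
    have := bR_ic (a i) (x0 i) b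
    rw [hb, map_zero, H.ainv] at this
    exact this.symm

theorem Good.gd_mem (H : Good φ π t c a x0 p) {n : ℤ} {v : Tot κ I (KK G X)}
    (hv : v ∈ ggr G κ x0 n) : gd φ t a x0 p v ∈ ggr G κ x0 (n - 1) := H.totGr_g.totd_mem p hv

theorem Good.bd_mem (H : Good φ π t c a x0 p) {n : ℤ} {v : Tot κ I (Lam X)}
    (hv : v ∈ bgr κ x0 n) : bd a x0 p v ∈ bgr κ x0 (n - 1) := H.totGr_b.totd_mem p hv

end Ops

/-- Torsion-freeness of the homology of the complex of coinvariants (to be proved). -/
def TFStatement : Prop :=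
  ∀ {κ G Q X I : Type} [Group G] [Group Q] [MulAction (FreeGroup κ) X]
    {φ : FreeGroup κ →* G} {π : G →* Q} {t : X → G} {c : G → (X →₀ ℤ)}
    {a : I → FreeGroup κ} {x0 : I → X} {p : ℕ}, Good φ π t c a x0 p →
    ∀ {n : ℤ}, 1 ≤ n → ∀ v ∈ bgr κ x0 n, bd a x0 p v = 0 → ∀ m : ℤ, m ≠ 0 →
      ∀ w ∈ bgr κ x0 (n + 1), bd a x0 p w = m • v →
      ∃ w' ∈ bgr κ x0 (n + 1), bd a x0 p w' = v

end W3ab0ed
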