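import Pool.Agent.W_MP_3ab0ed_h43.Final
import Pool.Agent.Burn.IMet

/-!
MP_3ab0ed_al.  Iteration: from the one-step theorem for a class of actions to the answer.
-/

namespace Burn

open W3ab0ed.Rel

/-- The output of one step for the action of a group `G` on `V`. -/
def StepOut (p : ℕ) (Cls : ∀ (G V : Type) [Group G] [MulAction G V], IMet V → Prop)
    (G V : Type) [Group G] [MulAction G V] (M : IMet V) : Prop :=
  ∃ (W : Type) (_ : MulAction G W) (c : W → G) (K : Subgroup G) (_ : K.Normal),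
    K = Subgroup.closure (Set.range fun v => c v ^ p) ∧
    (∀ v, MulAction.stabilizer G v = Subgroup.zpowers (c v)) ∧
    (∀ (g : G) v, c (g • v) = g * c v * g⁻¹) ∧
    (∃ T : Set W, (∀ v, ∃! t, t ∈ T ∧ ∃ k ∈ K, k • t = v) ∧
      Function.Injective (FreeGroup.lift (fun t : T => c t ^ p)) ∧
      Subgroup.closure ((fun v => c v ^ p) '' T) = K) ∧
    (∀ (g : G) (x : V), M.d x (g • x) ≤ 1 → g ^ p ∈ K) ∧
    ∃ (V1 : Type) (_ : MulAction (G ⧸ K) V1) (M1 : IMet V1) (q : V → V1), Cls (G ⧸ K) V1 M1 ∧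
      ∀ (g : G) (x : V) (k : ℤ), M.d x (g • x) ≤ 2 * k →
        M1.d (q x) ((QuotientGroup.mk g : G ⧸ K) • q x) ≤ k

/-- A class of actions is invariant under isomorphisms of groups. -/
def IsoInv (Cls : ∀ (G V : Type) [Group G] [MulAction G V], IMet V → Prop) : Prop :=
  ∀ (G G' V : Type) [Group G] [Group G'] [MulAction G V] (M : IMet V) (e : G' ≃* G),
    Cls G V M → @Cls G' V _ (MulAction.compHom V e.toMonoidHom) M

/-- The initial action. -/
def InitOut (Cls : ∀ (G V : Type) [Group G] [MulAction G V], IMet V → Prop) (κ : Type) : Prop :=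
  ∃ (V : Type) (_ : MulAction (FreeGroup κ) V) (M : IMet V) (x0 : V) (len : FreeGroup κ → ℕ),
    Cls (FreeGroup κ) V M ∧ ∀ f : FreeGroup κ, M.d x0 (f • x0) ≤ len f

section

variable (p : ℕ) (Cls : ∀ (G V : Type) [Group G] [MulAction G V], IMet V → Prop)

/-- The invariant of the iteration. -/
def ItP {κ : Type} (len : FreeGroup κ → ℕ) (n : ℕ) (N : Subgroup (FreeGroup κ)) : Prop :=
  ∃ (_ : N.Normal) (V : Type) (_ : MulAction (FreeGroup κ ⧸ N) V) (M : IMet V) (x0 : V),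
    Cls (FreeGroup κ ⧸ N) V M ∧
    (∀ (f : FreeGroup κ) (k : ℤ), (len f : ℤ) ≤ 2 ^ n * k →
      M.d x0 ((QuotientGroup.mk f : FreeGroup κ ⧸ N) • x0) ≤ k) ∧
    ∀ (m : ℕ) (f : FreeGroup κ), n = m + 1 → len f ≤ 2 ^ m → f ^ p ∈ N

variable {p Cls}

theorem ItP.zero (hiso : IsoInv Cls) {κ : Type} {V : Type} [MulAction (FreeGroup κ) V]
    {M : IMet V} {x0 : V} {len : FreeGroup κ → ℕ} (hc : Cls (FreeGroup κ) V M)
    (hl : ∀ f : FreeGroup κ, M.d x0 (f • x0) ≤ len f) : ItP p Cls len 0 ⊥ := by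
  let e : FreeGroup κ ⧸ (⊥ : Subgroup (FreeGroup κ)) ≃* FreeGroup κ :=
    QuotientGroup.quotientBot
  refine ⟨inferInstance, V, MulAction.compHom V e.toMonoidHom, M, x0,
    hiso _ _ V M e hc, ?_, ?_⟩
  · intro f k hk
    have h1 : (@HSMul.hSMul _ _ _ (@instHSMul _ _ (MulAction.compHom V e.toMonoidHom).toSMul)
        (QuotientGroup.mk f : FreeGroup κ ⧸ (⊥ : Subgroup (FreeGroup κ))) x0) = f • x0 := rfl
    rw [h1]
    have := hl f
    rw [pow_zero, one_mul] at hk
    omega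
  · intro m f h
    omega

theorem ItP.succ (hiso : IsoInv Cls)
    (hstep : ∀ (G V : Type) [Group G] [MulAction G V] (M : IMet V), Cls G V M →
      StepOut p Cls G V M)
    {κ : Type} {len : FreeGroup κ → ℕ} {n : ℕ} {N : Subgroup (FreeGroup κ)} (hN : N.Normal)
    (h : ItP p Cls len n N) :
    ∃ (N' : Subgroup (FreeGroup κ)) (_ : N'.Normal) (J : Type) (b : J → FreeGroup κ),
      StepFree N N' b p ∧ ItP p Cls len (n + 1) N' := by
  obtain ⟨_, V, _, M, x0, hc, hl, _⟩ := h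
  obtain ⟨W, _, c, K, hK, hKc, hstab, hequiv, hfree, hS1, V1, _, M1, q, hcls, hS2⟩ :=
    hstep _ V M hc
  have hKr : K = rotK c p := hKc
  have hA : ApexFree c p := ⟨hstab, hequiv, by rw [← hKr]; exact hfree⟩
  obtain ⟨N', hN', J, b, hmem, hsf⟩ := hA.stepFree
  refine ⟨N', hN', J, b, hsf, ?_⟩
  let ψ : FreeGroup κ →* (FreeGroup κ ⧸ N) ⧸ K :=
    (QuotientGroup.mk' K).comp (QuotientGroup.mk' N)
  have hψ : Function.Surjective ψ :=
    (QuotientGroup.mk'_surjective K).comp (QuotientGroup.mk'_surjective N)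
  have hker : N' = ψ.ker := by
    ext f
    rw [hmem, MonoidHom.mem_ker, ← hKr]
    exact (QuotientGroup.eq_one_iff (N := K) _).symm
  let e : FreeGroup κ ⧸ N' ≃* (FreeGroup κ ⧸ N) ⧸ K :=
    (QuotientGroup.quotientMulEquivOfEq hker).trans
      (QuotientGroup.quotientKerEquivOfSurjective ψ hψ)
  have he : ∀ f : FreeGroup κ, e (QuotientGroup.mk f) =
      QuotientGroup.mk (QuotientGroup.mk f : FreeGroup κ ⧸ N) := fun f => rfl
  refine ⟨hN', V1, MulAction.compHom V1 e.toMonoidHom, M1, q x0, hiso _ _ V1 M1 e hcls, ?_, ?_⟩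
  · intro f k hk
    have h1 : (@HSMul.hSMul _ _ _ (@instHSMul _ _ (MulAction.compHom V1 e.toMonoidHom).toSMul)
        (QuotientGroup.mk f : FreeGroup κ ⧸ N') (q x0)) =
        (QuotientGroup.mk (QuotientGroup.mk f : FreeGroup κ ⧸ N) :
          (FreeGroup κ ⧸ N) ⧸ K) • q x0 := rfl
    rw [h1]
    apply hS2
    apply hl
    rw [pow_succ, mul_assoc] at hk
    exact hk
  · intro m f hm hf
    have hm' : n = m := by omega
    subst hm'
    rw [hmem, ← hKr, QuotientGroup.mk_pow]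
    apply hS1 _ x0
    apply hl
    rw [mul_one]
    exact_mod_cast hf

/-- **Iteration.** -/
theorem answer_of_oneStep [hp : Fact p.Prime] (hodd : p ≠ 2) (hiso : IsoInv Cls)
    (hinit : ∀ κ : Type, InitOut Cls κ)
    (hstep : ∀ (G V : Type) [Group G] [MulAction G V] (M : IMet V), Cls G V M →
      StepOut p Cls G V M) : W3ab0ed.Laws.Answer := by
  refine answer_of_steps hodd fun κ => ?_
  obtain ⟨V, _, M, x0, len, hc, hl⟩ := hinit κ
  refine ⟨ItP p Cls len, ItP.zero hiso hc hl, fun n N hN h => ItP.succ hiso hstep hN h, ?_⟩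
  intro f
  refine ⟨len f + 1, fun N h => ?_⟩
  obtain ⟨_, _, _, _, _, _, _, h3⟩ := h
  exact h3 (len f) f rfl (Nat.lt_two_pow_self).le

end

end Burn
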