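import Pool.Agent.Burn.Class

/-!
# Global part of property (T) for a quotient (row 77, section 4.1)

Only hyperbolicity and the group action are used: for `m ≥ 1` either `g` is loxodromic with
constant `m`, or some point is moved by `g` by at most `b0` (any `b0 ≥ 100 δ`) and by `g ^ m` by at
most `15 δ`.
-/

universe u

namespace Burn
namespace IMet

variable {V : Type u} (M : IMet V) {δ : ℤ} {G : Type u} [Group G] [MulAction G V]

/-- the core of `lox`: a point of minimal displacement on its own segment -/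
theorem lox_core (hi : M.Inv G) (h : M.Hyp δ) (hδ : 1 ≤ δ) (g : G) (x₀ p : V)
    (hℓ : 4 * δ + 1 ≤ M.d x₀ (g • x₀))
    (hp1 : M.d x₀ p = M.d x₀ (g • x₀) / 2)
    (hp2 : M.d p (g • x₀) = M.d x₀ (g • x₀) - M.d x₀ (g • x₀) / 2)
    (hp6 : M.d x₀ (g • x₀) ≤ M.d p (g • p)) (x : V) (j : ℕ) :
    (j : ℤ) ≤ M.d x (g ^ j • x) := by
  set m := M.d x₀ (g • x₀) with hm
  have hp3 : M.d (g • x₀) (g • p) = m / 2 := by rw [hi, hp1]
  have hp4 : M.d (g • p) (g • g • x₀) = m - m / 2 := by rw [hi, hp2]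
  have hp5 : M.d (g • x₀) (g • g • x₀) = m := by rw [hi]
  have hE : M.E (g • x₀) x₀ (g • g • x₀) ≤ 2 * δ := by
    have e1 := M.hyp_E h (g • x₀) (g • p) x₀ p
    have e2 := M.hyp_E h (g • x₀) x₀ (g • g • x₀) (g • p)
    have s1 := M.symm x₀ p
    have s2 := M.symm x₀ (g • x₀)
    have s3 := M.symm p (g • x₀)
    have s4 := M.symm (g • p) (g • x₀)
    have s5 := M.symm (g • p) (g • g • x₀)
    have s6 := M.symm (g • x₀) (g • g • x₀)
    have s7 := M.symm p (g • p)
    have s8 := M.symm x₀ (g • p)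
    have s9 := M.symm x₀ (g • g • x₀)
    unfold E at *
    omega
  have hlen : ∀ b : ℕ, (1 : ℤ) * b - 0 ≤ M.d x₀ (g ^ b • x₀) := by
    intro b
    have hE' : ∀ i : ℕ, M.E (g ^ (i + 1) • x₀) (g ^ i • x₀) (g ^ (i + 2) • x₀) ≤ 2 * δ := by
      intro i
      have e1 : g ^ (i + 1) • x₀ = g ^ i • g • x₀ := by rw [pow_succ, mul_smul]
      have e2 : g ^ (i + 2) • x₀ = g ^ i • g • g • x₀ := by
        rw [pow_add, mul_smul, pow_two, mul_smul]
      rw [e1, e2, hi.E]
      exact hE
    have e := M.chain_length h (a := 2 * δ) (ℓ := m) (fun i => g ^ i • x₀) b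
      (fun i _ => hE' i)
      (fun i _ => by
        show m ≤ M.d (g ^ i • x₀) (g ^ (i + 1) • x₀)
        rw [pow_succ, mul_smul, hi]) (by omega) (by omega) (by omega)
    simp only [pow_zero, one_smul] at e
    have h0 : (0 : ℤ) ≤ b := Int.natCast_nonneg b
    nlinarith
  have e := M.stable' hi g x₀ 0 1 hlen x j
  simpa using e

/-- **GLOBAL**, section 4.1 of row 77 -/
theorem glob [Nonempty V] (hi : M.Inv G) (h : M.Hyp δ) (hδ : 1 ≤ δ) (g : G) (m : ℕ) (hm : 1 ≤ m)
    (b0 : ℤ) (hb0 : 100 * δ ≤ b0) :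
    M.Lox m g ∨ ∃ z, M.d z (g • z) ≤ b0 ∧ M.d z (g ^ m • z) ≤ 15 * δ := by
  classical
  by_cases hall : ∀ x, 4 * δ + 1 ≤ M.d x (g ^ m • x)
  · left
    intro x j
    have e1 := M.lox hi h hδ (g ^ m) (4 * δ + 1) le_rfl hall x j
    have e2 := M.disp_pow_le hi (g ^ j) x m
    have e3 : (g ^ m) ^ j = (g ^ j) ^ m := by rw [← pow_mul, ← pow_mul, mul_comm]
    rw [e3] at e1
    have h0 : (0 : ℤ) ≤ j := Int.natCast_nonneg j
    nlinarith
  · push Not at hall
    obtain ⟨y, hy⟩ := hall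
    have hne : ∃ k : ℕ, ∃ z, M.d z (g ^ m • z) ≤ 15 * δ ∧ M.d z (g • z) = k := by
      obtain ⟨k, hk⟩ := Int.eq_ofNat_of_zero_le (M.nonneg y (g • y))
      exact ⟨k, y, by omega, hk⟩
    obtain ⟨z, hz1, hz2⟩ := Nat.find_spec hne
    have hmin : ∀ p, M.d p (g ^ m • p) ≤ 15 * δ → M.d z (g • z) ≤ M.d p (g • p) := by
      intro p hp
      obtain ⟨k, hk⟩ := Int.eq_ofNat_of_zero_le (M.nonneg p (g • p))
      have := Nat.find_min' hne ⟨p, hp, hk⟩
      rw [hz2, hk]
      exact_mod_cast this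
    by_cases hβ : M.d z (g • z) ≤ b0
    · exact Or.inr ⟨z, hβ, hz1⟩
    · left
      push Not at hβ
      set β := M.d z (g • z) with hβd
      obtain ⟨p, hp1, hp2⟩ := M.geo z (g • z) (β / 2) (by omega) (by omega)
      rw [← hβd] at hp2
      have hdeep : M.Deep z (g • z) 0 (34 * δ + 1) p :=
        ⟨by unfold E; omega, by omega, by omega⟩
      have hgz : M.d (g • z) (g ^ m • g • z) ≤ 15 * δ := by
        have e : g ^ m • g • z = g • g ^ m • z := by
          rw [← mul_smul, ← mul_smul, ← pow_succ, ← pow_succ']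
        rw [e, hi]
        exact hz1
      by_cases hs : 12 * δ ≤ |M.sh z (g ^ m) p|
      · intro x j
        refine M.stable hi g p 0 m (fun b => ?_) x j
        have e := M.deep_infinite hi h hδ hz1 hgz hdeep (by omega) (by omega) hs b
        rw [pow_mul]
        omega
      · push Not at hs
        have hpf := M.sh_disp hi h (by omega) hz1 hgz hdeep (by omega) le_rfl
        have hpg := hmin p (by omega)
        intro x j
        have e := M.lox_core hi h hδ g z p (by omega) hp1 hp2 hpg x j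
        have h0 := M.nonneg x (g ^ j • x)
        have h1 : (1 : ℤ) ≤ m := by exact_mod_cast hm
        nlinarith

end IMet
end Burn
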