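import Pool.Agent.W_MP_3ab0ed_h44.Dat

/-!
Homology part of MP_3ab0ed_al.  Uniqueness of the presentation of a finite set as a point together
with a set invariant under the corresponding element.
-/

namespace W3ab0ed

open scoped Pointwise

set_option linter.unusedSectionVars false

section

variable {κ G Q X I : Type} [Group G] [Group Q] [MulAction (FreeGroup κ) X] [DecidableEq X]

/-- The action of the stabiliser of a finite set on the set. -/
@[reducible] def stabAct (ω : Finset X) : MulAction (MulAction.stabilizer (FreeGroup κ) ω) {x // x ∈ ω} where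
  smul g x := ⟨(g : FreeGroup κ) • x.1, by
    have h : (g : FreeGroup κ) • ω = ω := MulAction.mem_stabilizer_iff.1 g.2
    have h2 := Finset.smul_mem_smul_finset (a := (g : FreeGroup κ)) x.2
    rwa [h] at h2⟩
  one_smul x := Subtype.ext (one_smul _ _)
  mul_smul g h x := Subtype.ext (mul_smul _ _ _)

variable {φ : FreeGroup κ →* G} {π : G →* Q} {t : X → G} {c : G → (X →₀ ℤ)}
  {a : I → FreeGroup κ} {x0 : I → X} {p : ℕ}

theorem Good.pow_smul' (H : Good φ π t c a x0 p) (f : FreeGroup κ) (x : X) : f ^ p • x = x :=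
  H.act_triv _ _ (by rw [map_pow, map_pow, H.exp])

/-- The group of permutations induced on a finite set by its stabiliser has common fixed points
modulo `p`. -/
theorem Good.exists_fixed (H : Good φ π t c a x0 p) (ω : Finset X) (S : Subgroup (FreeGroup κ))
    (hS : ∀ f ∈ S, f • ω = ω) (hω : ¬ p ∣ ω.card) :
    ∃ y ∈ ω, ∀ f ∈ S, f • y = y := by
  classical
  have : Fact p.Prime := ⟨H.prime⟩
  let _ := stabAct (κ := κ) ω
  let Φ : S →* Equiv.Perm {x // x ∈ ω} :=
    (MulAction.toPermHom (MulAction.stabilizer (FreeGroup κ) ω) {x // x ∈ ω}).comp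
      (Subgroup.inclusion (fun f hf => MulAction.mem_stabilizer_iff.2 (hS f hf)))
  have hΦ : ∀ (f : S) (x : {x // x ∈ ω}), (Φ f x : X) = (f : FreeGroup κ) • (x : X) :=
    fun f x => rfl
  have hp : IsPGroup p Φ.range := by
    intro σ
    obtain ⟨f, hf⟩ := σ.2
    refine ⟨1, Subtype.ext ?_⟩
    rw [pow_one, Subgroup.coe_pow, ← hf, ← map_pow]
    ext x
    rw [hΦ, Subgroup.coe_pow, H.pow_smul']
    rfl
  have hcard := hp.card_modEq_card_fixedPoints {x // x ∈ ω}
  have h1 : Nat.card {x // x ∈ ω} = ω.card := by simp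
  rw [h1] at hcard
  have hne : Nat.card (MulAction.fixedPoints Φ.range {x // x ∈ ω}) ≠ 0 := by
    intro h0
    rw [h0] at hcard
    exact hω ((Nat.modEq_zero_iff_dvd).1 hcard)
  obtain ⟨⟨y, hy⟩⟩ := (Nat.card_ne_zero.1 hne).1
  refine ⟨y, y.2, fun f hf => ?_⟩
  have h2 := hy ⟨Φ ⟨f, hf⟩, ⟨⟨f, hf⟩, rfl⟩⟩
  have h3 := congrArg Subtype.val h2
  exact h3

theorem Good.eq_of_fixed (H : Good φ π t c a x0 p) {i : I} {y : X} (h : a i • y = y) :
    y = x0 i := by
  rcases H.fix_unique (a i) y (x0 i) h (H.afix i) with h | h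
  · exact h
  · exact absurd h (H.ane i)

theorem Good.dvd_card (H : Good φ π t c a x0 p) {i : I} {s : Finset X} (hs : x0 i ∉ s)
    (h1 : a i • s = s) : p ∣ s.card := by
  by_contra hcon
  have hS : ∀ f ∈ Subgroup.zpowers (a i), f • s = s := by
    intro f hf
    obtain ⟨k, rfl⟩ := Subgroup.mem_zpowers_iff.1 hf
    have h2 : a i ∈ MulAction.stabilizer (FreeGroup κ) s := MulAction.mem_stabilizer_iff.2 h1
    exact MulAction.mem_stabilizer_iff.1 (Subgroup.zpow_mem _ h2 k)
  obtain ⟨y, hy, hfix⟩ := H.exists_fixed s (Subgroup.zpowers (a i)) hS hcon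
  have := H.eq_of_fixed (hfix (a i) (Subgroup.mem_zpowers _))
  exact hs (this ▸ hy)

theorem fixed_unique (H : Good φ π t c a x0 p) {i j : I} {s s' : Finset X} (hs : x0 i ∉ s)
    (hs' : x0 j ∉ s') (h1 : a i • s = s) (h2 : a j • s' = s') (f : FreeGroup κ)
    (h : f • insert (x0 i) s = insert (x0 j) s') : i = j ∧ s = s' := by
  classical
  have hai : a i • insert (x0 i) s = insert (x0 i) s := by
    rw [Finset.smul_finset_insert, H.afix, h1]
  have haj : a j • insert (x0 j) s' = insert (x0 j) s' := by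
    rw [Finset.smul_finset_insert, H.afix, h2]
  have hcard : ¬ p ∣ (insert (x0 i) s).card := by
    rw [Finset.card_insert_of_notMem hs]
    intro hd
    have := (Nat.dvd_add_right (H.dvd_card hs h1)).1 hd
    exact H.prime.one_lt.ne' (Nat.dvd_one.1 this)
  obtain ⟨y, hy, hfix⟩ := H.exists_fixed (insert (x0 i) s)
    (MulAction.stabilizer (FreeGroup κ) (insert (x0 i) s))
    (fun f hf => MulAction.mem_stabilizer_iff.1 hf) hcard
  have hy1 : y = x0 i := H.eq_of_fixed (hfix _ (MulAction.mem_stabilizer_iff.2 hai))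
  have hy2 : (f⁻¹ * a j * f) • y = y := by
    apply hfix
    rw [MulAction.mem_stabilizer_iff, mul_smul, mul_smul, h, haj, ← h, inv_smul_smul]
  rw [mul_smul, mul_smul, inv_smul_eq_iff] at hy2
  have hy3 : f • y = x0 j := H.eq_of_fixed hy2
  rw [hy1] at hy3
  have hij : i = j := H.orb_inj i j f hy3
  subst hij
  refine ⟨rfl, ?_⟩
  obtain ⟨k, hk⟩ := H.stab i f hy3
  have hact : ∀ x : X, f • x = (a i) ^ k • x := by
    intro x
    have h3 : π (φ ((a i ^ k)⁻¹ * f)) = 1 := by
      rw [map_mul, map_mul, map_inv, map_inv, map_pow, map_pow, hk, inv_mul_cancel]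
    have h4 := H.act_triv _ x h3
    rw [mul_smul, inv_smul_eq_iff] at h4
    exact h4
  have hfs : f • s = s := by
    have h5 : f • s = (a i) ^ k • s := by
      ext x
      rw [Finset.mem_smul_finset, Finset.mem_smul_finset]
      constructor
      · rintro ⟨y, hy, rfl⟩
        exact ⟨y, hy, (hact y).symm⟩
      · rintro ⟨y, hy, rfl⟩
        exact ⟨y, hy, hact y⟩
    rw [h5]
    have h6 : a i ∈ MulAction.stabilizer (FreeGroup κ) s := MulAction.mem_stabilizer_iff.2 h1
    exact MulAction.mem_stabilizer_iff.1 (Subgroup.pow_mem _ h6 k)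
  rw [Finset.smul_finset_insert, hy3, hfs] at h
  rw [← Finset.erase_insert hs, h, Finset.erase_insert hs']

end

end W3ab0ed
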