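import Pool.Agent.W_MP_3ab0ed_h44.Dat

/-!
Homology part of MP_3ab0ed_al.  Projectivity of the graded pieces of the complex of coinvariants.
-/

namespace W3ab0ed

open Finsupp

set_option linter.unusedSectionVars false

variable {X : Type}

theorem range_iota (X : Type) : LinearMap.range (ExteriorAlgebra.ι ℤ (M := X →₀ ℤ)) =
    Submodule.span ℤ (Set.range fun x => ExteriorAlgebra.ι ℤ (Finsupp.single x (1 : ℤ))) := by
  have h : (⊤ : Submodule ℤ (X →₀ ℤ)) = Submodule.span ℤ (Set.range fun x =>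
      Finsupp.single x (1 : ℤ)) := by
    rw [eq_comm, eq_top_iff]
    intro f _
    induction f using Finsupp.induction_linear with
    | zero => exact Submodule.zero_mem _
    | add f g hf hg => exact Submodule.add_mem _ (hf trivial) (hg trivial)
    | single x n =>
      have : (Finsupp.single x n : X →₀ ℤ) = n • Finsupp.single x 1 := by simp
      rw [this]
      exact Submodule.smul_mem _ _ (Submodule.subset_span ⟨x, rfl⟩)
  rw [← Submodule.map_top, h, Submodule.map_span, ← Set.range_comp]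
  rfl

theorem grN_eq (X : Type) (n : ℕ) : grN X n = ⋀[ℤ]^n (X →₀ ℤ) := by
  induction n with
  | zero =>
    change Submodule.span ℤ {1} = (LinearMap.range _) ^ 0
    rw [pow_zero]
    exact Submodule.one_eq_span.symm
  | succ n ih =>
    change Submodule.span ℤ _ = (LinearMap.range (ExteriorAlgebra.ι ℤ (M := X →₀ ℤ))) ^ (n + 1)
    rw [pow_succ']
    have ih' : (LinearMap.range (ExteriorAlgebra.ι ℤ (M := X →₀ ℤ))) ^ n = grN X n := ih.symm
    rw [ih', range_iota, ← Submodule.span_eq (grN X n), Submodule.span_mul_span]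
    congr 1
    ext b
    constructor
    · rintro ⟨x, a, ha, rfl⟩
      exact ⟨_, ⟨x, rfl⟩, a, by simpa using ha, rfl⟩
    · rintro ⟨_, ⟨x, rfl⟩, a, ha, rfl⟩
      exact ⟨x, a, by simpa using ha, rfl⟩

/-- The projection onto a graded piece. -/
theorem exists_proj (X : Type) (n : ℤ) : ∃ P : Lam X →ₗ[ℤ] Lam X,
    (∀ b, P b ∈ gr X n) ∧ ∀ b ∈ gr X n, P b = b := by
  rcases lt_or_ge n 0 with hn | hn
  · refine ⟨0, fun b => Submodule.zero_mem _, fun b hb => ?_⟩
    rw [gr_neg hn] at hb
    simpa using hb.symm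
  · obtain ⟨m, rfl⟩ := Int.eq_ofNat_of_zero_le hn
    rw [gr_nat, grN_eq]
    refine ⟨GradedAlgebra.proj (fun i : ℕ => ⋀[ℤ]^i (X →₀ ℤ)) m, fun b => ?_, fun b hb => ?_⟩
    · rw [GradedAlgebra.proj_apply]
      exact SetLike.coe_mem _
    · rw [GradedAlgebra.proj_apply]
      exact DirectSum.decompose_of_mem_same _ hb

/-- The projection onto the part of a graded piece killed by a contraction. -/
theorem exists_proj' (x : X) (n : ℤ) : ∃ P : Lam X →ₗ[ℤ] Lam X,
    (∀ b, P b ∈ gr X n ⊓ LinearMap.ker (ic x)) ∧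
      ∀ b ∈ gr X n ⊓ LinearMap.ker (ic x), P b = b := by
  classical
  obtain ⟨P, h1, h2⟩ := exists_proj X n
  refine ⟨(ic x ∘ₗ ew x) ∘ₗ P, fun b => ⟨?_, ?_⟩, fun b hb => ?_⟩
  · have := ic_mem_gr x (ew_mem_gr x (h1 b))
    rwa [add_sub_cancel_right] at this
  · exact LinearMap.mem_ker.2 (ic_ic _ _)
  · have h3 : ic x b = 0 := hb.2
    simp only [LinearMap.comp_apply]
    rw [h2 b hb.1, ic_ew, if_pos rfl, h3, map_zero, sub_zero]

variable {κ I : Type}

/-- The graded pieces of the complex of coinvariants are projective. -/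
instance bgr_projective (x0 : I → X) (n : ℤ) : Module.Projective ℤ (bgr κ x0 n) := by
  classical
  obtain ⟨P1, h1, h1'⟩ := exists_proj X n
  obtain ⟨P2, h2, h2'⟩ := exists_proj X (n - 1)
  choose P3 h3 h3' using fun i => exists_proj' (x0 i) (n - 2)
  choose P4 h4 h4' using fun i => exists_proj' (x0 i) (n - 3)
  let F : (I →₀ (Lam X × Lam X)) →ₗ[ℤ] (I →₀ (Lam X × Lam X)) :=
    Finsupp.lsum ℤ fun i => Finsupp.lsingle i ∘ₗ (P3 i).prodMap (P4 i)
  have hF : ∀ w i, F w i = (P3 i (w i).1, P4 i (w i).2) := by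
    intro w i
    induction w using Finsupp.induction_linear with
    | zero =>
      simp
      rfl
    | add u v hu hv =>
      rw [map_add, Finsupp.add_apply, hu, hv, Finsupp.add_apply]
      simp
    | single j w =>
      have e : F (Finsupp.single j w) = Finsupp.single j (P3 j w.1, P4 j w.2) := by
        simp [F]
      rw [e]
      by_cases h : j = i
      · subst h
        simp
      · rw [Finsupp.single_eq_of_ne (Ne.symm h), Finsupp.single_eq_of_ne (Ne.symm h)]
        simp
        rfl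
  let P : Tot κ I (Lam X) →ₗ[ℤ] Tot κ I (Lam X) :=
    P1.prodMap ((Finsupp.mapRange.linearMap P2).prodMap F)
  have hP : ∀ v, P v ∈ bgr κ x0 n := by
    intro v
    refine ⟨h1 _, fun s => ?_, fun i => ?_⟩
    · exact h2 _
    · change (F v.2.2 i).1 ∈ _ ∧ (F v.2.2 i).2 ∈ _
      rw [hF]
      exact ⟨h3 i _, h4 i _⟩
  refine Module.Projective.of_split (R := ℤ) (M := Tot κ I (Lam X)) (bgr κ x0 n).subtype
    (P.codRestrict _ hP) ?_
  ext v : 1
  apply Subtype.ext
  obtain ⟨v, hv1, hv2, hv3⟩ := v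
  refine Prod.ext ?_ (Prod.ext ?_ ?_)
  · exact h1' _ hv1
  · ext s : 1
    exact h2' _ (hv2 s)
  · ext i : 1
    change F v.2.2 i = v.2.2 i
    rw [hF]
    exact Prod.ext (h3' i _ (hv3 i).1) (h4' i _ (hv3 i).2)

end W3ab0ed
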