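import Pool.Agent.W_MP_3ab0ed_h44.TotExact
import Pool.Agent.W_MP_3ab0ed_h44.GrFree
import Pool.Agent.W_MP_3ab0ed_h30.Link

/-!
Homology part of MP_3ab0ed_al.  Assembly: the total complex as a resolution, and torsion-freeness
of group homology.
-/

namespace W3ab0ed

open Finsupp

set_option linter.unusedSectionVars false

variable {κ G Q X I : Type} [Group G] [Group Q] [MulAction (FreeGroup κ) X]

/-- From functions on the group with values in the coinvariants to the total complex. -/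
noncomputable def toTot (G : Type) (x0 : I → X) (n : ℤ) :
    (G →₀ bgr κ x0 n) →ₗ[ℤ] Tot κ I (KK G X) :=
  Finsupp.lsum ℤ fun g => totMap (Finsupp.lsingle g) ∘ₗ (bgr κ x0 n).subtype

theorem toTot_single (x0 : I → X) (n : ℤ) (g : G) (v : bgr κ x0 n) :
    toTot G x0 n (Finsupp.single g v) = totMap (Finsupp.lsingle g) (v : Tot κ I (Lam X)) := by
  simp [toTot]

theorem lapply_toTot (x0 : I → X) (n : ℤ) (g : G) (z : G →₀ bgr κ x0 n) :
    totMap (Finsupp.lapply g) (toTot G x0 n z) = (z g : Tot κ I (Lam X)) := by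
  classical
  induction z using Finsupp.induction_linear with
  | zero => simp
  | add a b ha hb => rw [map_add, map_add, ha, hb, Finsupp.add_apply, Submodule.coe_add]
  | single g' v =>
    rw [toTot_single, totMap_comp]
    by_cases h : g' = g
    · subst h
      have : (Finsupp.lapply g' : (G →₀ Lam X) →ₗ[ℤ] Lam X) ∘ₗ Finsupp.lsingle g' =
          LinearMap.id := by
        ext b
        simp
      rw [this, totMap_id, Finsupp.single_eq_same]
    · have : (Finsupp.lapply g : (G →₀ Lam X) →ₗ[ℤ] Lam X) ∘ₗ Finsupp.lsingle g' = 0 := by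
        ext b
        simp [Finsupp.single_eq_of_ne (Ne.symm h)]
      rw [this, Finsupp.single_eq_of_ne (Ne.symm h)]
      refine Prod.ext rfl (Prod.ext ?_ ?_)
      · ext s
        simp [totMap]
      · ext s
        · simp [totMap]
        · simp [totMap]

theorem toTot_injective (G : Type) [Group G] (x0 : I → X) (n : ℤ) :
    Function.Injective (toTot (κ := κ) G x0 n) := by
  intro z w h
  ext g : 1
  apply Subtype.ext
  rw [← lapply_toTot, ← lapply_toTot, h]

theorem lsingle_mem (x0 : I → X) {n : ℤ} (g : G) {v : Tot κ I (Lam X)} (hv : v ∈ bgr κ x0 n) :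
    totMap (Finsupp.lsingle g) v ∈ ggr G κ x0 n := by
  classical
  obtain ⟨h1, h2, h3⟩ := hv
  have hY : ∀ i (b : Lam X), ic (x0 i) b = 0 →
      (Finsupp.single g b : KK G X) ∈ kY G ({x0 i}ᶜ : Set X) := by
    intro i b hb
    rw [mem_kY]
    intro y hy
    have hy' : y = x0 i := by simpa using hy
    rw [hy', ki_single, hb, Finsupp.single_zero]
  refine ⟨single_mem_kgr g h1, fun s => single_mem_kgr g (h2 s), fun i =>
    ⟨⟨single_mem_kgr g (h3 i).1.1, hY i _ (h3 i).1.2⟩,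
      ⟨single_mem_kgr g (h3 i).2.1, hY i _ (h3 i).2.2⟩⟩⟩

theorem toTot_mem (x0 : I → X) (n : ℤ) (z : G →₀ bgr κ x0 n) :
    toTot G x0 n z ∈ ggr G κ x0 n := by
  rw [← Finsupp.sum_single z, Finsupp.sum, map_sum]
  refine Submodule.sum_mem _ fun g _ => ?_
  rw [toTot_single]
  exact lsingle_mem x0 g (z g).2

theorem lapply_mem (x0 : I → X) {n : ℤ} (g : G) {v : Tot κ I (KK G X)} (hv : v ∈ ggr G κ x0 n) :
    totMap (Finsupp.lapply g) v ∈ bgr κ x0 n := by
  obtain ⟨h1, h2, h3⟩ := hv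
  refine ⟨h1 g, fun s => h2 s g, fun i => ⟨⟨(h3 i).1.1 g, ?_⟩, ⟨(h3 i).2.1 g, ?_⟩⟩⟩
  · exact (h3 i).1.2 (x0 i) (by simp) g
  · exact (h3 i).2.2 (x0 i) (by simp) g

theorem toTot_surj (x0 : I → X) (n : ℤ) {v : Tot κ I (KK G X)} (hv : v ∈ ggr G κ x0 n) :
    ∃ z, toTot G x0 n z = v := by
  classical
  let S : Finset G := v.1.support ∪ (v.2.1.support.biUnion fun s => (v.2.1 s).support) ∪
    (v.2.2.support.biUnion fun i => (v.2.2 i).1.support ∪ (v.2.2 i).2.support)
  refine ⟨∑ g ∈ S, Finsupp.single g ⟨totMap (Finsupp.lapply g) v, lapply_mem x0 g hv⟩, ?_⟩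
  rw [map_sum]
  simp only [toTot_single, totMap_comp]
  have key : ∀ k : KK G X, k.support ⊆ S → ∑ g ∈ S, Finsupp.single g (k g) = k := by
    intro k hk
    have h1 : ∑ g ∈ S, Finsupp.single g (k g) = k.sum Finsupp.single :=
      (Finsupp.sum_of_support_subset k hk _ (by simp)).symm
    rw [h1, Finsupp.sum_single]
  obtain ⟨k, u, w⟩ := v
  have hfst : ∀ (F : G → Tot κ I (KK G X)), (∑ g ∈ S, F g).1 = ∑ g ∈ S, (F g).1 :=
    fun F => map_sum (AddMonoidHom.fst _ _) F S
  have hsnd1 : ∀ (F : G → Tot κ I (KK G X)) (s : κ),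
      (∑ g ∈ S, F g).2.1 s = ∑ g ∈ S, (F g).2.1 s := fun F s =>
    map_sum ((Finsupp.applyAddHom s).comp ((AddMonoidHom.fst _ _).comp (AddMonoidHom.snd _ _)))
      F S
  have hsnd2 : ∀ (F : G → Tot κ I (KK G X)) (i : I),
      (∑ g ∈ S, F g).2.2 i = ∑ g ∈ S, (F g).2.2 i := fun F i =>
    map_sum ((Finsupp.applyAddHom i).comp ((AddMonoidHom.snd _ _).comp (AddMonoidHom.snd _ _)))
      F S
  refine Prod.ext ?_ (Prod.ext ?_ ?_)
  · rw [hfst]
    exact key k (fun g hg => Finset.mem_union_left _ (Finset.mem_union_left _ hg))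
  · ext s : 1
    rw [hsnd1]
    by_cases hs : s ∈ u.support
    · exact key (u s) (fun g hg => Finset.mem_union_left _ (Finset.mem_union_right _
        (Finset.mem_biUnion.2 ⟨s, hs, hg⟩)))
    · have hs0 : u s = 0 := Finsupp.notMem_support_iff.1 hs
      refine Eq.trans (key (u s) (by rw [hs0]; simp)) rfl
  · ext i : 1
    rw [hsnd2]
    have hw : (w i).1.support ⊆ S ∧ (w i).2.support ⊆ S := by
      by_cases hi : i ∈ w.support
      · exact ⟨fun g hg => Finset.mem_union_right _ (Finset.mem_biUnion.2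
          ⟨i, hi, Finset.mem_union_left _ hg⟩), fun g hg => Finset.mem_union_right _
          (Finset.mem_biUnion.2 ⟨i, hi, Finset.mem_union_right _ hg⟩)⟩
      · have hi0 : w i = 0 := Finsupp.notMem_support_iff.1 hi
        rw [hi0]
        simp
    have hf2 : ∀ (F : G → KK G X × KK G X), (∑ g ∈ S, F g) = (∑ g ∈ S, (F g).1,
      ∑ g ∈ S, (F g).2) := fun F => Prod.ext (map_sum (AddMonoidHom.fst _ _) F S)
        (map_sum (AddMonoidHom.snd _ _) F S)
    rw [hf2]
    exact Prod.ext (key (w i).1 hw.1) (key (w i).2 hw.2)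

/-- The identification of the graded pieces. -/
noncomputable def EE (G : Type) [Group G] (x0 : I → X) (n : ℤ) :
    (G →₀ bgr κ x0 n) ≃ₗ[ℤ] ggr G κ x0 n :=
  LinearEquiv.ofBijective ((toTot G x0 n).codRestrict _ (toTot_mem x0 n))
    ⟨fun z w h => toTot_injective G x0 n (congrArg Subtype.val h), fun v => by
      obtain ⟨z, hz⟩ := toTot_surj x0 n v.2
      exact ⟨z, Subtype.ext hz⟩⟩

theorem EE_coe (x0 : I → X) (n : ℤ) (z : G →₀ bgr κ x0 n) :
    (EE G x0 n z : Tot κ I (KK G X)) = toTot G x0 n z := rfl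

theorem toTot_EE_symm (x0 : I → X) (n : ℤ) (v : ggr G κ x0 n) :
    toTot G x0 n ((EE G x0 n).symm v) = v := by
  rw [← EE_coe, LinearEquiv.apply_symm_apply]

theorem toTot_mapDomain (x0 : I → X) (n : ℤ) (h : G) (z : G →₀ bgr κ x0 n) :
    toTot G x0 n (Finsupp.mapDomain (h * ·) z) = totMap (kL h) (toTot G x0 n z) := by
  induction z using Finsupp.induction_linear with
  | zero => simp
  | add a b ha hb => rw [Finsupp.mapDomain_add, map_add, map_add, map_add, ha, hb]
  | single g v =>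
    rw [Finsupp.mapDomain_single, toTot_single, toTot_single, totMap_comp]
    have e : (Finsupp.lsingle (h * g) : Lam X →ₗ[ℤ] KK G X) = kL h ∘ₗ Finsupp.lsingle g := by
      refine LinearMap.ext fun b => ?_
      rw [LinearMap.comp_apply, Finsupp.lsingle_apply, Finsupp.lsingle_apply, kL_single]
    rw [e]

/-- The sum over the group. -/
noncomputable def kσ : KK G X →ₗ[ℤ] Lam X := Finsupp.lsum ℤ fun _ => LinearMap.id

theorem kσ_single (g : G) (b : Lam X) : kσ (Finsupp.single g b) = b := by simp [kσ]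

theorem kσ_kd (t : X → G) (k : KK G X) : kσ (kd t k) = 0 := by
  induction k using Finsupp.induction_linear with
  | zero => simp
  | add a b ha hb => rw [map_add, map_add, ha, hb, add_zero]
  | single g b =>
    rw [kd_single, Finsupp.sum, map_sum]
    refine Finset.sum_eq_zero fun x _ => ?_
    rw [map_sub, kσ_single, kσ_single, sub_self]

theorem kσ_kR (φ : FreeGroup κ →* G) (f : FreeGroup κ) (k : KK G X) :
    kσ (kR φ f k) = bR f (kσ k) := by
  induction k using Finsupp.induction_linear with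
  | zero => simp
  | add a b ha hb => simp only [map_add, ha, hb]
  | single g b => rw [kR_single, kσ_single, kσ_single]

theorem kσ_kh (x : X) (k : KK G X) : kσ (kh x k) = ew x (kσ k) := by
  induction k using Finsupp.induction_linear with
  | zero => simp
  | add a b ha hb => simp only [map_add, ha, hb]
  | single g b => rw [kh_single, kσ_single, kσ_single]

theorem kσ_gd (φ : FreeGroup κ →* G) (t : X → G) (a : I → FreeGroup κ) (x0 : I → X) (p : ℕ)
    (v : Tot κ I (KK G X)) : totMap kσ (gd φ t a x0 p v) = bd a x0 p (totMap kσ v) :=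
  totd_nat a p kσ (kσ_kd t) (kσ_kR φ) (fun i k => kσ_kh (x0 i) k) v

theorem kL_gd (φ : FreeGroup κ →* G) (t : X → G) (a : I → FreeGroup κ) (x0 : I → X) (p : ℕ)
    (h : G) (v : Tot κ I (KK G X)) :
    totMap (kL h) (gd φ t a x0 p v) = gd φ t a x0 p (totMap (kL h) v) :=
  totd_nat a p (kL h) (fun k => (kd_kL t h k).symm) (fun f k => (kR_kL φ f h k).symm)
    (fun i k => (kh_kL (x0 i) h k).symm) v

theorem kσ_toTot (x0 : I → X) (n : ℤ) (z : G →₀ bgr κ x0 n) :
    totMap kσ (toTot G x0 n z) = ((Lnk.Res.tot ℤ z : bgr κ x0 n) : Tot κ I (Lam X)) := by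
  induction z using Finsupp.induction_linear with
  | zero => simp
  | add a b ha hb => rw [map_add, map_add, map_add, ha, hb, Submodule.coe_add]
  | single g v =>
    rw [toTot_single, totMap_comp, Lnk.Res.tot_single]
    have : (kσ : KK G X →ₗ[ℤ] Lam X) ∘ₗ Finsupp.lsingle g = LinearMap.id := by
      refine LinearMap.ext fun b => ?_
      rw [LinearMap.comp_apply, Finsupp.lsingle_apply, kσ_single, LinearMap.id_apply]
    rw [this, totMap_id]

variable {φ : FreeGroup κ →* G} {π : G →* Q} {t : X → G} {c : G → (X →₀ ℤ)}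
  {a : I → FreeGroup κ} {x0 : I → X} {p : ℕ}

/-- The total differential on graded pieces. -/
noncomputable def Good.gdn (H : Good φ π t c a x0 p) (n : ℕ) :
    ggr G κ x0 ((n + 1 : ℕ) : ℤ) →ₗ[ℤ] ggr G κ x0 (n : ℤ) :=
  (gd φ t a x0 p).restrict (fun v hv => by
    have := H.gd_mem hv
    rw [Nat.cast_add, Nat.cast_one, add_sub_cancel_right] at this
    exact this)

theorem Good.gdn_coe (H : Good φ π t c a x0 p) (n : ℕ) (v : ggr G κ x0 ((n + 1 : ℕ) : ℤ)) :
    (H.gdn n v : Tot κ I (KK G X)) = gd φ t a x0 p v := rfl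

/-- The differential of the resolution. -/
noncomputable def Good.rd (H : Good φ π t c a x0 p) (n : ℕ) :
    (G →₀ bgr κ x0 ((n + 1 : ℕ) : ℤ)) →ₗ[ℤ] (G →₀ bgr κ x0 (n : ℤ)) :=
  (EE G x0 (n : ℤ)).symm.toLinearMap ∘ₗ H.gdn n ∘ₗ (EE G x0 ((n + 1 : ℕ) : ℤ)).toLinearMap

theorem Good.toTot_rd (H : Good φ π t c a x0 p) (n : ℕ)
    (z : G →₀ bgr κ x0 ((n + 1 : ℕ) : ℤ)) :
    toTot G x0 (n : ℤ) (H.rd n z) = gd φ t a x0 p (toTot G x0 ((n + 1 : ℕ) : ℤ) z) := by
  unfold Good.rd
  rw [LinearMap.comp_apply, LinearMap.comp_apply, LinearEquiv.coe_coe, LinearEquiv.coe_coe,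
    toTot_EE_symm, H.gdn_coe, EE_coe]

/-- The augmentation of the total complex. -/
noncomputable def gaug (κ I X : Type) (π : G →* Q) : Tot κ I (KK G X) →ₗ[ℤ] ℤ :=
  (Finsupp.lsum ℤ fun _ : Q => LinearMap.id) ∘ₗ kq π ∘ₗ LinearMap.fst ℤ _ _

theorem gaug_apply (π : G →* Q) (v : Tot κ I (KK G X)) :
    gaug κ I X π v = (kq π v.1).sum fun _ m => m := by
  simp [gaug]
  rfl

theorem sum_del_RQ (φ : FreeGroup κ →* G) (π : G →* Q) (u : κ →₀ (Q →₀ ℤ)) :
    (del (RQ φ π) u).sum (fun _ m => m) = 0 := by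
  induction u using Finsupp.induction_linear with
  | zero => simp
  | add a b ha hb => rw [map_add, Finsupp.sum_add_index' (by simp) (by simp), ha, hb, add_zero]
  | single s z =>
    rw [del_single, Finsupp.sum_sub_index (by simp), sum_RQ, sub_self]

theorem Good.gaug_gd (H : Good φ π t c a x0 p) (v : Tot κ I (KK G X)) :
    gaug κ I X π (gd φ t a x0 p v) = 0 := by
  rw [gaug_apply, gd, totd_apply]
  simp only [map_add]
  have h1 : kq π (th1 (fun i => kh (x0 i)) v.2.2) = 0 := by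
    generalize v.2.2 = w
    induction w using Finsupp.induction_linear with
    | zero => simp
    | add a b ha hb => rw [map_add, map_add, ha, hb, add_zero]
    | single i w => rw [th1_single, map_neg, kq_kh, neg_zero]
  rw [kq_kd π t H.pi_t, h1, zero_add, add_zero, del_nat (kR φ) (RQ φ π) (kq π) (kq_kR φ π),
    sum_del_RQ]

theorem gaug_kL (π : G →* Q) (h : G) (v : Tot κ I (KK G X)) :
    gaug κ I X π (totMap (kL h) v) = gaug κ I X π v := by
  rw [gaug_apply, gaug_apply]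
  change (kq π (kL h v.1)).sum _ = _
  generalize v.1 = k
  induction k using Finsupp.induction_linear with
  | zero => simp
  | add a b ha hb =>
    rw [map_add, map_add, map_add, Finsupp.sum_add_index' (by simp) (by simp),
      Finsupp.sum_add_index' (by simp) (by simp), ha, hb]
  | single g b =>
    rw [kL_single, kq_single, kq_single, Finsupp.sum_single_index rfl,
      Finsupp.sum_single_index rfl]

/-- The resolution. -/
noncomputable def Good.res (H : Good φ π t c a x0 p) : Lnk.Res ℤ G where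
  V n := bgr κ x0 (n : ℤ)
  d := H.rd
  ε := gaug κ I X π ∘ₗ toTot G x0 ((0 : ℕ) : ℤ)
  d_equiv n h z := by
    apply toTot_injective G x0 (n : ℤ)
    rw [H.toTot_rd, toTot_mapDomain, toTot_mapDomain, ← kL_gd, H.toTot_rd]
  ε_inv h z := by
    rw [LinearMap.comp_apply, LinearMap.comp_apply, toTot_mapDomain, gaug_kL]
  d_d n z := by
    apply toTot_injective G x0 (n : ℤ)
    rw [H.toTot_rd, H.toTot_rd, H.gd_gd, map_zero]
  ε_d z := by
    rw [LinearMap.comp_apply, H.toTot_rd, H.gaug_gd]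
  exact_d n z hz := by
    have h1 : gd φ t a x0 p (toTot G x0 ((n + 1 : ℕ) : ℤ) z) = 0 := by
      rw [← H.toTot_rd, hz, map_zero]
    obtain ⟨v', hv', e⟩ := H.gexact (n := ((n + 1 : ℕ) : ℤ)) (by push_cast; omega)
      (toTot_mem x0 _ z) h1
    have hv'' : v' ∈ ggr G κ x0 ((n + 1 + 1 : ℕ) : ℤ) := by
      have e2 : (((n + 1 + 1 : ℕ)) : ℤ) = ((n + 1 : ℕ) : ℤ) + 1 := by push_cast; ring
      rw [e2]
      exact hv'
    obtain ⟨w, hw⟩ := toTot_surj x0 _ hv''
    refine ⟨w, ?_⟩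
    apply toTot_injective G x0 ((n + 1 : ℕ) : ℤ)
    rw [H.toTot_rd, hw, e]
  exact_ε z hz := by
    rw [LinearMap.comp_apply, gaug_apply] at hz
    obtain ⟨v', hv', e⟩ := H.gexact0 (by simpa using toTot_mem x0 ((0 : ℕ) : ℤ) z) hz
    have hv'' : v' ∈ ggr G κ x0 ((0 + 1 : ℕ) : ℤ) := by simpa using hv'
    obtain ⟨w, hw⟩ := toTot_surj x0 _ hv''
    refine ⟨w, ?_⟩
    apply toTot_injective G x0 ((0 : ℕ) : ℤ)
    rw [H.toTot_rd, hw, e]
  surj_ε m := by
    have h1 : ((m • (1 : Lam X), 0, 0) : Tot κ I (Lam X)) ∈ bgr κ x0 ((0 : ℕ) : ℤ) := by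
      refine ⟨?_, fun s => Submodule.zero_mem _, fun i =>
        ⟨Submodule.zero_mem _, Submodule.zero_mem _⟩⟩
      exact mem_gr_zero.2 ⟨m, rfl⟩
    refine ⟨Finsupp.single 1 ⟨_, h1⟩, ?_⟩
    rw [LinearMap.comp_apply, toTot_single, gaug_apply]
    change (kq π (Finsupp.single 1 (m • (1 : Lam X)))).sum _ = m
    rw [kq_single, map_smul, eps_one, Finsupp.sum_single_index rfl]
    simp

/-- The underlying element. -/
def Good.toB (H : Good φ π t c a x0 p) {n : ℕ} (v : H.res.V n) : Tot κ I (Lam X) :=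
  Subtype.val (p := fun v => v ∈ bgr κ x0 (n : ℤ)) v

theorem Good.toB_mem (H : Good φ π t c a x0 p) {n : ℕ} (v : H.res.V n) :
    H.toB v ∈ bgr κ x0 (n : ℤ) := Subtype.property (p := fun v => v ∈ bgr κ x0 (n : ℤ)) v

theorem Good.res_dbar_aux (H : Good φ π t c a x0 p) (n : ℕ) (v : bgr κ x0 ((n + 1 : ℕ) : ℤ)) :
    ((Lnk.Res.tot ℤ (H.rd n (Finsupp.single 1 v)) : bgr κ x0 (n : ℤ)) :
    Tot κ I (Lam X)) = bd a x0 p (v : Tot κ I (Lam X)) := by
  rw [← kσ_toTot, H.toTot_rd, kσ_gd, kσ_toTot, Lnk.Res.tot_single]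

theorem Good.res_dbar (H : Good φ π t c a x0 p) (n : ℕ) (v : H.res.V (n + 1)) :
    H.toB (H.res.dbar n v) = bd a x0 p (H.toB v) := by
  exact H.res_dbar_aux n v

/-- Torsion-freeness of the homology in positive degrees. -/
theorem Good.torsionFree (TF : TFStatement) (H : Good φ π t c a x0 p) (n m : ℕ) (hm : m ≠ 0)
    (x : groupHomology (Rep.trivial ℤ G ℤ) (n + 1)) (hx : m • x = 0) : x = 0 := by
  refine H.res.int_torsion n ?_ m hm x hx
  intro q hq z hz w hw
  have hz1 : bd a x0 p (H.toB z) = 0 := by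
    rw [← H.res_dbar n z, hz]
    rfl
  have hw1 : bd a x0 p (H.toB w) = (q : ℤ) • (H.toB z) := by
    rw [← H.res_dbar (n + 1) w, hw, natCast_zsmul]
    rfl
  have e2 : (((n + 1 + 1 : ℕ)) : ℤ) = ((n + 1 : ℕ) : ℤ) + 1 := by push_cast; ring
  have hwm : H.toB w ∈ bgr κ x0 (((n + 1 : ℕ) : ℤ) + 1) := by
    rw [← e2]
    exact H.toB_mem w
  obtain ⟨w', h1, h2⟩ := TF H (n := ((n + 1 : ℕ) : ℤ)) (by push_cast; omega) (H.toB z)
    (H.toB_mem z) hz1 (q : ℤ) (by exact_mod_cast hq.ne_zero) (H.toB w) hwm hw1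
  have h1' : w' ∈ bgr κ x0 ((n + 1 + 1 : ℕ) : ℤ) := by
    rw [e2]
    exact h1
  refine ⟨(⟨w', h1'⟩ : bgr κ x0 ((n + 1 + 1 : ℕ) : ℤ)), ?_⟩
  have h3 : H.toB (H.res.dbar (n + 1) (⟨w', h1'⟩ : bgr κ x0 ((n + 1 + 1 : ℕ) : ℤ))) =
      H.toB z := (H.res_dbar (n + 1) _).trans h2
  exact Subtype.ext h3

end W3ab0ed
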