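import Mathlib

/-!
Homology part of MP_3ab0ed_al.  The exterior algebra of a free abelian group with its
operators of left multiplication and contraction by basis elements.
-/

namespace W3ab0ed

open Finsupp

/-- The exterior algebra of the free abelian group on a type. -/
abbrev Lam (X : Type) : Type := ExteriorAlgebra ℤ (X →₀ ℤ)

section

variable {X : Type}

/-- Left multiplication by the basis element. -/
noncomputable def ew (x : X) : Lam X →ₗ[ℤ] Lam X :=
  LinearMap.mulLeft ℤ (ExteriorAlgebra.ι ℤ (Finsupp.single x (1 : ℤ)))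

/-- Contraction with the coordinate of a basis element. -/
noncomputable def ic (x : X) : Lam X →ₗ[ℤ] Lam X :=
  CliffordAlgebra.contractLeft (Q := (0 : QuadraticForm ℤ (X →₀ ℤ))) (Finsupp.lapply x)

/-- The action of maps of the basis. -/
noncomputable def actL (σ : X → X) : Lam X →ₗ[ℤ] Lam X :=
  (ExteriorAlgebra.map (Finsupp.lmapDomain ℤ ℤ σ)).toLinearMap

theorem ew_apply (x : X) (a : Lam X) :
    ew x a = ExteriorAlgebra.ι ℤ (Finsupp.single x (1 : ℤ)) * a := rfl

theorem lam_ind {p : Lam X → Prop} (h1 : p 1) (hadd : ∀ a b, p a → p b → p (a + b))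
    (hneg : ∀ a, p a → p (-a)) (hew : ∀ x a, p a → p (ew x a)) (a : Lam X) : p a := by
  have hz : p 0 := by
    have := hadd 1 (-1) h1 (hneg 1 h1)
    simpa using this
  have hnat : ∀ (n : ℕ) (a : Lam X), p a → p (n • a) := by
    intro n a ha
    induction n with
    | zero => simpa using hz
    | succ n ih => rw [succ_nsmul]; exact hadd _ _ ih ha
  have hint : ∀ (n : ℤ) (a : Lam X), p a → p (n • a) := by
    intro n a ha
    cases n with
    | ofNat n => simpa using hnat n a ha
    | negSucc n =>
      rw [negSucc_zsmul]
      exact hneg _ (hnat _ _ ha)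
  induction a using CliffordAlgebra.left_induction with
  | algebraMap r =>
    rw [Algebra.algebraMap_eq_smul_one]
    exact hint r 1 h1
  | add a b ha hb => exact hadd a b ha hb
  | ι_mul a m ha =>
    induction m using Finsupp.induction_linear with
    | zero => simpa using hz
    | add f g hf hg =>
      rw [map_add, add_mul]
      exact hadd _ _ hf hg
    | single x n =>
      have : (Finsupp.single x n : X →₀ ℤ) = n • Finsupp.single x 1 := by simp
      rw [this, map_smul, smul_mul_assoc]
      exact hint n _ (hew x a ha)

@[simp] theorem ic_one (x : X) : ic x (1 : Lam X) = 0 :=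
  CliffordAlgebra.contractLeft_one _ _

theorem ic_ew [DecidableEq X] (x y : X) (a : Lam X) :
    ic x (ew y a) = (if x = y then a else 0) - ew y (ic x a) := by
  have := CliffordAlgebra.contractLeft_ι_mul (Q := (0 : QuadraticForm ℤ (X →₀ ℤ)))
    (Finsupp.lapply x) (Finsupp.single y (1 : ℤ)) a
  simp only [ic, ew_apply]
  rw [ExteriorAlgebra.ι, this]
  congr 1
  by_cases h : x = y
  · subst h; simp
  · have h' : y ≠ x := fun e => h e.symm
    simp [h, Finsupp.single_apply, h']

theorem ew_ew (x : X) (a : Lam X) : ew x (ew x a) = 0 := by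
  simp only [ew_apply]
  rw [← mul_assoc, ExteriorAlgebra.ι_sq_zero, zero_mul]

theorem ew_comm (x y : X) (a : Lam X) : ew x (ew y a) = - ew y (ew x a) := by
  simp only [ew_apply]
  rw [← mul_assoc, ← mul_assoc, ← neg_mul]
  congr 1
  exact eq_neg_of_add_eq_zero_left (ExteriorAlgebra.ι_add_mul_swap _ _)

theorem ic_ic (x : X) (a : Lam X) : ic x (ic x a) = 0 :=
  CliffordAlgebra.contractLeft_contractLeft _ _

theorem ic_comm (x y : X) (a : Lam X) : ic x (ic y a) = - ic y (ic x a) :=
  CliffordAlgebra.contractLeft_comm _ _ _

@[simp] theorem actL_one (σ : X → X) : actL σ (1 : Lam X) = 1 := by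
  simp [actL]

theorem actL_ew (σ : X → X) (x : X) (a : Lam X) :
    actL σ (ew x a) = ew (σ x) (actL σ a) := by
  simp [actL, ew_apply, Finsupp.mapDomain_single]

theorem actL_id (a : Lam X) : actL (fun x : X => x) a = a := by
  induction a using lam_ind with
  | h1 => simp
  | hadd a b ha hb => rw [map_add, ha, hb]
  | hneg a ha => rw [map_neg, ha]
  | hew x a ha => rw [actL_ew, ha]

theorem actL_comp (σ τ : X → X) (a : Lam X) :
    actL σ (actL τ a) = actL (fun x => σ (τ x)) a := by
  induction a using lam_ind with
  | h1 => simp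
  | hadd a b ha hb => rw [map_add, map_add, map_add, ha, hb]
  | hneg a ha => rw [map_neg, map_neg, map_neg, ha]
  | hew x a ha => rw [actL_ew, actL_ew, actL_ew, ha]

theorem actL_ic (σ : X → X) (hσ : Function.Injective σ) (x : X) (a : Lam X) :
    actL σ (ic x a) = ic (σ x) (actL σ a) := by
  classical
  induction a using lam_ind with
  | h1 => simp
  | hadd a b ha hb => simp only [map_add, ha, hb]
  | hneg a ha => simp only [map_neg, ha]
  | hew y a ha =>
    rw [actL_ew, ic_ew, ic_ew, map_sub, actL_ew, ha]
    congr 1
    by_cases h : x = y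
    · subst h; simp
    · have : σ x ≠ σ y := fun e => h (hσ e)
      simp [h, this]

/-- Only finitely many contractions of a given element are non-zero. -/
theorem finite_ic (a : Lam X) : {x : X | ic x a ≠ 0}.Finite := by
  classical
  induction a using lam_ind with
  | h1 => simp
  | hadd a b ha hb =>
    refine (ha.union hb).subset ?_
    intro x hx
    simp only [Set.mem_ofPred_eq, map_add, Set.mem_union] at hx ⊢
    by_contra hcon
    push Not at hcon
    exact hx (by rw [hcon.1, hcon.2, add_zero])
  | hneg a ha =>
    refine ha.subset ?_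
    intro x hx
    simpa using hx
  | hew y a ha =>
    refine (ha.insert y).subset ?_
    intro x hx
    simp only [Set.mem_ofPred_eq, Set.mem_insert_iff] at hx ⊢
    by_contra hcon
    push Not at hcon
    rw [ic_ew, if_neg hcon.1, hcon.2] at hx
    simp at hx

end

end W3ab0ed
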