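import Mathlib

/-!
Homology part of MP_3ab0ed_al.  Fox derivatives and the operators they define on modules with a
right action of a free group.
-/

namespace W3ab0ed

open Finsupp

variable {κ : Type}

/-- Left translation on the free module with values in the group ring of the free group. -/
noncomputable def foxShift (f : FreeGroup κ) :
    (κ →₀ (FreeGroup κ →₀ ℤ)) →+ (κ →₀ (FreeGroup κ →₀ ℤ)) :=
  Finsupp.mapRange.addMonoidHom (Finsupp.mapDomain.addMonoidHom (fun g => f * g))

theorem foxShift_one (z : κ →₀ (FreeGroup κ →₀ ℤ)) : foxShift 1 z = z := by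
  ext s g
  have : (fun g : FreeGroup κ => 1 * g) = id := by ext g; simp
  simp only [foxShift, Finsupp.mapRange.addMonoidHom_apply, Finsupp.mapRange_apply,
    Finsupp.mapDomain.addMonoidHom_apply, this, Finsupp.mapDomain_id]

theorem foxShift_mul (f g : FreeGroup κ) (z : κ →₀ (FreeGroup κ →₀ ℤ)) :
    foxShift (f * g) z = foxShift f (foxShift g z) := by
  ext s h
  simp only [foxShift, Finsupp.mapRange.addMonoidHom_apply, Finsupp.mapRange_apply,
    Finsupp.mapDomain.addMonoidHom_apply, ← Finsupp.mapDomain_comp]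
  congr 2
  ext h
  simp [mul_assoc]

/-- The action of the free group by automorphisms. -/
noncomputable def foxAct : FreeGroup κ →* MulAut (Multiplicative (κ →₀ (FreeGroup κ →₀ ℤ))) where
  toFun f :=
    { toFun := fun z => Multiplicative.ofAdd (foxShift f (Multiplicative.toAdd z))
      invFun := fun z => Multiplicative.ofAdd (foxShift f⁻¹ (Multiplicative.toAdd z))
      left_inv := fun z => by
        simp only [toAdd_ofAdd, ← foxShift_mul, inv_mul_cancel, foxShift_one, ofAdd_toAdd]
      right_inv := fun z => by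
        simp only [toAdd_ofAdd, ← foxShift_mul, mul_inv_cancel, foxShift_one, ofAdd_toAdd]
      map_mul' := fun z w => by
        simp only [toAdd_mul, map_add, ofAdd_add] }
  map_one' := by
    ext z : 1
    simp only [MulEquiv.coe_mk, Equiv.coe_fn_mk, foxShift_one, ofAdd_toAdd, MulAut.one_apply]
  map_mul' f g := by
    ext z : 1
    simp only [MulEquiv.coe_mk, Equiv.coe_fn_mk, foxShift_mul, MulAut.mul_apply, toAdd_ofAdd]

/-- The homomorphism into the semidirect product whose first coordinate is the Fox derivative. -/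
noncomputable def foxHom : FreeGroup κ →*
    (Multiplicative (κ →₀ (FreeGroup κ →₀ ℤ))) ⋊[foxAct] (FreeGroup κ) :=
  FreeGroup.lift fun s =>
    ⟨Multiplicative.ofAdd (Finsupp.single s (Finsupp.single 1 1)), FreeGroup.of s⟩

/-- The Fox derivatives of an element of the free group. -/
noncomputable def fox (f : FreeGroup κ) : κ →₀ (FreeGroup κ →₀ ℤ) :=
  Multiplicative.toAdd (foxHom f).left

theorem foxHom_right (f : FreeGroup κ) : (foxHom f).right = f := by
  have : (SemidirectProduct.rightHom.comp (foxHom (κ := κ))) = MonoidHom.id _ := by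
    ext s
    simp [foxHom]
  exact DFunLike.congr_fun this f

theorem fox_one : fox (1 : FreeGroup κ) = 0 := by
  simp [fox]

theorem fox_of (s : κ) : fox (FreeGroup.of s) = Finsupp.single s (Finsupp.single 1 1) := by
  simp [fox, foxHom]

theorem fox_mul (f g : FreeGroup κ) : fox (f * g) = fox f + foxShift f (fox g) := by
  simp only [fox, map_mul, SemidirectProduct.mul_left, foxHom_right, toAdd_mul]
  rfl

/-- Evaluation of an element of the group ring through a right action. -/
noncomputable def ev {A : Type} [AddCommGroup A] (R : FreeGroup κ → (A →ₗ[ℤ] A)) (a : A) :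
    (FreeGroup κ →₀ ℤ) →+ A :=
  Finsupp.liftAddHom fun g => (AddMonoidHom.flip (smulAddHom ℤ A)) (R g a)

theorem ev_single {A : Type} [AddCommGroup A] (R : FreeGroup κ → (A →ₗ[ℤ] A)) (a : A)
    (g : FreeGroup κ) (n : ℤ) : ev R a (Finsupp.single g n) = n • R g a := by
  simp [ev]

/-- The operator defined by the Fox derivatives. -/
noncomputable def PP {A : Type} [AddCommGroup A] (R : FreeGroup κ → (A →ₗ[ℤ] A))
    (f : FreeGroup κ) : A →ₗ[ℤ] (κ →₀ A) :=
  (AddMonoidHom.toIntLinearMap
    { toFun := fun a => Finsupp.mapRange.addMonoidHom (ev R a) (fox f)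
      map_zero' := by
        ext s
        have : ev R (0 : A) = 0 := by
          ext g
          simp [ev]
        simp [this]
      map_add' := fun a b => by
        ext s
        have : ev R (a + b) = ev R a + ev R b := by
          ext g
          simp [ev]
        simp [this] })

theorem PP_apply {A : Type} [AddCommGroup A] (R : FreeGroup κ → (A →ₗ[ℤ] A))
    (f : FreeGroup κ) (a : A) (s : κ) : PP R f a s = ev R a (fox f s) := rfl

theorem PP_one {A : Type} [AddCommGroup A] (R : FreeGroup κ → (A →ₗ[ℤ] A)) (a : A) :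
    PP R 1 a = 0 := by
  ext s
  simp [PP_apply, fox_one]

theorem PP_of {A : Type} [AddCommGroup A] (R : FreeGroup κ → (A →ₗ[ℤ] A))
    (h1 : ∀ a, R 1 a = a) (s : κ) (a : A) :
    PP R (FreeGroup.of s) a = Finsupp.single s a := by
  classical
  ext s'
  rw [PP_apply, fox_of]
  by_cases h : s = s'
  · subst h
    rw [Finsupp.single_eq_same, Finsupp.single_eq_same, ev_single, h1, one_smul]
  · rw [Finsupp.single_eq_of_ne (Ne.symm h), Finsupp.single_eq_of_ne (Ne.symm h), map_zero]

theorem PP_mul {A : Type} [AddCommGroup A] (R : FreeGroup κ → (A →ₗ[ℤ] A))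
    (hm : ∀ f g a, R (f * g) a = R g (R f a)) (f g : FreeGroup κ) (a : A) :
    PP R (f * g) a = PP R f a + PP R g (R f a) := by
  ext s
  rw [Finsupp.add_apply, PP_apply, PP_apply, PP_apply, fox_mul, Finsupp.add_apply, map_add]
  congr 1
  simp only [foxShift, Finsupp.mapRange.addMonoidHom_apply, Finsupp.mapRange_apply,
    Finsupp.mapDomain.addMonoidHom_apply]
  induction fox g s using Finsupp.induction_linear with
  | zero => simp
  | add u v hu hv => rw [Finsupp.mapDomain_add, map_add, map_add, hu, hv]
  | single h n => rw [Finsupp.mapDomain_single, ev_single, ev_single, hm]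

/-- The map `u ↦ ∑ (R_s - 1) u_s`. -/
noncomputable def del {A : Type} [AddCommGroup A] (R : FreeGroup κ → (A →ₗ[ℤ] A)) :
    (κ →₀ A) →ₗ[ℤ] A :=
  Finsupp.lsum ℤ fun s => R (FreeGroup.of s) - LinearMap.id

theorem del_single {A : Type} [AddCommGroup A] (R : FreeGroup κ → (A →ₗ[ℤ] A)) (s : κ) (a : A) :
    del R (Finsupp.single s a) = R (FreeGroup.of s) a - a := by
  simp [del]

theorem del_PP {A : Type} [AddCommGroup A] (R : FreeGroup κ → (A →ₗ[ℤ] A))
    (h1 : ∀ a, R 1 a = a) (hm : ∀ f g a, R (f * g) a = R g (R f a))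
    (f : FreeGroup κ) (a : A) : del R (PP R f a) = R f a - a := by
  induction f using FreeGroup.induction_on generalizing a with
  | C1 => rw [PP_one, map_zero, h1, sub_self]
  | of s => rw [PP_of R h1, del_single]
  | inv_of s h =>
    have h2 : PP R (FreeGroup.of s)⁻¹ a = - PP R (FreeGroup.of s) (R (FreeGroup.of s)⁻¹ a) := by
      have := PP_mul R hm (FreeGroup.of s)⁻¹ (FreeGroup.of s) a
      rw [inv_mul_cancel, PP_one] at this
      exact eq_neg_of_add_eq_zero_left this.symm
    rw [h2, map_neg, h, ← hm, inv_mul_cancel, h1]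
    abel
  | mul f g hf hg =>
    rw [PP_mul R hm, map_add, hf, hg, hm]
    abel

theorem PP_nat {A B : Type} [AddCommGroup A] [AddCommGroup B]
    (R : FreeGroup κ → (A →ₗ[ℤ] A)) (S : FreeGroup κ → (B →ₗ[ℤ] B)) (θ : A →ₗ[ℤ] B)
    (hθ : ∀ f a, θ (R f a) = S f (θ a)) (f : FreeGroup κ) (a : A) (s : κ) :
    θ (PP R f a s) = PP S f (θ a) s := by
  rw [PP_apply, PP_apply]
  induction fox f s using Finsupp.induction_linear with
  | zero => simp
  | add u v hu hv => rw [map_add, map_add, map_add, hu, hv]
  | single h n => rw [ev_single, ev_single, map_smul, hθ]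

theorem del_nat {A B : Type} [AddCommGroup A] [AddCommGroup B]
    (R : FreeGroup κ → (A →ₗ[ℤ] A)) (S : FreeGroup κ → (B →ₗ[ℤ] B)) (θ : A →ₗ[ℤ] B)
    (hθ : ∀ f a, θ (R f a) = S f (θ a)) (u : κ →₀ A) :
    θ (del R u) = del S (Finsupp.mapRange.linearMap θ u) := by
  induction u using Finsupp.induction_linear with
  | zero => simp
  | add u v hu hv => rw [map_add, map_add, map_add, map_add, hu, hv]
  | single s a =>
    rw [del_single, map_sub, hθ, Finsupp.mapRange.linearMap_apply, Finsupp.mapRange_single,
      del_single]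

theorem PP_pow {A : Type} [AddCommGroup A] (R : FreeGroup κ → (A →ₗ[ℤ] A))
    (hm : ∀ f g a, R (f * g) a = R g (R f a)) (f : FreeGroup κ) (n : ℕ)
    (a : A) : PP R (f ^ n) a = PP R f (∑ j ∈ Finset.range n, R (f ^ j) a) := by
  induction n with
  | zero => simp [PP_one]
  | succ n ih => rw [pow_succ, PP_mul R hm, ih, Finset.sum_range_succ, map_add]

end W3ab0ed
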