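import Pool.Agent.W_MP_3ab0ed_h44.Ext

/-!
Homology part of MP_3ab0ed_al.  The grading of the exterior algebra.
-/

namespace W3ab0ed

open Finsupp

variable {X : Type}

/-- The graded pieces, by recursion. -/
noncomputable def grN (X : Type) : ℕ → Submodule ℤ (Lam X)
  | 0 => Submodule.span ℤ {1}
  | n + 1 => Submodule.span ℤ {b | ∃ x a, a ∈ grN X n ∧ b = ew x a}

/-- The graded pieces, indexed by the integers; zero in negative degrees. -/
noncomputable def gr (X : Type) (n : ℤ) : Submodule ℤ (Lam X) :=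
  if 0 ≤ n then grN X n.toNat else ⊥

theorem gr_neg {n : ℤ} (hn : n < 0) : gr X n = ⊥ := if_neg (by omega)

theorem gr_nat (n : ℕ) : gr X (n : ℤ) = grN X n := by
  unfold gr
  rw [if_pos (by positivity)]
  simp

theorem gr_zero : gr X 0 = Submodule.span ℤ {1} := gr_nat 0

theorem grN_ind {n : ℕ} {p : Lam X → Prop}
    (hew : ∀ x a, a ∈ grN X n → p (ew x a)) (h0 : p 0)
    (hadd : ∀ a b, p a → p b → p (a + b)) (hneg : ∀ a, p a → p (-a))
    {a : Lam X} (ha : a ∈ grN X (n + 1)) : p a := by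
  have hnat : ∀ (m : ℕ) (a : Lam X), p a → p (m • a) := by
    intro m a ha
    induction m with
    | zero => simpa using h0
    | succ m ih => rw [succ_nsmul]; exact hadd _ _ ih ha
  change a ∈ Submodule.span ℤ _ at ha
  induction ha using Submodule.span_induction with
  | mem b hb => obtain ⟨x, c, hc, rfl⟩ := hb; exact hew x c hc
  | zero => exact h0
  | add a b _ _ ha hb => exact hadd a b ha hb
  | smul r a _ ha =>
    cases r with
    | ofNat n => simpa using hnat n a ha
    | negSucc n =>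
      rw [negSucc_zsmul]
      exact hneg _ (hnat _ _ ha)

theorem mem_grN_zero {a : Lam X} : a ∈ grN X 0 ↔ ∃ c : ℤ, a = c • (1 : Lam X) := by
  change a ∈ Submodule.span ℤ _ ↔ _
  rw [Submodule.mem_span_singleton]
  constructor
  · rintro ⟨c, rfl⟩; exact ⟨c, rfl⟩
  · rintro ⟨c, rfl⟩; exact ⟨c, rfl⟩

theorem ew_mem_grN {n : ℕ} (x : X) {a : Lam X} (ha : a ∈ grN X n) : ew x a ∈ grN X (n + 1) :=
  Submodule.subset_span ⟨x, a, ha, rfl⟩

theorem ic_grN_zero (x : X) {a : Lam X} (ha : a ∈ grN X 0) : ic x a = 0 := by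
  obtain ⟨c, rfl⟩ := mem_grN_zero.1 ha
  rw [map_smul, ic_one, smul_zero]

theorem ic_mem_grN {n : ℕ} (x : X) {a : Lam X} (ha : a ∈ grN X (n + 1)) : ic x a ∈ grN X n := by
  classical
  induction n generalizing a with
  | zero =>
    refine grN_ind (p := fun a => ic x a ∈ grN X 0) ?_ ?_ ?_ ?_ ha
    · intro y b hb
      rw [ic_ew, ic_grN_zero x hb, map_zero, sub_zero]
      split_ifs
      · exact hb
      · exact Submodule.zero_mem _
    · simp
    · intro a b ha hb; rw [map_add]; exact Submodule.add_mem _ ha hb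
    · intro a ha; rw [map_neg]; exact Submodule.neg_mem _ ha
  | succ n ih =>
    refine grN_ind (p := fun a => ic x a ∈ grN X (n + 1)) ?_ ?_ ?_ ?_ ha
    · intro y b hb
      rw [ic_ew]
      refine Submodule.sub_mem _ ?_ (ew_mem_grN y (ih hb))
      split_ifs
      · exact hb
      · exact Submodule.zero_mem _
    · simp
    · intro a b ha hb; rw [map_add]; exact Submodule.add_mem _ ha hb
    · intro a ha; rw [map_neg]; exact Submodule.neg_mem _ ha

theorem actL_mem_grN {n : ℕ} (σ : X → X) {a : Lam X} (ha : a ∈ grN X n) :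
    actL σ a ∈ grN X n := by
  induction n generalizing a with
  | zero =>
    obtain ⟨c, rfl⟩ := mem_grN_zero.1 ha
    rw [map_smul, actL_one]
    exact mem_grN_zero.2 ⟨c, rfl⟩
  | succ n ih =>
    refine grN_ind (p := fun a => actL σ a ∈ grN X (n + 1)) ?_ ?_ ?_ ?_ ha
    · intro y b hb; rw [actL_ew]; exact ew_mem_grN _ (ih hb)
    · simp
    · intro a b ha hb; rw [map_add]; exact Submodule.add_mem _ ha hb
    · intro a ha; rw [map_neg]; exact Submodule.neg_mem _ ha

theorem ew_mem_gr {n : ℤ} (x : X) {a : Lam X} (ha : a ∈ gr X n) : ew x a ∈ gr X (n + 1) := by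
  rcases lt_or_ge n 0 with hn | hn
  · rw [gr_neg hn] at ha
    rw [(Submodule.mem_bot ℤ).1 ha, map_zero]
    exact Submodule.zero_mem _
  · obtain ⟨m, rfl⟩ := Int.eq_ofNat_of_zero_le hn
    rw [gr_nat] at ha
    have : ((m : ℤ) + 1) = ((m + 1 : ℕ) : ℤ) := by push_cast; ring
    rw [this, gr_nat]
    exact ew_mem_grN x ha

theorem ic_mem_gr {n : ℤ} (x : X) {a : Lam X} (ha : a ∈ gr X n) : ic x a ∈ gr X (n - 1) := by
  rcases lt_or_ge n 0 with hn | hn
  · rw [gr_neg hn] at ha
    rw [(Submodule.mem_bot ℤ).1 ha, map_zero]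
    exact Submodule.zero_mem _
  · obtain ⟨m, rfl⟩ := Int.eq_ofNat_of_zero_le hn
    rw [gr_nat] at ha
    cases m with
    | zero => rw [ic_grN_zero x ha]; exact Submodule.zero_mem _
    | succ m =>
      have : (((m + 1 : ℕ) : ℤ) - 1) = (m : ℤ) := by push_cast; ring
      rw [this, gr_nat]
      exact ic_mem_grN x ha

theorem actL_mem_gr {n : ℤ} (σ : X → X) {a : Lam X} (ha : a ∈ gr X n) :
    actL σ a ∈ gr X n := by
  rcases lt_or_ge n 0 with hn | hn
  · rw [gr_neg hn] at ha
    rw [(Submodule.mem_bot ℤ).1 ha, map_zero]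
    exact Submodule.zero_mem _
  · obtain ⟨m, rfl⟩ := Int.eq_ofNat_of_zero_le hn
    rw [gr_nat] at ha ⊢
    exact actL_mem_grN σ ha

/-- The Euler identity. -/
theorem euler (n : ℕ) (a : Lam X) (ha : a ∈ grN X n) (s : Finset X)
    (hs : ∀ x, ic x a ≠ 0 → x ∈ s) : ∑ x ∈ s, ew x (ic x a) = n • a := by
  classical
  have key : ∀ (n : ℕ) (a : Lam X), a ∈ grN X n → ∃ s0 : Finset X, ∀ s : Finset X, s0 ⊆ s →
      ∑ x ∈ s, ew x (ic x a) = n • a := by
    intro n
    induction n with
    | zero =>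
      intro a ha
      refine ⟨∅, fun s _ => ?_⟩
      simp [ic_grN_zero _ ha]
    | succ n ih =>
      intro a ha
      refine grN_ind (p := fun a => ∃ s0 : Finset X, ∀ s : Finset X, s0 ⊆ s →
        ∑ x ∈ s, ew x (ic x a) = (n + 1) • a) ?_ ?_ ?_ ?_ ha
      · intro y b hb
        obtain ⟨s0, hs0⟩ := ih b hb
        refine ⟨insert y s0, fun s hs => ?_⟩
        have h1 : s0 ⊆ s := (Finset.subset_insert _ _).trans hs
        have hy : y ∈ s := hs (Finset.mem_insert_self _ _)
        have h2 : ∀ x ∈ s, ew x (ic x (ew y b)) =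
            (if x = y then ew y b else 0) + ew y (ew x (ic x b)) := by
          intro x _
          rw [ic_ew, map_sub, ew_comm x y]
          by_cases h : x = y
          · subst h; simp
          · simp [h]
        rw [Finset.sum_congr rfl h2, Finset.sum_add_distrib, ← map_sum, hs0 s h1, map_nsmul,
          Finset.sum_ite_eq' s y, if_pos hy, succ_nsmul, add_comm]
      · exact ⟨∅, fun s _ => by simp⟩
      · intro a b ha hb
        obtain ⟨s1, h1⟩ := ha
        obtain ⟨s2, h2⟩ := hb
        refine ⟨s1 ∪ s2, fun s hs => ?_⟩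
        simp only [map_add, Finset.sum_add_distrib, nsmul_add]
        rw [h1 s (Finset.union_subset_left hs), h2 s (Finset.union_subset_right hs)]
      · intro a ha
        obtain ⟨s1, h1⟩ := ha
        refine ⟨s1, fun s hs => ?_⟩
        simp only [map_neg, Finset.sum_neg_distrib]
        rw [h1 s hs, smul_neg]
  obtain ⟨s0, h0⟩ := key n a ha
  rw [← h0 (s ∪ s0) Finset.subset_union_right]
  refine Finset.sum_subset Finset.subset_union_left ?_
  intro x _ hx
  by_contra hcon
  apply hx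
  apply hs
  intro h
  rw [h, map_zero] at hcon
  exact hcon rfl

instance lamTorsionFree : Module.Free ℤ (Lam X) := by
  classical
  let _ : LinearOrder X := linearOrderOfSTO WellOrderingRel
  exact Module.Free.of_basis (Module.Basis.ExteriorAlgebra (R := ℤ) (M := X →₀ ℤ)
    (Finsupp.basisSingleOne (R := ℤ) (ι := X)))

theorem lam_smul_eq_zero {n : ℤ} (hn : n ≠ 0) {a : Lam X} (h : n • a = 0) : a = 0 := by
  rcases smul_eq_zero.1 h with h | h
  · exact absurd h hn
  · exact h

theorem eq_zero_of_ic {n : ℤ} (hn : n ≠ 0) {a : Lam X} (ha : a ∈ gr X n)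
    (h : ∀ x, ic x a = 0) : a = 0 := by
  rcases lt_or_ge n 0 with h0 | h0
  · rw [gr_neg h0] at ha
    exact (Submodule.mem_bot ℤ).1 ha
  · obtain ⟨m, rfl⟩ := Int.eq_ofNat_of_zero_le h0
    rw [gr_nat] at ha
    have := euler m a ha ∅ (fun x hx => absurd (h x) hx)
    rw [Finset.sum_empty] at this
    have h2 : (m : ℤ) • a = 0 := by rw [natCast_zsmul]; exact this.symm
    exact lam_smul_eq_zero hn h2

theorem mem_gr_zero {a : Lam X} : a ∈ gr X 0 ↔ ∃ c : ℤ, a = c • (1 : Lam X) := by
  rw [gr_zero]; exact mem_grN_zero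

end W3ab0ed
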