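import Pool.Agent.W_MP_3ab0ed_h44.Iterate
import Pool.Agent.Burn.Class

/-!
MP_3ab0ed_al.  The class of actions is invariant under isomorphisms of groups.
-/

namespace Burn

theorem isoInv_inClass (n : ℕ) (δ A m0 : ℤ) :
    IsoInv (fun G V _ _ M => InClass n δ A m0 G (V := V) M) := by
  intro G G' V _ _ _ M e H
  let _ : MulAction G' V := MulAction.compHom V e.toMonoidHom
  have hs : ∀ (g : G') (x : V), g • x = e g • x := fun _ _ => rfl
  refine ⟨?_, H.hyp, ?_, ?_⟩
  · intro g x y
    exact H.inv (e g) x y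
  · intro g hg
    have hg' : e g ≠ 1 := fun h => hg (by
      have := e.injective (h.trans (map_one e).symm)
      exact this)
    rcases H.c3 (e g) hg' with ⟨h1, h2⟩ | h
    · left
      refine ⟨e.injective (by rw [map_pow, h1, map_one]), h2⟩
    · right
      intro x j
      rw [hs, map_pow]
      exact h x j
  · intro g h hg hh x y h1 h2 h3 h4 h5
    have hg' : e g ≠ 1 := fun h => hg (e.injective (h.trans (map_one e).symm))
    have hh' : e h ≠ 1 := fun h' => hh (e.injective (h'.trans (map_one e).symm))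
    obtain ⟨z, hz1, hz2⟩ := H.c4 (e g) (e h) hg' hh' x y h1 h2 h3 h4 h5
    obtain ⟨i, hi⟩ := Subgroup.mem_zpowers_iff.1 hz1
    obtain ⟨j, hj⟩ := Subgroup.mem_zpowers_iff.1 hz2
    refine ⟨e.symm z, Subgroup.mem_zpowers_iff.2 ⟨i, e.injective ?_⟩,
      Subgroup.mem_zpowers_iff.2 ⟨j, e.injective ?_⟩⟩
    · rw [map_zpow, e.apply_symm_apply, hi]
    · rw [map_zpow, e.apply_symm_apply, hj]

end Burn
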