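import Pool.Agent.W_MP_3ab0ed_h44.Grad

/-!
Homology part of MP_3ab0ed_al.  The Koszul operators on `G →₀ Lam X`.
-/

namespace W3ab0ed

open Finsupp

set_option linter.unusedSectionVars false
set_option linter.unusedVariables false

/-- The module underlying the Koszul complex over the group ring of `G`. -/
abbrev KK (G X : Type) : Type := G →₀ Lam X

variable {G X : Type}

/-- All contractions at once. -/
noncomputable def Del : Lam X →ₗ[ℤ] (X →₀ Lam X) where
  toFun a := Finsupp.ofSupportFinite (fun x => ic x a) (finite_ic a)
  map_add' a b := Finsupp.ext fun x => map_add (ic x) a b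
  map_smul' n a := Finsupp.ext fun x => map_smul (ic x) n a

theorem Del_apply (a : Lam X) (x : X) : Del a x = ic x a := rfl

theorem Del_ew (y : X) (a : Lam X) :
    Del (ew y a) = Finsupp.single y a - Finsupp.mapRange.linearMap (ew y) (Del a) := by
  classical
  ext x : 1
  rw [Del_apply, ic_ew, Finsupp.sub_apply, Finsupp.mapRange.linearMap_apply,
    Finsupp.mapRange_apply, Del_apply, Finsupp.single_apply]
  congr 1
  by_cases h : x = y
  · subst h; simp
  · have h' : ¬ y = x := fun e => h e.symm
    simp [h, h']

variable [Group G]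

/-- The Koszul differential. -/
noncomputable def kd (t : X → G) : KK G X →ₗ[ℤ] KK G X :=
  Finsupp.lsum ℤ fun g =>
    (Finsupp.lsum ℤ fun x => (Finsupp.lsingle (g * t x) - Finsupp.lsingle g :
      Lam X →ₗ[ℤ] KK G X)) ∘ₗ Del

theorem kd_single (t : X → G) (g : G) (a : Lam X) :
    kd t (Finsupp.single g a) =
      (Del a).sum fun x b => Finsupp.single (g * t x) b - Finsupp.single g b := by
  simp only [kd, Finsupp.lsum_single, LinearMap.comp_apply]
  rw [Finsupp.lsum_apply]
  rfl

theorem kd_single_ew (t : X → G) (g : G) (y : X) (a : Lam X) :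
    kd t (Finsupp.single g (ew y a)) =
      Finsupp.single (g * t y) a - Finsupp.single g a
        - Finsupp.mapRange.linearMap (ew y) (kd t (Finsupp.single g a)) := by
  have key : ∀ D : X →₀ Lam X,
      (Finsupp.mapRange.linearMap (ew y) D).sum
        (fun x b => (Finsupp.single (g * t x) b - Finsupp.single g b : KK G X)) =
      Finsupp.mapRange.linearMap (ew y)
        (D.sum fun x b => (Finsupp.single (g * t x) b - Finsupp.single g b : KK G X)) := by
    intro D
    induction D using Finsupp.induction_linear with
    | zero => simp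
    | add u v hu hv =>
      rw [map_add, Finsupp.sum_add_index' (by simp) (by intro x b c; simp [Finsupp.single_add]; abel),
        Finsupp.sum_add_index' (by simp) (by intro x b c; simp [Finsupp.single_add]; abel),
        hu, hv, map_add]
    | single x b =>
      rw [Finsupp.mapRange.linearMap_apply, Finsupp.mapRange_single,
        Finsupp.sum_single_index (by simp), Finsupp.sum_single_index (by simp), map_sub,
        Finsupp.mapRange.linearMap_apply, Finsupp.mapRange.linearMap_apply,
        Finsupp.mapRange_single, Finsupp.mapRange_single]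
  rw [kd_single, kd_single, Del_ew, ← key]
  rw [sub_eq_add_neg (Finsupp.single y a), Finsupp.sum_add_index' (by simp)
    (by intro x b c; simp [Finsupp.single_add]; abel), Finsupp.sum_single_index (by simp),
    Finsupp.sum_neg_index (by simp), sub_eq_add_neg _
    ((Finsupp.mapRange.linearMap (ew y) (Del a)).sum _)]
  congr 1
  rw [Finsupp.sum, Finsupp.sum, ← Finset.sum_neg_distrib]
  refine Finset.sum_congr rfl fun x _ => ?_
  simp only [Finsupp.single_neg]
  abel

theorem kd_single_one (t : X → G) (g : G) : kd t (Finsupp.single g (1 : Lam X)) = 0 := by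
  rw [kd_single]
  have : Del (1 : Lam X) = 0 := by
    ext x : 1
    simp [Del_apply]
  rw [this, Finsupp.sum_zero_index]

/-- Left multiplication by a basis element. -/
noncomputable def kh (x : X) : KK G X →ₗ[ℤ] KK G X := Finsupp.mapRange.linearMap (ew x)

/-- Contraction by a basis element. -/
noncomputable def ki (x : X) : KK G X →ₗ[ℤ] KK G X := Finsupp.mapRange.linearMap (ic x)

/-- Right translation by an element of the group, without action on the exterior algebra. -/
noncomputable def kT (g0 : G) : KK G X →ₗ[ℤ] KK G X := Finsupp.lmapDomain _ ℤ (fun g => g * g0)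

/-- Left translation. -/
noncomputable def kL (g0 : G) : KK G X →ₗ[ℤ] KK G X := Finsupp.lmapDomain _ ℤ (fun g => g0 * g)

theorem kh_single (x : X) (g : G) (a : Lam X) :
    kh x (Finsupp.single g a) = Finsupp.single g (ew x a) := by
  simp [kh]

theorem ki_single (x : X) (g : G) (a : Lam X) :
    ki x (Finsupp.single g a) = Finsupp.single g (ic x a) := by
  simp [ki]

theorem kT_single (g0 g : G) (a : Lam X) :
    kT g0 (Finsupp.single g a) = Finsupp.single (g * g0) a := by
  simp [kT, Finsupp.mapDomain_single]

theorem kL_single (g0 g : G) (a : Lam X) :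
    kL g0 (Finsupp.single g a) = Finsupp.single (g0 * g) a := by
  simp [kL, Finsupp.mapDomain_single]

/-- Induction principle for the Koszul module. -/
theorem kk_ind {p : KK G X → Prop} (h1 : ∀ g, p (Finsupp.single g 1))
    (h0 : p 0) (hadd : ∀ a b, p a → p b → p (a + b)) (hneg : ∀ a, p a → p (-a))
    (hew : ∀ x g a, p (Finsupp.single g a) → p (Finsupp.single g (ew x a))) (k : KK G X) :
    p k := by
  induction k using Finsupp.induction_linear with
  | zero => exact h0
  | add a b ha hb => exact hadd a b ha hb
  | single g a =>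
    induction a using lam_ind with
    | h1 => exact h1 g
    | hadd a b ha hb => rw [Finsupp.single_add]; exact hadd _ _ ha hb
    | hneg a ha => rw [Finsupp.single_neg]; exact hneg _ ha
    | hew x a ha => exact hew x g a ha

theorem kh_kh (x : X) (k : KK G X) : kh x (kh x k) = 0 := by
  ext g : 1
  simp [kh, ew_ew]

theorem ki_ki (x : X) (k : KK G X) : ki x (ki x k) = 0 := by
  ext g : 1
  simp [ki, ic_ic]

theorem ki_kh (x : X) (k : KK G X) : ki x (kh x k) = k - kh x (ki x k) := by
  classical
  ext g : 1
  simp [ki, kh, ic_ew]

/-- The homotopy formula. -/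
theorem kd_kh (t : X → G) (x : X) (k : KK G X) :
    kd t (kh x k) + kh x (kd t k) = kT (t x) k - k := by
  induction k using Finsupp.induction_linear with
  | zero => simp
  | add a b ha hb =>
    simp only [map_add]
    have : kd t (kh x a) + kd t (kh x b) + (kh x (kd t a) + kh x (kd t b)) =
      (kd t (kh x a) + kh x (kd t a)) + (kd t (kh x b) + kh x (kd t b)) := by abel
    rw [this, ha, hb]
    abel
  | single g a =>
    rw [kh_single, kd_single_ew, kT_single]
    simp only [kh]
    abel

theorem kd_kT (t : X → G) (g0 : G) (hg : ∀ x, t x * g0 = g0 * t x) (k : KK G X) :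
    kd t (kT g0 k) = kT g0 (kd t k) := by
  induction k using kk_ind with
  | h1 g => rw [kT_single, kd_single_one, kd_single_one, map_zero]
  | h0 => simp
  | hadd a b ha hb => simp only [map_add, ha, hb]
  | hneg a ha => simp only [map_neg, ha]
  | hew x g a ha =>
    rw [kT_single] at ha ⊢
    rw [kd_single_ew, kd_single_ew, map_sub, map_sub, kT_single, kT_single, ha]
    rw [mul_assoc, mul_assoc, hg]
    congr 1
    generalize kd t (Finsupp.single g a) = z
    induction z using Finsupp.induction_linear with
    | zero => simp
    | add u v hu hv => simp only [map_add, hu, hv]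
    | single g' b =>
      rw [kT_single, Finsupp.mapRange.linearMap_apply, Finsupp.mapRange.linearMap_apply,
        Finsupp.mapRange_single, Finsupp.mapRange_single, kT_single]

theorem kd_kL (t : X → G) (g0 : G) (k : KK G X) : kd t (kL g0 k) = kL g0 (kd t k) := by
  induction k using kk_ind with
  | h1 g => rw [kL_single, kd_single_one, kd_single_one, map_zero]
  | h0 => simp
  | hadd a b ha hb => simp only [map_add, ha, hb]
  | hneg a ha => simp only [map_neg, ha]
  | hew x g a ha =>
    rw [kL_single] at ha ⊢
    rw [kd_single_ew, kd_single_ew, map_sub, map_sub, kL_single, kL_single, ha]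
    rw [mul_assoc]
    congr 1
    generalize kd t (Finsupp.single g a) = z
    induction z using Finsupp.induction_linear with
    | zero => simp
    | add u v hu hv => simp only [map_add, hu, hv]
    | single g' b =>
      rw [kL_single, Finsupp.mapRange.linearMap_apply, Finsupp.mapRange.linearMap_apply,
        Finsupp.mapRange_single, Finsupp.mapRange_single, kL_single]

theorem kd_kd (t : X → G) (ht : ∀ x y, t x * t y = t y * t x) (k : KK G X) :
    kd t (kd t k) = 0 := by
  induction k using kk_ind with
  | h1 g => rw [kd_single_one, map_zero]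
  | h0 => simp
  | hadd a b ha hb => simp only [map_add, ha, hb, add_zero]
  | hneg a ha => simp only [map_neg, ha, neg_zero]
  | hew x g a ha =>
    have h1 := kd_kh t x (Finsupp.single g a)
    have h2 := kd_kh t x (kd t (Finsupp.single g a))
    rw [ha, map_zero, add_zero] at h2
    have h3 : kd t (kh x (Finsupp.single g a)) =
        kT (t x) (Finsupp.single g a) - Finsupp.single g a - kh x (kd t (Finsupp.single g a)) := by
      rw [← h1]; abel
    rw [← kh_single, h3, map_sub, map_sub, h2, kd_kT t (t x) (fun y => ht y x)]
    abel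

theorem ki_kd (t : X → G) (x : X) (k : KK G X) : ki x (kd t k) = - kd t (ki x k) := by
  classical
  induction k using kk_ind with
  | h1 g => rw [kd_single_one, map_zero, ki_single, ic_one, Finsupp.single_zero, map_zero, neg_zero]
  | h0 => simp
  | hadd a b ha hb => simp only [map_add, ha, hb, neg_add]
  | hneg a ha => simp only [map_neg, ha]
  | hew y g a ha =>
    have hk : ∀ z : KK G X, ki x (kh y z) = (if x = y then z else 0) - kh y (ki x z) := by
      intro z
      ext g : 1
      simp only [ki, kh, Finsupp.mapRange.linearMap_apply, Finsupp.mapRange_apply, ic_ew,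
        Finsupp.sub_apply]
      split_ifs <;> simp
    have h1 := kd_kh t y (Finsupp.single g a)
    have h3 : kd t (kh y (Finsupp.single g a)) =
        kT (t y) (Finsupp.single g a) - Finsupp.single g a - kh y (kd t (Finsupp.single g a)) := by
      rw [← h1]; abel
    have h4 := kd_kh t y (ki x (Finsupp.single g a))
    have h5 : kd t (kh y (ki x (Finsupp.single g a))) = kT (t y) (ki x (Finsupp.single g a))
        - ki x (Finsupp.single g a) - kh y (kd t (ki x (Finsupp.single g a))) := by
      rw [← h4]; abel
    rw [← kh_single, h3, hk, map_sub, map_sub, map_sub, hk, ha, h5]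
    have h6 : ki x (kT (t y) (Finsupp.single g a)) = kT (t y) (ki x (Finsupp.single g a)) := by
      rw [kT_single, ki_single, ki_single, kT_single]
    rw [h6, map_neg]
    split_ifs with h
    · abel
    · rw [map_zero]; abel

/-- The graded pieces of the Koszul module. -/
def kgr (G X : Type) (n : ℤ) : Submodule ℤ (KK G X) where
  carrier := {k | ∀ g, k g ∈ gr X n}
  add_mem' ha hb g := Submodule.add_mem _ (ha g) (hb g)
  zero_mem' g := Submodule.zero_mem _
  smul_mem' n k hk g := Submodule.smul_mem _ n (hk g)

theorem mem_kgr {n : ℤ} {k : KK G X} : k ∈ kgr G X n ↔ ∀ g, k g ∈ gr X n := Iff.rfl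

theorem kh_mem {n : ℤ} (x : X) {k : KK G X} (hk : k ∈ kgr G X n) : kh x k ∈ kgr G X (n + 1) := by
  intro g
  simp only [kh, Finsupp.mapRange.linearMap_apply, Finsupp.mapRange_apply]
  exact ew_mem_gr x (hk g)

theorem ki_mem {n : ℤ} (x : X) {k : KK G X} (hk : k ∈ kgr G X n) : ki x k ∈ kgr G X (n - 1) := by
  intro g
  simp only [ki, Finsupp.mapRange.linearMap_apply, Finsupp.mapRange_apply]
  exact ic_mem_gr x (hk g)

theorem single_mem_kgr {n : ℤ} (g : G) {a : Lam X} (ha : a ∈ gr X n) :
    (Finsupp.single g a : KK G X) ∈ kgr G X n := by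
  classical
  intro g'
  rw [Finsupp.single_apply]
  split_ifs
  · exact ha
  · exact Submodule.zero_mem _

theorem kd_mem (t : X → G) {n : ℤ} {k : KK G X} (hk : k ∈ kgr G X n) :
    kd t k ∈ kgr G X (n - 1) := by
  rw [← Finsupp.sum_single k, Finsupp.sum, map_sum]
  refine Submodule.sum_mem _ fun g _ => ?_
  rw [kd_single, Finsupp.sum]
  refine Submodule.sum_mem _ fun x _ => ?_
  have h : Del (k g) x ∈ gr X (n - 1) := ic_mem_gr x (hk g)
  exact Submodule.sub_mem _ (single_mem_kgr _ h) (single_mem_kgr _ h)

theorem kT_mem (g0 : G) {n : ℤ} {k : KK G X} (hk : k ∈ kgr G X n) : kT g0 k ∈ kgr G X n := by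
  rw [← Finsupp.sum_single k, Finsupp.sum, map_sum]
  refine Submodule.sum_mem _ fun g _ => ?_
  rw [kT_single]
  exact single_mem_kgr _ (hk g)

theorem kL_mem (g0 : G) {n : ℤ} {k : KK G X} (hk : k ∈ kgr G X n) : kL g0 k ∈ kgr G X n := by
  rw [← Finsupp.sum_single k, Finsupp.sum, map_sum]
  refine Submodule.sum_mem _ fun g _ => ?_
  rw [kL_single]
  exact single_mem_kgr _ (hk g)

/-- The subcomplex of elements not involving the basis elements outside `Y`. -/
def kY (G : Type) {X : Type} (Y : Set X) : Submodule ℤ (KK G X) where
  carrier := {k | ∀ y, y ∉ Y → ∀ g, ic y (k g) = 0}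
  add_mem' ha hb y hy g := by rw [Finsupp.add_apply, map_add, ha y hy g, hb y hy g, add_zero]
  zero_mem' y _ g := by simp
  smul_mem' n k hk y hy g := by rw [Finsupp.smul_apply, map_smul, hk y hy g, smul_zero]

theorem mem_kY {Y : Set X} {k : KK G X} : k ∈ kY G Y ↔ ∀ y, y ∉ Y → ki y k = 0 := by
  constructor
  · intro h y hy
    ext g : 1
    simpa [ki] using h y hy g
  · intro h y hy g
    have := DFunLike.congr_fun (h y hy) g
    simpa [ki] using this

theorem kd_mem_kY (t : X → G) {Y : Set X} {k : KK G X} (hk : k ∈ kY G Y) : kd t k ∈ kY G Y := by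
  rw [mem_kY] at hk ⊢
  intro y hy
  rw [ki_kd, hk y hy, map_zero, neg_zero]

end W3ab0ed
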