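import Pool.Agent.W_MP_3ab0ed_h44.Fox

/-!
Homology part of MP_3ab0ed_al.  The total complex, for an abelian group with a differential, a
right action of a free group and homotopy operators.
-/

namespace W3ab0ed

open Finsupp

set_option linter.unusedSectionVars false

/-- The module underlying the total complex. -/
abbrev Tot (κ I A : Type) [AddCommGroup A] : Type := A × (κ →₀ A) × (I →₀ (A × A))

variable {κ I A B C : Type} [AddCommGroup A] [AddCommGroup B] [AddCommGroup C]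

/-- The functor `Tot` on maps. -/
noncomputable def totMap (θ : A →ₗ[ℤ] B) : Tot κ I A →ₗ[ℤ] Tot κ I B :=
  θ.prodMap ((Finsupp.mapRange.linearMap θ).prodMap (Finsupp.mapRange.linearMap (θ.prodMap θ)))

/-- The differential of a face. -/
noncomputable def faced (d : A →ₗ[ℤ] A) (R : FreeGroup κ → (A →ₗ[ℤ] A)) (f : FreeGroup κ) :
    A × A →ₗ[ℤ] A × A :=
  LinearMap.prod (d ∘ₗ LinearMap.fst ℤ A A + (R f - LinearMap.id) ∘ₗ LinearMap.snd ℤ A A)
    (- (d ∘ₗ LinearMap.snd ℤ A A))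

/-- The differential of all the faces. -/
noncomputable def facesd (d : A →ₗ[ℤ] A) (R : FreeGroup κ → (A →ₗ[ℤ] A)) (a : I → FreeGroup κ) :
    (I →₀ (A × A)) →ₗ[ℤ] (I →₀ (A × A)) :=
  Finsupp.lsum ℤ fun i => (Finsupp.lsingle i) ∘ₗ faced d R (a i)

/-- The first component of the connecting map. -/
noncomputable def th1 (h : I → (A →ₗ[ℤ] A)) : (I →₀ (A × A)) →ₗ[ℤ] A :=
  - Finsupp.lsum ℤ fun i => h i ∘ₗ LinearMap.fst ℤ A A

/-- The second component of the connecting map. -/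
noncomputable def th2 (R : FreeGroup κ → (A →ₗ[ℤ] A)) (h : I → (A →ₗ[ℤ] A))
    (a : I → FreeGroup κ) (p : ℕ) : (I →₀ (A × A)) →ₗ[ℤ] (κ →₀ A) :=
  Finsupp.lsum ℤ fun i => PP R (a i ^ p) ∘ₗ LinearMap.fst ℤ A A +
    PP R (a i) ∘ₗ h i ∘ₗ LinearMap.snd ℤ A A

/-- The differential of the total complex. -/
noncomputable def totd (d : A →ₗ[ℤ] A) (R : FreeGroup κ → (A →ₗ[ℤ] A))
    (h : I → (A →ₗ[ℤ] A)) (a : I → FreeGroup κ) (p : ℕ) : Tot κ I A →ₗ[ℤ] Tot κ I A where
  toFun v := (d v.1 + del R v.2.1 + th1 h v.2.2,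
    - Finsupp.mapRange.linearMap d v.2.1 + th2 R h a p v.2.2,
    facesd d R a v.2.2)
  map_add' v w := by
    simp only [Prod.fst_add, Prod.snd_add, map_add, Prod.mk_add_mk, neg_add]
    congr 1
    · abel
    · congr 1
      abel
  map_smul' n v := by
    simp only [Prod.smul_fst, Prod.smul_snd, map_smul, RingHom.id_apply, Prod.smul_mk, smul_add,
      smul_neg]

theorem totMap_apply (θ : A →ₗ[ℤ] B) (v : Tot κ I A) :
    totMap θ v = (θ v.1, Finsupp.mapRange.linearMap θ v.2.1,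
      Finsupp.mapRange.linearMap (θ.prodMap θ) v.2.2) := rfl

theorem totd_apply (d : A →ₗ[ℤ] A) (R : FreeGroup κ → (A →ₗ[ℤ] A))
    (h : I → (A →ₗ[ℤ] A)) (a : I → FreeGroup κ) (p : ℕ) (v : Tot κ I A) :
    totd d R h a p v = (d v.1 + del R v.2.1 + th1 h v.2.2,
    - Finsupp.mapRange.linearMap d v.2.1 + th2 R h a p v.2.2,
    facesd d R a v.2.2) := rfl

theorem th1_single (h : I → (A →ₗ[ℤ] A)) (i : I) (w : A × A) :
    th1 h (Finsupp.single i w) = - h i w.1 := by
  simp [th1]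

theorem th2_single (R : FreeGroup κ → (A →ₗ[ℤ] A)) (h : I → (A →ₗ[ℤ] A))
    (a : I → FreeGroup κ) (p : ℕ) (i : I) (w : A × A) :
    th2 R h a p (Finsupp.single i w) = PP R (a i ^ p) w.1 + PP R (a i) (h i w.2) := by
  simp [th2]

theorem facesd_single (d : A →ₗ[ℤ] A) (R : FreeGroup κ → (A →ₗ[ℤ] A)) (a : I → FreeGroup κ)
    (i : I) (w : A × A) :
    facesd d R a (Finsupp.single i w) =
      Finsupp.single i (d w.1 + (R (a i) w.2 - w.2), - d w.2) := by
  simp [facesd, faced]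

theorem facesd_apply (d : A →ₗ[ℤ] A) (R : FreeGroup κ → (A →ₗ[ℤ] A)) (a : I → FreeGroup κ)
    (w : I →₀ (A × A)) (i : I) :
    facesd d R a w i = (d (w i).1 + (R (a i) (w i).2 - (w i).2), - d (w i).2) := by
  classical
  induction w using Finsupp.induction_linear with
  | zero =>
    simp
    rfl
  | add u v hu hv =>
    rw [map_add, Finsupp.add_apply, hu, hv, Finsupp.add_apply]
    simp only [Prod.fst_add, Prod.snd_add, map_add, Prod.mk_add_mk, neg_add]
    congr 1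
    abel
  | single j w =>
    rw [facesd_single]
    by_cases h : j = i
    · subst h
      simp
    · rw [Finsupp.single_eq_of_ne (Ne.symm h), Finsupp.single_eq_of_ne (Ne.symm h)]
      simp
      rfl

theorem totMap_comp (θ : A →ₗ[ℤ] B) (η : B →ₗ[ℤ] C) (v : Tot κ I A) :
    totMap η (totMap θ v) = totMap (η ∘ₗ θ) v := by
  refine Prod.ext rfl (Prod.ext ?_ ?_)
  · ext s
    simp [totMap]
  · ext s
    · simp [totMap]
    · simp [totMap]

theorem totMap_id (v : Tot κ I A) : totMap (LinearMap.id) v = v := by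
  refine Prod.ext rfl (Prod.ext ?_ ?_)
  · ext s
    simp [totMap]
  · ext s
    · simp [totMap]
    · simp [totMap]

/-- Naturality of the total differential. -/
theorem totd_nat {d : A →ₗ[ℤ] A} {R : FreeGroup κ → (A →ₗ[ℤ] A)} {h : I → (A →ₗ[ℤ] A)}
    {d' : B →ₗ[ℤ] B} {R' : FreeGroup κ → (B →ₗ[ℤ] B)} {h' : I → (B →ₗ[ℤ] B)}
    (a : I → FreeGroup κ) (p : ℕ) (θ : A →ₗ[ℤ] B)
    (hd : ∀ x, θ (d x) = d' (θ x)) (hR : ∀ f x, θ (R f x) = R' f (θ x))
    (hh : ∀ i x, θ (h i x) = h' i (θ x)) (v : Tot κ I A) :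
    totMap θ (totd d R h a p v) = totd d' R' h' a p (totMap θ v) := by
  obtain ⟨k, u, w⟩ := v
  rw [totd_apply, totMap_apply, totd_apply, totMap_apply]
  simp only
  refine Prod.ext ?_ (Prod.ext ?_ ?_)
  · simp only [map_add]
    rw [hd, del_nat R R' θ hR]
    congr 1
    induction w using Finsupp.induction_linear with
    | zero => simp
    | add u v hu hv => simp only [map_add, hu, hv]
    | single i w =>
      rw [th1_single, map_neg, hh, Finsupp.mapRange.linearMap_apply, Finsupp.mapRange_single,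
        th1_single]
      rfl
  · simp only [map_add, map_neg]
    congr 1
    · congr 1
      ext s
      simp only [Finsupp.mapRange.linearMap_apply, Finsupp.mapRange_apply, hd]
    · induction w using Finsupp.induction_linear with
      | zero => simp
      | add u v hu hv => simp only [map_add, hu, hv]
      | single i w =>
        rw [th2_single, Finsupp.mapRange.linearMap_apply (f := θ.prodMap θ),
          Finsupp.mapRange_single, th2_single, map_add]
        ext s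
        simp only [Finsupp.mapRange.linearMap_apply, Finsupp.add_apply, Finsupp.mapRange_apply]
        rw [PP_nat R R' θ hR, PP_nat R R' θ hR, hh]
        rfl
  · change Finsupp.mapRange.linearMap (θ.prodMap θ) (facesd d R a w) =
      facesd d' R' a (Finsupp.mapRange.linearMap (θ.prodMap θ) w)
    induction w using Finsupp.induction_linear with
    | zero => simp
    | add u v hu hv => simp only [map_add, hu, hv]
    | single i w =>
      rw [facesd_single, Finsupp.mapRange.linearMap_apply, Finsupp.mapRange_single,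
        Finsupp.mapRange.linearMap_apply, Finsupp.mapRange_single, facesd_single]
      simp only [LinearMap.prodMap_apply, map_add, map_sub, map_neg, hd, hR]

/-- The relations making the total differential a differential. -/
structure TotOK (d : A →ₗ[ℤ] A) (R : FreeGroup κ → (A →ₗ[ℤ] A))
    (h : I → (A →ₗ[ℤ] A)) (a : I → FreeGroup κ) (p : ℕ) : Prop where
  dd : ∀ x, d (d x) = 0
  R1 : ∀ x, R 1 x = x
  Rm : ∀ f g x, R (f * g) x = R g (R f x)
  dR : ∀ f x, d (R f x) = R f (d x)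
  Rh : ∀ i x, R (a i) (h i x) = h i (R (a i) x)
  dh : ∀ i x, d (h i x) + h i (d x) = R (a i ^ p) x - x

theorem TotOK.geom {d : A →ₗ[ℤ] A} {R : FreeGroup κ → (A →ₗ[ℤ] A)}
    {h : I → (A →ₗ[ℤ] A)} {a : I → FreeGroup κ} {p : ℕ} (H : TotOK d R h a p)
    (f : FreeGroup κ) (n : ℕ) (x : A) :
    ∑ j ∈ Finset.range n, R (f ^ j) (R f x - x) = R (f ^ n) x - x := by
  induction n with
  | zero => simp [H.R1]
  | succ n ih =>
    rw [Finset.sum_range_succ, ih, map_sub, ← H.Rm, ← pow_succ']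
    abel

theorem TotOK.geom' {d : A →ₗ[ℤ] A} {R : FreeGroup κ → (A →ₗ[ℤ] A)}
    {h : I → (A →ₗ[ℤ] A)} {a : I → FreeGroup κ} {p : ℕ} (H : TotOK d R h a p)
    (f : FreeGroup κ) (n : ℕ) (x : A) :
    R f (∑ j ∈ Finset.range n, R (f ^ j) x) - ∑ j ∈ Finset.range n, R (f ^ j) x =
      R (f ^ n) x - x := by
  rw [map_sum, ← Finset.sum_sub_distrib, ← H.geom f n x]
  refine Finset.sum_congr rfl fun j _ => ?_
  rw [map_sub, ← H.Rm, ← H.Rm, ← pow_succ, ← pow_succ']

theorem TotOK.totd_totd {d : A →ₗ[ℤ] A} {R : FreeGroup κ → (A →ₗ[ℤ] A)}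
    {h : I → (A →ₗ[ℤ] A)} {a : I → FreeGroup κ} {p : ℕ} (H : TotOK d R h a p)
    (v : Tot κ I A) : totd d R h a p (totd d R h a p v) = 0 := by
  obtain ⟨k, u, w⟩ := v
  have e1 : ∀ u : κ →₀ A, d (del R u) = del R (Finsupp.mapRange.linearMap d u) :=
    del_nat R R d H.dR
  have e2 : ∀ u : κ →₀ A, Finsupp.mapRange.linearMap d (Finsupp.mapRange.linearMap d u) = 0 := by
    intro u
    ext s
    simp [H.dd]
  have e3 : ∀ f x, Finsupp.mapRange.linearMap d (PP R f x) = PP R f (d x) := by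
    intro f x
    ext s
    rw [Finsupp.mapRange.linearMap_apply, Finsupp.mapRange_apply]
    exact PP_nat R R d H.dR f x s
  have hth : ∀ w : I →₀ (A × A),
      d (th1 h w) + del R (th2 R h a p w) + th1 h (facesd d R a w) = 0 ∧
      - Finsupp.mapRange.linearMap d (th2 R h a p w) + th2 R h a p (facesd d R a w) = 0 ∧
      facesd d R a (facesd d R a w) = 0 := by
    intro w
    induction w using Finsupp.induction_linear with
    | zero => simp
    | add u v hu hv =>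
      simp only [map_add, neg_add]
      refine ⟨?_, ?_, ?_⟩
      · have := congrArg₂ (· + ·) hu.1 hv.1
        simp only [add_zero] at this
        rw [← this]
        abel
      · have := congrArg₂ (· + ·) hu.2.1 hv.2.1
        simp only [add_zero] at this
        rw [← this]
        abel
      · rw [hu.2.2, hv.2.2, add_zero]
    | single i w =>
      rw [th1_single, th2_single, facesd_single, th1_single, th2_single, facesd_single]
      simp only [map_add, map_neg, map_sub, del_PP R H.R1 H.Rm, H.dd, e3, H.Rh, H.dR]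
      have h1 := H.dh i w.1
      have h2 := H.dh i w.2
      refine ⟨?_, ?_, ?_⟩
      · have h1' : d (h i w.1) = R (a i ^ p) w.1 - w.1 - h i (d w.1) := by rw [← h1]; abel
        rw [h1']
        abel
      · have h2' : d (h i w.2) = R (a i ^ p) w.2 - w.2 - h i (d w.2) := by rw [← h2]; abel
        rw [h2', map_sub, map_sub, PP_pow R H.Rm (a i) p (R (a i) w.2),
          PP_pow R H.Rm (a i) p w.2, PP_pow R H.Rm (a i) p (d w.1)]
        have h3 := congrArg (PP R (a i)) (H.geom (a i) p w.2)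
        simp only [map_sub, Finset.sum_sub_distrib] at h3
        rw [← h3]
        abel
      · simp
  rw [totd_apply, totd_apply]
  simp only [map_add, map_neg]
  refine Prod.ext ?_ (Prod.ext ?_ ?_)
  · simp only [Prod.fst_zero]
    refine Eq.trans ?_ (hth w).1
    rw [H.dd, e1]
    abel
  · simp only [Prod.fst_zero, Prod.snd_zero]
    refine Eq.trans ?_ (hth w).2.1
    rw [e2]
    abel
  · exact (hth w).2.2

/-- The grading of the total complex. -/
def tgr (κ : Type) (g : ℤ → Submodule ℤ A) (fr : I → Submodule ℤ A) (n : ℤ) :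
    Submodule ℤ (Tot κ I A) where
  carrier := {v | v.1 ∈ g n ∧ (∀ s, v.2.1 s ∈ g (n - 1)) ∧
    ∀ i, (v.2.2 i).1 ∈ g (n - 2) ⊓ fr i ∧ (v.2.2 i).2 ∈ g (n - 3) ⊓ fr i}
  add_mem' hv hw := ⟨Submodule.add_mem _ hv.1 hw.1,
    fun s => Submodule.add_mem _ (hv.2.1 s) (hw.2.1 s),
    fun i => ⟨Submodule.add_mem _ (hv.2.2 i).1 (hw.2.2 i).1,
      Submodule.add_mem _ (hv.2.2 i).2 (hw.2.2 i).2⟩⟩
  zero_mem' := ⟨Submodule.zero_mem _, fun _ => Submodule.zero_mem _,
    fun _ => ⟨Submodule.zero_mem _, Submodule.zero_mem _⟩⟩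
  smul_mem' n _ hv := ⟨Submodule.smul_mem _ n hv.1,
    fun s => Submodule.smul_mem _ n (hv.2.1 s),
    fun i => ⟨Submodule.smul_mem _ n (hv.2.2 i).1, Submodule.smul_mem _ n (hv.2.2 i).2⟩⟩

theorem mem_tgr {g : ℤ → Submodule ℤ A} {fr : I → Submodule ℤ A} {n : ℤ} {v : Tot κ I A} :
    v ∈ tgr κ g fr n ↔ v.1 ∈ g n ∧ (∀ s, v.2.1 s ∈ g (n - 1)) ∧
    ∀ i, (v.2.2 i).1 ∈ g (n - 2) ⊓ fr i ∧ (v.2.2 i).2 ∈ g (n - 3) ⊓ fr i := Iff.rfl

theorem ev_mem {R : FreeGroup κ → (A →ₗ[ℤ] A)} {S : Submodule ℤ A}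
    (hS : ∀ f, ∀ x ∈ S, R f x ∈ S) {x : A} (hx : x ∈ S) (z : FreeGroup κ →₀ ℤ) :
    ev R x z ∈ S := by
  induction z using Finsupp.induction_linear with
  | zero => rw [map_zero]; exact Submodule.zero_mem _
  | add u v hu hv => rw [map_add]; exact Submodule.add_mem _ hu hv
  | single g n => rw [ev_single]; exact Submodule.smul_mem _ n (hS g x hx)

theorem PP_mem {R : FreeGroup κ → (A →ₗ[ℤ] A)} {S : Submodule ℤ A}
    (hS : ∀ f, ∀ x ∈ S, R f x ∈ S) {x : A} (hx : x ∈ S) (f : FreeGroup κ) (s : κ) :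
    PP R f x s ∈ S := ev_mem hS hx _

theorem del_mem {R : FreeGroup κ → (A →ₗ[ℤ] A)} {S : Submodule ℤ A}
    (hS : ∀ f, ∀ x ∈ S, R f x ∈ S) {u : κ →₀ A} (hu : ∀ s, u s ∈ S) :
    del R u ∈ S := by
  rw [← Finsupp.sum_single u, Finsupp.sum, map_sum]
  refine Submodule.sum_mem _ fun s _ => ?_
  rw [del_single]
  exact Submodule.sub_mem _ (hS _ _ (hu s)) (hu s)

/-- The compatibility of the operators with the grading. -/
structure TotGr (d : A →ₗ[ℤ] A) (R : FreeGroup κ → (A →ₗ[ℤ] A))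
    (h : I → (A →ₗ[ℤ] A)) (a : I → FreeGroup κ) (g : ℤ → Submodule ℤ A)
    (fr : I → Submodule ℤ A) : Prop where
  dg : ∀ n x, x ∈ g n → d x ∈ g (n - 1)
  Rg : ∀ n f x, x ∈ g n → R f x ∈ g n
  hg : ∀ n i x, x ∈ g n → h i x ∈ g (n + 1)
  dfr : ∀ i x, x ∈ fr i → d x ∈ fr i
  Rfr : ∀ i x, x ∈ fr i → R (a i) x ∈ fr i

theorem TotGr.th1_mem {d : A →ₗ[ℤ] A} {R : FreeGroup κ → (A →ₗ[ℤ] A)}
    {h : I → (A →ₗ[ℤ] A)} {a : I → FreeGroup κ} {g : ℤ → Submodule ℤ A}
    {fr : I → Submodule ℤ A} (H : TotGr d R h a g fr) {n : ℤ} {w : I →₀ (A × A)}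
    (hw : ∀ i, (w i).1 ∈ g n) : th1 h w ∈ g (n + 1) := by
  rw [← Finsupp.sum_single w, Finsupp.sum, map_sum]
  refine Submodule.sum_mem _ fun i _ => ?_
  rw [th1_single]
  exact Submodule.neg_mem _ (H.hg _ _ _ (hw i))

theorem TotGr.th2_mem {d : A →ₗ[ℤ] A} {R : FreeGroup κ → (A →ₗ[ℤ] A)}
    {h : I → (A →ₗ[ℤ] A)} {a : I → FreeGroup κ} {g : ℤ → Submodule ℤ A}
    {fr : I → Submodule ℤ A} (H : TotGr d R h a g fr) (p : ℕ) {n : ℤ} {w : I →₀ (A × A)}
    (hw : ∀ i, (w i).1 ∈ g n) (hw2 : ∀ i, (w i).2 ∈ g (n - 1)) (s : κ) :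
    th2 R h a p w s ∈ g n := by
  rw [← Finsupp.sum_single w, Finsupp.sum, map_sum, Finsupp.finsetSum_apply]
  refine Submodule.sum_mem _ fun i _ => ?_
  rw [th2_single, Finsupp.add_apply]
  refine Submodule.add_mem _ (PP_mem (H.Rg n) (hw i) _ _) (PP_mem (H.Rg n) ?_ _ _)
  have := H.hg _ i _ (hw2 i)
  rwa [sub_add_cancel] at this

theorem TotGr.facesd_mem {d : A →ₗ[ℤ] A} {R : FreeGroup κ → (A →ₗ[ℤ] A)}
    {h : I → (A →ₗ[ℤ] A)} {a : I → FreeGroup κ} {g : ℤ → Submodule ℤ A}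
    {fr : I → Submodule ℤ A} (H : TotGr d R h a g fr) {n : ℤ} {w : I →₀ (A × A)} (i : I)
    (hw : (w i).1 ∈ g n ⊓ fr i) (hw2 : (w i).2 ∈ g (n - 1) ⊓ fr i) :
    (facesd d R a w i).1 ∈ g (n - 1) ⊓ fr i ∧ (facesd d R a w i).2 ∈ g (n - 2) ⊓ fr i := by
  rw [facesd_apply]
  refine ⟨⟨?_, ?_⟩, ⟨?_, ?_⟩⟩
  · exact Submodule.add_mem _ (H.dg _ _ hw.1) (Submodule.sub_mem _ (H.Rg _ _ _ hw2.1) hw2.1)
  · exact Submodule.add_mem _ (H.dfr _ _ hw.2) (Submodule.sub_mem _ (H.Rfr _ _ hw2.2) hw2.2)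
  · have := H.dg _ _ hw2.1
    rw [sub_sub] at this
    exact Submodule.neg_mem _ (by simpa using this)
  · exact Submodule.neg_mem _ (H.dfr _ _ hw2.2)

theorem TotGr.totd_mem {d : A →ₗ[ℤ] A} {R : FreeGroup κ → (A →ₗ[ℤ] A)}
    {h : I → (A →ₗ[ℤ] A)} {a : I → FreeGroup κ} {g : ℤ → Submodule ℤ A}
    {fr : I → Submodule ℤ A} (H : TotGr d R h a g fr) (p : ℕ) {n : ℤ} {v : Tot κ I A}
    (hv : v ∈ tgr κ g fr n) : totd d R h a p v ∈ tgr κ g fr (n - 1) := by
  obtain ⟨h1, h2, h3⟩ := hv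
  rw [totd_apply]
  refine ⟨?_, ?_, ?_⟩
  · refine Submodule.add_mem _ (Submodule.add_mem _ (H.dg _ _ h1) (del_mem (H.Rg _) h2)) ?_
    have := H.th1_mem (n := n - 2) (fun i => (h3 i).1.1)
    rwa [show n - 2 + 1 = n - 1 by ring] at this
  · intro s
    simp only [Finsupp.add_apply, Finsupp.neg_apply, Finsupp.mapRange.linearMap_apply,
      Finsupp.mapRange_apply]
    refine Submodule.add_mem _ (Submodule.neg_mem _ (H.dg _ _ (h2 s))) ?_
    have := H.th2_mem p (n := n - 2) (fun i => (h3 i).1.1)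
      (fun i => by rw [show n - 2 - 1 = n - 3 by ring]; exact (h3 i).2.1) s
    rwa [show n - 1 - 1 = n - 2 by ring]
  · intro i
    have := H.facesd_mem (n := n - 2) i (h3 i).1
      (by rw [show n - 2 - 1 = n - 3 by ring]; exact (h3 i).2)
    rw [show n - 1 - 2 = n - 2 - 1 by ring, show n - 1 - 3 = n - 2 - 2 by ring]
    exact this

end W3ab0ed
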