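import Pool.Agent.W_MP_3ab0ed_h44.Dat

/-!
Homology part of MP_3ab0ed_al.  Exactness of the total complex over the group ring.
-/

namespace W3ab0ed

open Finsupp

set_option linter.unusedSectionVars false
set_option linter.unusedVariables false

variable {κ G Q X I : Type} [Group G] [Group Q] [MulAction (FreeGroup κ) X]

/-- The counit of the exterior algebra. -/
noncomputable def eps : Lam X →ₗ[ℤ] ℤ :=
  (ExteriorAlgebra.algebraMapInv (R := ℤ) (M := X →₀ ℤ)).toLinearMap

@[simp] theorem eps_one : eps (1 : Lam X) = 1 := by simp [eps]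

@[simp] theorem eps_ew (x : X) (b : Lam X) : eps (ew x b) = 0 := by
  simp [eps, ew_apply, ExteriorAlgebra.algebraMapInv]

theorem eq_eps {b : Lam X} (hb : b ∈ gr X 0) : b = eps b • (1 : Lam X) := by
  obtain ⟨c, rfl⟩ := mem_gr_zero.1 hb
  rw [map_smul, eps_one]
  simp

theorem eps_bR (f : FreeGroup κ) (b : Lam X) : eps (bR f b) = eps b := by
  induction b using lam_ind with
  | h1 => simp
  | hadd a b ha hb => simp only [map_add, ha, hb]
  | hneg a ha => simp only [map_neg, ha]
  | hew x a ha => rw [bR_ew, eps_ew, eps_ew]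

/-- The passage to the group ring of the quotient in degree zero. -/
noncomputable def kq (π : G →* Q) : KK G X →ₗ[ℤ] (Q →₀ ℤ) :=
  Finsupp.lsum ℤ fun g => Finsupp.lsingle (π g) ∘ₗ eps

theorem kq_single (π : G →* Q) (g : G) (b : Lam X) :
    kq π (Finsupp.single g b) = Finsupp.single (π g) (eps b) := by
  simp [kq]

theorem kq_kR (φ : FreeGroup κ →* G) (π : G →* Q) (f : FreeGroup κ) (k : KK G X) :
    kq π (kR φ f k) = RQ φ π f (kq π k) := by
  induction k using Finsupp.induction_linear with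
  | zero => simp
  | add a b ha hb => simp only [map_add, ha, hb]
  | single g b =>
    rw [kR_single, kq_single, kq_single, eps_bR, map_mul]
    simp [RQ, Finsupp.mapDomain_single]

theorem kq_kh (π : G →* Q) (x : X) (k : KK G X) : kq π (kh x k) = 0 := by
  induction k using Finsupp.induction_linear with
  | zero => simp
  | add a b ha hb => simp only [map_add, ha, hb, add_zero]
  | single g b => rw [kh_single, kq_single, eps_ew, Finsupp.single_zero]

theorem kq_kd (π : G →* Q) (t : X → G) (ht : ∀ x, π (t x) = 1) (k : KK G X) :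
    kq π (kd t k) = 0 := by
  induction k using kk_ind with
  | h1 g => rw [kd_single_one, map_zero]
  | h0 => simp
  | hadd a b ha hb => simp only [map_add, ha, hb, add_zero]
  | hneg a ha => simp only [map_neg, ha, neg_zero]
  | hew x g a ha =>
    have h1 := kq_kh π x (kd t (Finsupp.single g a))
    unfold kh at h1
    rw [kd_single_ew, map_sub, map_sub, kq_single, kq_single, map_mul, ht, mul_one, h1]
    simp

/-- A section of the passage to the quotient. -/
theorem exists_lift {π : G →* Q} (hπ : Function.Surjective π) (z : Q →₀ ℤ) :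
    ∃ k ∈ kgr G X 0, kq π k = z := by
  induction z using Finsupp.induction_linear with
  | zero => exact ⟨0, Submodule.zero_mem _, map_zero _⟩
  | add u v hu hv =>
    obtain ⟨k1, h1, e1⟩ := hu
    obtain ⟨k2, h2, e2⟩ := hv
    exact ⟨k1 + k2, Submodule.add_mem _ h1 h2, by rw [map_add, e1, e2]⟩
  | single q n =>
    obtain ⟨g, rfl⟩ := hπ q
    refine ⟨Finsupp.single g (n • (1 : Lam X)), single_mem_kgr _ (mem_gr_zero.2 ⟨n, rfl⟩), ?_⟩
    rw [kq_single, map_smul, eps_one]
    simp

theorem mapDomain_kgr0 (π : G →* Q) {k : KK G X} (hk : k ∈ kgr G X 0) :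
    Finsupp.mapDomain π k =
      Finsupp.mapRange.linearMap (LinearMap.toSpanSingleton ℤ (Lam X) 1) (kq π k) := by
  have h1 : ∀ g, Finsupp.mapDomain π (Finsupp.single g (k g)) =
      Finsupp.mapRange.linearMap (LinearMap.toSpanSingleton ℤ (Lam X) 1)
        (kq π (Finsupp.single g (k g))) := by
    intro g
    rw [Finsupp.mapDomain_single, kq_single, Finsupp.mapRange.linearMap_apply,
      Finsupp.mapRange_single, LinearMap.toSpanSingleton_apply, ← eq_eps (hk g)]
  have h2 : k = ∑ g ∈ k.support, Finsupp.single g (k g) := (Finsupp.sum_single k).symm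
  have h3 : Finsupp.mapDomain π k =
      ∑ g ∈ k.support, Finsupp.mapDomain π (Finsupp.single g (k g)) := by
    conv_lhs => rw [h2]
    exact map_sum (Finsupp.mapDomain.addMonoidHom (M := Lam X) π) _ _
  rw [h3]
  conv_rhs => rw [h2, map_sum, map_sum]
  exact Finset.sum_congr rfl fun g _ => h1 g

theorem kgr0_mem_kY {Y : Set X} {k : KK G X} (hk : k ∈ kgr G X 0) : k ∈ kY G Y := by
  intro y _ g
  have := ic_mem_gr y (hk g)
  rw [gr_neg (by norm_num)] at this
  simpa using this

theorem mem_kY_univ (k : KK G X) : k ∈ kY G (Set.univ : Set X) := by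
  intro y hy
  exact absurd (Set.mem_univ y) hy

variable {φ : FreeGroup κ →* G} {π : G →* Q} {t : X → G} {c : G → (X →₀ ℤ)}
  {a : I → FreeGroup κ} {x0 : I → X} {p : ℕ}

theorem Good.kexact_q (H : Good φ π t c a x0 p) {k : KK G X} (hk : k ∈ kgr G X 0)
    (h : kq π k = 0) : ∃ k' ∈ kgr G X 1, kd t k' = k := by
  have hL : Subgroup.closure (t '' (Set.univ : Set X)) = π.ker := by
    rw [Set.image_univ, H.pker]
  have h0 : Finsupp.mapDomain
      (QuotientGroup.mk (s := Subgroup.closure (t '' (Set.univ : Set X)))) k = 0 := by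
    have hwd : ∀ g g' : G, (QuotientGroup.mk (s := Subgroup.closure (t '' Set.univ)) g) =
        QuotientGroup.mk g' ↔ π g = π g' := by
      intro g g'
      rw [QuotientGroup.eq, hL, MonoidHom.mem_ker, map_mul, map_inv, inv_mul_eq_one]
    let ρ : G ⧸ Subgroup.closure (t '' (Set.univ : Set X)) → Q :=
      Quotient.lift (fun g => π g) (fun g g' hgg => (hwd g g').1 (Quotient.sound hgg))
    have hρ : Function.Injective ρ := by
      intro q q'
      induction q using QuotientGroup.induction_on with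
      | H g =>
        induction q' using QuotientGroup.induction_on with
        | H g' => exact fun e => (hwd g g').2 e
    apply Finsupp.mapDomain_injective hρ
    rw [← Finsupp.mapDomain_comp, Finsupp.mapDomain_zero]
    have : ρ ∘ QuotientGroup.mk = π := rfl
    rw [this, mapDomain_kgr0 π hk, h, map_zero]
  obtain ⟨k', h1, _, h3⟩ := kexact0 hk h0
  exact ⟨k', h1, h3⟩

/-- Lifting finitely supported functions. -/
theorem lift_finsupp {α A B : Type} [AddCommGroup A] [AddCommGroup B] (S : α → Submodule ℤ A)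
    (T : α → A → B) (hT : ∀ s, T s 0 = 0) (u : α →₀ B) (h : ∀ s, ∃ v ∈ S s, T s v = u s) :
    ∃ u' : α →₀ A, (∀ s, u' s ∈ S s) ∧ ∀ s, T s (u' s) = u s := by
  classical
  choose v hv1 hv2 using h
  refine ⟨Finsupp.onFinset u.support (fun s => if s ∈ u.support then v s else 0)
    (fun s hs => by
      by_contra hcon
      exact hs (if_neg hcon)), fun s => ?_, fun s => ?_⟩
  · rw [Finsupp.onFinset_apply]
    split_ifs
    · exact hv1 s
    · exact Submodule.zero_mem _
  · rw [Finsupp.onFinset_apply]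
    split_ifs with hs
    · exact hv2 s
    · rw [hT, Finsupp.notMem_support_iff.1 hs]

theorem del_kd (H : Good φ π t c a x0 p) (u : κ →₀ KK G X) :
    kd t (del (kR φ) u) = del (kR φ) (Finsupp.mapRange.linearMap (kd t) u) :=
  del_nat _ _ (kd t) (kd_kR φ t H.tconj) u

theorem Good.gam (H : Good φ π t c a x0 p) {n : ℤ} (hn : 1 ≤ n) {k : KK G X}
    {u : κ →₀ KK G X} (hk : k ∈ kgr G X n) (hu : ∀ s, u s ∈ kgr G X (n - 1))
    (h1 : kd t k + del (kR φ) u = 0) (h2 : ∀ s, kd t (u s) = 0)
    (h3 : n = 1 → ∀ s, kq π (u s) = 0) :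
    ∃ k' ∈ kgr G X (n + 1), ∃ u' : κ →₀ KK G X, (∀ s, u' s ∈ kgr G X n) ∧
      kd t k' + del (kR φ) u' = k ∧ ∀ s, - kd t (u' s) = u s := by
  have hlift : ∀ s, ∃ v ∈ kgr G X n, kd t v = u s := by
    intro s
    by_cases h : n = 1
    · obtain ⟨k', a1, a2⟩ := H.kexact_q (k := u s) (by simpa [h] using hu s) (h3 h s)
      exact ⟨k', by rw [h]; exact a1, a2⟩
    · obtain ⟨k', a1, _, a2⟩ := kexact H.tcomm H.coord (n := n - 1) (by omega) (hu s)
        (mem_kY_univ _) (h2 s)
      exact ⟨k', by simpa using a1, a2⟩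
  obtain ⟨u1, b1, b2⟩ := lift_finsupp (fun _ => kgr G X n) (fun _ => kd t) (fun _ => map_zero _)
    u hlift
  have hu1 : Finsupp.mapRange.linearMap (kd t) u1 = u := by
    ext s : 1
    simpa using b2 s
  have hcl : kd t (k + del (kR φ) u1) = 0 := by
    rw [map_add, del_kd H, hu1, h1]
  have hmem : k + del (kR φ) u1 ∈ kgr G X n :=
    Submodule.add_mem _ hk (del_mem (fun f x hx => kR_mem φ f hx) b1)
  obtain ⟨k', c1, _, c2⟩ := kexact H.tcomm H.coord (n := n) (by omega) hmem
    (mem_kY_univ _) hcl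
  refine ⟨k', c1, -u1, fun s => Submodule.neg_mem _ (b1 s), ?_, fun s => ?_⟩
  · rw [c2, map_neg]
    abel
  · rw [Finsupp.neg_apply, map_neg, neg_neg, b2]

/-- The key injectivity: translation invariance modulo a face implies triviality. -/
theorem inj_face (ht : ∀ x y, t x * t y = t y * t x)
    (hc : ∀ g x, c (g * t x) = c g + Finsupp.single x 1) (x : X) {v : KK G X}
    (h : Finsupp.mapDomain (QuotientGroup.mk (s := Subgroup.closure (t '' {x}ᶜ)))
        (kT (t x) v) =
      Finsupp.mapDomain (QuotientGroup.mk (s := Subgroup.closure (t '' {x}ᶜ))) v) :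
    Finsupp.mapDomain (QuotientGroup.mk (s := Subgroup.closure (t '' {x}ᶜ))) v = 0 := by
  classical
  set L := Subgroup.closure (t '' ({x}ᶜ : Set X)) with hL
  have hcomm : ∀ l ∈ L, t x * l = l * t x := by
    intro l hl
    rw [hL] at hl
    induction hl using Subgroup.closure_induction with
    | mem l hm => obtain ⟨y, _, rfl⟩ := hm; exact ht x y
    | one => simp
    | mul l1 l2 _ _ h1 h2 => rw [← mul_assoc, h1, mul_assoc, h2, mul_assoc]
    | inv l1 _ h1 =>
      rw [eq_comm, inv_mul_eq_iff_eq_mul, ← mul_assoc, ← h1, mul_assoc, mul_inv_cancel, mul_one]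
  have hcoord : ∀ l ∈ L, ∀ g, c (g * l) x = c g x := by
    intro l hl
    rw [hL] at hl
    induction hl using Subgroup.closure_induction with
    | mem l hm =>
      obtain ⟨y, hy, rfl⟩ := hm
      intro g
      have hne : x ≠ y := fun e => hy e.symm
      rw [hc, Finsupp.add_apply, Finsupp.single_eq_of_ne hne, add_zero]
    | one => intro g; rw [mul_one]
    | mul l1 l2 _ _ h1 h2 => intro g; rw [← mul_assoc, h2, h1]
    | inv l1 _ h1 => intro g; rw [← h1 (g * l1⁻¹), inv_mul_cancel_right]
  let τ : G ⧸ L → G ⧸ L := Quotient.map' (fun g => g * t x) (by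
    intro g g' hg
    rw [QuotientGroup.leftRel_apply] at hg ⊢
    have : (g * t x)⁻¹ * (g' * t x) = (t x)⁻¹ * (g⁻¹ * g' * t x) := by group
    rw [this, ← hcomm _ hg, inv_mul_cancel_left]
    exact hg)
  let ψ : G ⧸ L → ℤ := Quotient.lift (fun g => c g x) (by
    intro g g' hg
    have hg' : g⁻¹ * g' ∈ L := QuotientGroup.leftRel_apply.1 hg
    change c g x = c g' x
    rw [← hcoord _ hg' g]
    congr 2
    group)
  have hτψ : ∀ q, ψ (τ q) = ψ q + 1 := by
    intro q
    induction q using QuotientGroup.induction_on with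
    | H g =>
      change c (g * t x) x = c g x + 1
      rw [hc]
      simp
  have hτinj : Function.Injective τ := by
    intro q q'
    induction q using QuotientGroup.induction_on with
    | H g =>
      induction q' using QuotientGroup.induction_on with
      | H g' =>
        intro e
        have e' : (QuotientGroup.mk (s := L) (g * t x)) = QuotientGroup.mk (g' * t x) := e
        rw [QuotientGroup.eq] at e' ⊢
        have e2 : t x * ((g * t x)⁻¹ * (g' * t x)) = (g⁻¹ * g') * t x := by group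
        rw [hcomm _ e'] at e2
        have e3 := mul_right_cancel e2
        rw [← e3]
        exact e'
  set z := Finsupp.mapDomain (QuotientGroup.mk (s := L)) v with hz
  have hinv : Finsupp.mapDomain τ z = z := by
    rw [hz, ← Finsupp.mapDomain_comp]
    have e : τ ∘ QuotientGroup.mk = QuotientGroup.mk ∘ (fun g => g * t x) := rfl
    rw [e, Finsupp.mapDomain_comp]
    exact h
  by_contra hcon
  have hne : z.support.Nonempty := Finsupp.support_nonempty_iff.2 hcon
  obtain ⟨q, hq, hmax⟩ := Finset.exists_max_image z.support ψ hne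
  have h1 : z (τ q) = z q := by
    conv_lhs => rw [← hinv]
    exact Finsupp.mapDomain_apply hτinj z q
  have h2 : τ q ∈ z.support := by
    rw [Finsupp.mem_support_iff, h1]
    exact Finsupp.mem_support_iff.1 hq
  have h3 := hmax _ h2
  rw [hτψ] at h3
  omega

theorem Good.kR_pow_kY (H : Good φ π t c a x0 p) (i : I) (j : ℕ) {k : KK G X}
    (hk : k ∈ kY G ({x0 i}ᶜ : Set X)) : kR φ (a i ^ j) k ∈ kY G ({x0 i}ᶜ : Set X) := by
  induction j with
  | zero => rw [pow_zero, kR_one]; exact hk
  | succ j ih => rw [pow_succ, kR_mul]; exact H.totGr_g.Rfr i _ ih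

theorem Good.face (H : Good φ π t c a x0 p) (i : I) {n : ℤ} (hn : 1 ≤ n) {v1 v2 : KK G X}
    (h1 : v1 ∈ kgr G X n ⊓ kY G {x0 i}ᶜ) (h2 : v2 ∈ kgr G X (n - 1) ⊓ kY G {x0 i}ᶜ)
    (e1 : kd t v1 + (kR φ (a i) v2 - v2) = 0) (e2 : kd t v2 = 0) :
    ∃ v1' ∈ kgr G X (n + 1) ⊓ kY G {x0 i}ᶜ, ∃ v2' ∈ kgr G X n ⊓ kY G {x0 i}ᶜ,
      kd t v1' + (kR φ (a i) v2' - v2') = v1 ∧ - kd t v2' = v2 := by
  have hlift : ∃ v ∈ kgr G X n ⊓ kY G ({x0 i}ᶜ : Set X), kd t v = v2 := by
    by_cases h : n = 1
    · subst h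
      have hv2 : v2 ∈ kgr G X 0 := by simpa using h2.1
      have hq : kT (t (x0 i)) v2 - v2 =
          kd t (-∑ j ∈ Finset.range p, kR φ (a i ^ j) v1) := by
        have hT : kT (t (x0 i)) v2 = kR φ (a i ^ p) v2 := by
          rw [kR_kT_of φ (H.apow_smul i), map_pow, H.apow]
        rw [hT, ← H.totOK_g.geom (a i) p v2, map_neg, map_sum, ← Finset.sum_neg_distrib]
        refine Finset.sum_congr rfl fun j _ => ?_
        rw [kd_kR φ t H.tconj, ← map_neg]
        congr 1
        exact (neg_eq_of_add_eq_zero_right e1).symm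
      have hm1 : (-∑ j ∈ Finset.range p, kR φ (a i ^ j) v1) ∈ kgr G X 1 :=
        Submodule.neg_mem _ (Submodule.sum_mem _ fun j _ => kR_mem φ _ h1.1)
      have hm2 : (-∑ j ∈ Finset.range p, kR φ (a i ^ j) v1) ∈ kY G ({x0 i}ᶜ : Set X) :=
        Submodule.neg_mem _ (Submodule.sum_mem _ fun j _ => H.kR_pow_kY i j h1.2)
      have hmd := mapDomain_kd (t := t) hm1 hm2
      rw [← hq] at hmd
      have hsub : Finsupp.mapDomain (QuotientGroup.mk (s := Subgroup.closure (t '' {x0 i}ᶜ)))
          (kT (t (x0 i)) v2) = Finsupp.mapDomain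
          (QuotientGroup.mk (s := Subgroup.closure (t '' {x0 i}ᶜ))) v2 := by
        rw [← sub_eq_zero, ← hmd]
        exact (map_sub (Finsupp.mapDomain.addMonoidHom
          (M := Lam X) (QuotientGroup.mk (s := Subgroup.closure (t '' {x0 i}ᶜ)))) _ _).symm
      have h0 := inj_face H.tcomm H.coord (x0 i) hsub
      obtain ⟨k', b1, b2, b3⟩ := kexact0 hv2 h0
      exact ⟨k', ⟨b1, b2⟩, b3⟩
    · obtain ⟨k', b1, b2, b3⟩ := kexact H.tcomm H.coord (n := n - 1) (by omega) h2.1 h2.2 e2
      exact ⟨k', ⟨by simpa using b1, b2⟩, b3⟩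
  obtain ⟨v, hv, hvd⟩ := hlift
  have hcl : kd t (v1 + (kR φ (a i) v - v)) = 0 := by
    rw [map_add, map_sub, kd_kR φ t H.tconj, hvd, e1]
  have hmem : v1 + (kR φ (a i) v - v) ∈ kgr G X n :=
    Submodule.add_mem _ h1.1 (Submodule.sub_mem _ (kR_mem φ _ hv.1) hv.1)
  have hmem2 : v1 + (kR φ (a i) v - v) ∈ kY G ({x0 i}ᶜ : Set X) :=
    Submodule.add_mem _ h1.2 (Submodule.sub_mem _ (H.totGr_g.Rfr i _ hv.2) hv.2)
  obtain ⟨k', b1, b2, b3⟩ := kexact H.tcomm H.coord (n := n) (by omega) hmem hmem2 hcl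
  refine ⟨k', ⟨b1, b2⟩, -v, Submodule.neg_mem _ hv, ?_, ?_⟩
  · rw [b3, map_neg]
    abel
  · rw [map_neg, neg_neg, hvd]

theorem Good.face0 (H : Good φ π t c a x0 p) (i : I) {v : KK G X} (hv : v ∈ kgr G X 0)
    {y : Q →₀ ℤ} (hy : RQ φ π (a i) y - y = kq π v) :
    ∃ v1' ∈ kgr G X 1 ⊓ kY G {x0 i}ᶜ, ∃ v2' ∈ kgr G X 0,
      kd t v1' + (kR φ (a i) v2' - v2') = v := by
  obtain ⟨y1, hy1, hy2⟩ := exists_lift (X := X) H.pi_surj y
  have hk : v - (kR φ (a i) y1 - y1) ∈ kgr G X 0 :=
    Submodule.sub_mem _ hv (Submodule.sub_mem _ (kR_mem φ _ hy1) hy1)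
  have hq : kq π (v - (kR φ (a i) y1 - y1)) = 0 := by
    rw [map_sub, map_sub, kq_kR, hy2, hy, sub_self]
  obtain ⟨k, hk1, hk2⟩ := H.kexact_q hk hq
  have hm0 : ki (x0 i) k ∈ kgr G X 0 := by
    have := ki_mem (x0 i) hk1
    simpa using this
  have hdm : kd t (ki (x0 i) k) = 0 := kd_deg_zero hm0
  have e1 : kd t (kh (x0 i) (ki (x0 i) k)) =
      kR φ (a i ^ p) (ki (x0 i) k) - ki (x0 i) k := by
    have := kd_kh t (x0 i) (ki (x0 i) k)
    rw [hdm, map_zero, add_zero] at this
    rw [this, kR_kT_of φ (H.apow_smul i), map_pow, H.apow]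
  rw [← H.totOK_g.geom' (a i) p] at e1
  refine ⟨k - kh (x0 i) (ki (x0 i) k), ⟨?_, ?_⟩,
    y1 + ∑ j ∈ Finset.range p, kR φ (a i ^ j) (ki (x0 i) k), ?_, ?_⟩
  · refine Submodule.sub_mem _ hk1 ?_
    have := kh_mem (x0 i) hm0
    simpa using this
  · change k - kh (x0 i) (ki (x0 i) k) ∈ kY G ({x0 i}ᶜ : Set X)
    rw [mem_kY]
    intro y hy
    have hy' : y = x0 i := by simpa using hy
    rw [hy', map_sub, ki_kh, ki_ki, map_zero, sub_zero, sub_self]
  · exact Submodule.add_mem _ hy1 (Submodule.sum_mem _ fun j _ => kR_mem φ _ hm0)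
  · rw [map_sub, hk2, e1, map_add]
    abel

theorem kq_th2 (φ : FreeGroup κ →* G) (π : G →* Q) (a : I → FreeGroup κ) (x0 : I → X) (p : ℕ)
    (w : I →₀ (KK G X × KK G X)) :
    Finsupp.mapRange.linearMap (kq π) (th2 (kR φ) (fun i => kh (x0 i)) a p w) =
      relM φ π a p (Finsupp.mapRange.linearMap
        ((kq π) ∘ₗ LinearMap.fst ℤ (KK G X) (KK G X)) w) := by
  induction w using Finsupp.induction_linear with
  | zero => simp
  | add u v hu hv => simp only [map_add, hu, hv]
  | single i w =>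
    rw [th2_single, Finsupp.mapRange.linearMap_apply (f := (kq π) ∘ₗ LinearMap.fst ℤ _ _),
      Finsupp.mapRange_single]
    unfold relM
    rw [Finsupp.lsum_single]
    ext s : 1
    rw [Finsupp.mapRange.linearMap_apply, Finsupp.mapRange_apply, Finsupp.add_apply, map_add,
      PP_nat _ (RQ φ π) (kq π) (kq_kR φ π), PP_nat _ (RQ φ π) (kq π) (kq_kR φ π), kq_kh,
      map_zero, Finsupp.zero_apply, add_zero]
    rfl

/-- Exactness of the total complex in positive degrees. -/
theorem Good.gexact (H : Good φ π t c a x0 p) {n : ℤ} (hn : 1 ≤ n) {v : Tot κ I (KK G X)}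
    (hv : v ∈ ggr G κ x0 n) (hd : gd φ t a x0 p v = 0) :
    ∃ v' ∈ ggr G κ x0 (n + 1), gd φ t a x0 p v' = v := by
  obtain ⟨k, u, w⟩ := v
  obtain ⟨hk, hu, hw⟩ := hv
  simp only at hk hu hw
  rw [gd, totd_apply] at hd
  simp only [Prod.mk_eq_zero] at hd
  obtain ⟨d1, d2, d3⟩ := hd
  -- it is enough to treat the faces
  have key : ∀ w' : I →₀ (KK G X × KK G X),
      (∀ i, (w' i).1 ∈ kgr G X (n - 1) ⊓ kY G {x0 i}ᶜ ∧ (w' i).2 ∈ kgr G X (n - 2) ⊓ kY G {x0 i}ᶜ) →
      facesd (kd t) (kR φ) a w' = w →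
      (n = 1 → ∀ s, kq π (u s) = kq π (th2 (kR φ) (fun i => kh (x0 i)) a p w' s)) →
      ∃ v' ∈ ggr G κ x0 (n + 1), gd φ t a x0 p v' = (k, u, w) := by
    intro w' hw' hfw hq
    have hdd := H.gd_gd (0, 0, w')
    rw [gd, totd_apply, totd_apply] at hdd
    simp only [map_zero, add_zero, zero_add, neg_zero, Prod.mk_eq_zero] at hdd
    obtain ⟨q1, q2, q3⟩ := hdd
    rw [hfw] at q1 q2
    have hth1 : th1 (fun i => kh (x0 i)) w' ∈ kgr G X n := by
      have := H.totGr_g.th1_mem (n := n - 1) (w := w') (fun i => (hw' i).1.1)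
      simpa using this
    have hth2 : ∀ s, th2 (kR φ) (fun i => kh (x0 i)) a p w' s ∈ kgr G X (n - 1) := by
      intro s
      exact H.totGr_g.th2_mem p (n := n - 1) (fun i => (hw' i).1.1)
        (fun i => by rw [show n - 1 - 1 = n - 2 by ring]; exact (hw' i).2.1) s
    obtain ⟨k', g1, u', g2, g3, g4⟩ := H.gam hn
      (k := k - th1 (fun i => kh (x0 i)) w')
      (u := u - th2 (kR φ) (fun i => kh (x0 i)) a p w')
      (Submodule.sub_mem _ hk hth1) (fun s => Submodule.sub_mem _ (hu s) (hth2 s))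
      (by
        rw [map_sub, map_sub]
        have : kd t k - kd t (th1 (fun i => kh (x0 i)) w') +
          (del (kR φ) u - del (kR φ) (th2 (kR φ) (fun i => kh (x0 i)) a p w')) =
          (kd t k + del (kR φ) u + th1 (fun i => kh (x0 i)) w) -
          (kd t (th1 (fun i => kh (x0 i)) w') +
            del (kR φ) (th2 (kR φ) (fun i => kh (x0 i)) a p w') +
            th1 (fun i => kh (x0 i)) w) := by abel
        rw [this, d1, q1, sub_zero])
      (by
        intro s
        have e1 := DFunLike.congr_fun d2 s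
        have e2 := DFunLike.congr_fun q2 s
        simp only [Finsupp.add_apply, Finsupp.neg_apply, Finsupp.mapRange.linearMap_apply,
          Finsupp.mapRange_apply, Finsupp.zero_apply] at e1 e2
        rw [Finsupp.sub_apply, map_sub]
        have e1' : kd t (u s) = th2 (kR φ) (fun i => kh (x0 i)) a p w s :=
          (neg_add_eq_zero.1 e1)
        have e2' : kd t (th2 (kR φ) (fun i => kh (x0 i)) a p w' s) =
            th2 (kR φ) (fun i => kh (x0 i)) a p w s := (neg_add_eq_zero.1 e2)
        rw [e1', e2', sub_self])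
      (by
        intro h s
        rw [Finsupp.sub_apply, map_sub, hq h s, sub_self])
    refine ⟨(k', u', w'), ⟨g1, ?_, ?_⟩, ?_⟩
    · intro s
      have := g2 s
      simpa using this
    · intro i
      rw [show n + 1 - 2 = n - 1 by ring, show n + 1 - 3 = n - 2 by ring]
      exact hw' i
    · rw [gd, totd_apply]
      refine Prod.ext ?_ (Prod.ext ?_ ?_)
      · simp only
        rw [g3]
        abel
      · ext s : 1
        simp only [Finsupp.add_apply, Finsupp.neg_apply, Finsupp.mapRange.linearMap_apply,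
          Finsupp.mapRange_apply]
        rw [g4, Finsupp.sub_apply]
        abel
      · exact hfw
  have hfd : ∀ i, kd t (w i).1 + (kR φ (a i) (w i).2 - (w i).2) = 0 ∧ kd t (w i).2 = 0 := by
    intro i
    have e := DFunLike.congr_fun d3 i
    rw [facesd_apply, Finsupp.zero_apply, Prod.mk_eq_zero] at e
    exact ⟨e.1, neg_eq_zero.1 e.2⟩
  -- a general construction of the lift to the faces
  have build : (∀ i, ∃ v ∈ (kgr G X (n - 1) ⊓ kY G {x0 i}ᶜ).prod
      (kgr G X (n - 2) ⊓ kY G {x0 i}ᶜ),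
      faced (kd t) (kR φ) (a i) v = w i) → ∃ w' : I →₀ (KK G X × KK G X),
      (∀ i, (w' i).1 ∈ kgr G X (n - 1) ⊓ kY G {x0 i}ᶜ ∧ (w' i).2 ∈ kgr G X (n - 2) ⊓ kY G {x0 i}ᶜ) ∧
      facesd (kd t) (kR φ) a w' = w := by
    intro h
    obtain ⟨w', h1, h2⟩ := lift_finsupp
      (fun i => (kgr G X (n - 1) ⊓ kY G {x0 i}ᶜ).prod (kgr G X (n - 2) ⊓ kY G {x0 i}ᶜ))
      (fun i => faced (kd t) (kR φ) (a i)) (fun i => map_zero _) w h
    refine ⟨w', fun i => ⟨(h1 i).1, (h1 i).2⟩, ?_⟩
    ext i : 1
    rw [facesd_apply, ← h2 i]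
    rfl
  by_cases h3 : 3 ≤ n
  · obtain ⟨w', hw1, hw2⟩ := build (by
      intro i
      obtain ⟨v1', b1, v2', b2, b3, b4⟩ := H.face i (n := n - 2) (by omega) (hw i).1
        (by rw [show n - 2 - 1 = n - 3 by ring]; exact (hw i).2) (hfd i).1 (hfd i).2
      refine ⟨(v1', v2'), ⟨?_, b2⟩, ?_⟩
      · rw [show n - 2 + 1 = n - 1 by ring] at b1
        exact b1
      · exact Prod.ext b3 b4)
    exact key w' hw1 hw2 (fun h => by omega)
  · by_cases h2 : n = 2
    · subst h2
      have hw20 : ∀ i, (w i).2 = 0 := by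
        intro i
        have := (hw i).2.1
        ext g : 1
        have h := this g
        rw [gr_neg (by norm_num)] at h
        simpa using h
      have hrel : relM φ π a p (Finsupp.mapRange.linearMap
          ((kq π) ∘ₗ LinearMap.fst ℤ (KK G X) (KK G X)) w) = 0 := by
        have e3 : Finsupp.mapRange.linearMap (kq π) (Finsupp.mapRange.linearMap (kd t) u) = 0 := by
          ext s : 1
          simp only [Finsupp.mapRange.linearMap_apply, Finsupp.mapRange_apply, Finsupp.zero_apply]
          exact kq_kd π t H.pi_t _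
        rw [← kq_th2 φ π a x0 p w, ← neg_add_eq_zero.1 d2]
        exact e3
      have hy := H.exact2 _ hrel
      obtain ⟨w', hw1, hw2⟩ := build (by
        intro i
        obtain ⟨y, hy⟩ := hy i
        have hv : (w i).1 ∈ kgr G X 0 := by simpa using (hw i).1.1
        obtain ⟨v1', b1, v2', b2, b3⟩ := H.face0 i hv (y := y) (by rw [hy]; simp)
        refine ⟨(v1', v2'), ⟨?_, ?_⟩, ?_⟩
        · simpa using b1
        · exact ⟨by simpa using b2, kgr0_mem_kY b2⟩
        · refine Prod.ext b3 ?_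
          change - kd t v2' = (w i).2
          rw [kd_deg_zero b2, neg_zero, hw20 i])
      exact key w' hw1 hw2 (fun h => by omega)
    · have h1 : n = 1 := by omega
      subst h1
      have hw0 : w = 0 := by
        ext i : 1
        refine Prod.ext ?_ ?_
        · have := (hw i).1.1
          ext g : 1
          have h := this g
          rw [gr_neg (by norm_num)] at h
          simpa using h
        · have := (hw i).2.1
          ext g : 1
          have h := this g
          rw [gr_neg (by norm_num)] at h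
          simpa using h
      have hdel : del (RQ φ π) (Finsupp.mapRange.linearMap (kq π) u) = 0 := by
        rw [← del_nat (kR φ) (RQ φ π) (kq π) (kq_kR φ π) u]
        have := congrArg (kq π) d1
        rw [hw0, map_zero, add_zero, map_add, kq_kd π t H.pi_t, zero_add, map_zero] at this
        exact this
      obtain ⟨z, hz⟩ := H.exact1 _ hdel
      obtain ⟨z', hz1, hz2⟩ := lift_finsupp (fun _ => kgr G X 0) (fun _ => kq (X := X) π)
        (fun _ => map_zero _) z (fun i => exists_lift H.pi_surj (z i))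
      refine key (Finsupp.mapRange.linearMap (LinearMap.inl ℤ (KK G X) (KK G X)) z') ?_ ?_ ?_
      · intro i
        simp only [Finsupp.mapRange.linearMap_apply, Finsupp.mapRange_apply, LinearMap.inl_apply]
        exact ⟨⟨by simpa using hz1 i, kgr0_mem_kY (hz1 i)⟩, Submodule.zero_mem _⟩
      · rw [hw0]
        ext i : 1
        rw [facesd_apply]
        simp only [Finsupp.mapRange.linearMap_apply, Finsupp.mapRange_apply, LinearMap.inl_apply,
          map_zero, sub_zero, add_zero, neg_zero, Finsupp.zero_apply, Prod.mk_eq_zero, and_true]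
        exact kd_deg_zero (hz1 i)
      · intro _ s
        have e := kq_th2 φ π a x0 p
          (Finsupp.mapRange.linearMap (LinearMap.inl ℤ (KK G X) (KK G X)) z')
        have e2 : Finsupp.mapRange.linearMap ((kq π) ∘ₗ LinearMap.fst ℤ (KK G X) (KK G X))
            (Finsupp.mapRange.linearMap (LinearMap.inl ℤ (KK G X) (KK G X)) z') = z := by
          ext i : 1
          simpa using hz2 i
        rw [e2, hz] at e
        have := DFunLike.congr_fun e s
        simpa using this.symm

theorem sum_RQ (φ : FreeGroup κ →* G) (π : G →* Q) (f : FreeGroup κ) (z : Q →₀ ℤ) :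
    (RQ φ π f z).sum (fun _ m => m) = z.sum fun _ m => m := by
  unfold RQ
  rw [Finsupp.lmapDomain_apply, Finsupp.sum_mapDomain_index (by simp) (by simp)]

/-- Exactness at the group ring of the quotient. -/
theorem Good.exact0 (H : Good φ π t c a x0 p) (z : Q →₀ ℤ) (hz : z.sum (fun _ m => m) = 0) :
    ∃ u, del (RQ φ π) u = z := by
  have R1 : ∀ z, RQ φ π 1 z = z := by
    intro z
    have : (fun q : Q => q * π (φ 1)) = id := by ext q; simp
    unfold RQ
    rw [this, Finsupp.lmapDomain_id]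
    rfl
  have Rm : ∀ f g z, RQ φ π (f * g) z = RQ φ π g (RQ φ π f z) := by
    intro f g z
    unfold RQ
    rw [Finsupp.lmapDomain_apply, Finsupp.lmapDomain_apply, Finsupp.lmapDomain_apply,
      ← Finsupp.mapDomain_comp]
    congr 1
    ext q
    simp [mul_assoc]
  have key : ∀ z : Q →₀ ℤ, ∃ u, del (RQ φ π) u = z - Finsupp.single 1 (z.sum fun _ m => m) := by
    intro z
    induction z using Finsupp.induction_linear with
    | zero => exact ⟨0, by simp⟩
    | add z1 z2 h1 h2 =>
      obtain ⟨u1, e1⟩ := h1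
      obtain ⟨u2, e2⟩ := h2
      refine ⟨u1 + u2, ?_⟩
      rw [map_add, e1, e2, Finsupp.sum_add_index' (by simp) (by simp), Finsupp.single_add]
      abel
    | single q n =>
      obtain ⟨g, rfl⟩ := H.pi_surj q
      obtain ⟨f, rfl⟩ := H.phi_surj g
      refine ⟨PP (RQ φ π) f (Finsupp.single 1 n), ?_⟩
      rw [del_PP _ R1 Rm, Finsupp.sum_single_index (by simp)]
      simp [RQ, Finsupp.mapDomain_single]
  obtain ⟨u, hu⟩ := key z
  exact ⟨u, by rw [hu, hz, Finsupp.single_zero, sub_zero]⟩

/-- Exactness of the total complex in degree zero. -/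
theorem Good.gexact0 (H : Good φ π t c a x0 p) {v : Tot κ I (KK G X)}
    (hv : v ∈ ggr G κ x0 0) (hd : (kq π v.1).sum (fun _ m => m) = 0) :
    ∃ v' ∈ ggr G κ x0 1, gd φ t a x0 p v' = v := by
  obtain ⟨k, u, w⟩ := v
  obtain ⟨hk, hu, hw⟩ := hv
  simp only at hk hu hw hd
  have hneg : ∀ (n : ℤ), n < 0 → ∀ x : KK G X, x ∈ kgr G X n → x = 0 := by
    intro n hn x hx
    ext g : 1
    have h := hx g
    rw [gr_neg hn] at h
    simpa using h
  have hu0 : u = 0 := by
    ext s : 1
    exact hneg _ (by norm_num) _ (hu s)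
  have hw0 : w = 0 := by
    ext i : 1
    exact Prod.ext (hneg _ (by norm_num) _ (hw i).1.1) (hneg _ (by norm_num) _ (hw i).2.1)
  obtain ⟨z, hz⟩ := H.exact0 _ hd
  obtain ⟨z', hz1, hz2⟩ := lift_finsupp (fun _ => kgr G X 0) (fun _ => kq (X := X) π)
    (fun _ => map_zero _) z (fun i => exists_lift H.pi_surj (z i))
  have hz' : Finsupp.mapRange.linearMap (kq π) z' = z := by
    ext s : 1
    simpa using hz2 s
  have hmem : k - del (kR φ) z' ∈ kgr G X 0 :=
    Submodule.sub_mem _ hk (del_mem (fun f x hx => kR_mem φ f hx) hz1)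
  have hq : kq π (k - del (kR φ) z') = 0 := by
    rw [map_sub, del_nat (kR φ) (RQ φ π) (kq π) (kq_kR φ π), hz', hz, sub_self]
  obtain ⟨k', h1, h2⟩ := H.kexact_q hmem hq
  refine ⟨(k', z', 0), ⟨h1, ?_, ?_⟩, ?_⟩
  · intro s
    simpa using hz1 s
  · intro i
    exact ⟨Submodule.zero_mem _, Submodule.zero_mem _⟩
  · rw [gd, totd_apply]
    refine Prod.ext ?_ (Prod.ext ?_ ?_)
    · simp only [map_zero, add_zero]
      rw [h2]
      abel
    · ext s : 1
      simp only [map_zero, add_zero, Finsupp.neg_apply, Finsupp.mapRange.linearMap_apply,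
        Finsupp.mapRange_apply, hu0, Finsupp.zero_apply]
      rw [kd_deg_zero (hz1 s), neg_zero]
    · simp only [map_zero]
      exact hw0.symm

end W3ab0ed
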